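import Mathlib

set_option autoImplicit false

/-! The Jacobian criterion for algebraic independence, in characteristic zero. -/

namespace Pool.Agent.H71.TW

open MvPolynomial

section

variable {F : Type} [Field F] [CharZero F] {σ : Type}


/-- The gradient as a derivation. -/
noncomputable def grad (F : Type) [Field F] (σ : Type) [DecidableEq σ] :
    Derivation F (MvPolynomial σ F) (σ → MvPolynomial σ F) :=
  mkDerivation F fun j => Pi.single j 1

theorem grad_apply [DecidableEq σ] (p : MvPolynomial σ F) (i : σ) :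
    grad F σ p i = pderiv i p := by
  have h : (LinearMap.proj i : (σ → MvPolynomial σ F) →ₗ[MvPolynomial σ F] _).compDer (grad F σ) =
      pderiv i := by
    apply MvPolynomial.derivation_ext
    intro j
    change (grad F σ (X j)) i = pderiv i (X j)
    rw [grad, mkDerivation_X, pderiv_X]
    by_cases hij : i = j
    · subst hij
      simp
    · simp [hij, Ne.symm hij]
  rw [← h]
  rfl

theorem grad_X [DecidableEq σ] (j : σ) : grad F σ (X j) = Pi.single j 1 := by
  rw [grad, mkDerivation_X]

/-- If `u` is a transcendence basis then a multiple of every `∇ X_j` is in the span of the gradients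
of the elements of `u`. -/
theorem exists_mul_grad_X [DecidableEq σ] {u : Set (MvPolynomial σ F)}
    (hu : Algebra.IsAlgebraic (Algebra.adjoin F u) (MvPolynomial σ F)) (j : σ) :
    ∃ d : MvPolynomial σ F, d ≠ 0 ∧ d • (Pi.single j 1 : σ → MvPolynomial σ F) ∈
      Submodule.span (MvPolynomial σ F) (Set.range fun b : u => grad F σ (b : MvPolynomial σ F)) := by
  classical
  set S := Algebra.adjoin F u with hS
  set N := Submodule.span (MvPolynomial σ F) (Set.range fun b : u => grad F σ (b : MvPolynomial σ F)) with hN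
  have hSN : ∀ s ∈ S, grad F σ s ∈ N := by
    intro s hs
    induction hs using Algebra.adjoin_induction with
    | mem x hx => exact Submodule.subset_span ⟨⟨x, hx⟩, rfl⟩
    | algebraMap r =>
      rw [Derivation.map_algebraMap]
      exact N.zero_mem
    | add x y _ _ hx hy =>
      rw [map_add]
      exact N.add_mem hx hy
    | mul x y _ _ hx hy =>
      rw [Derivation.leibniz]
      exact N.add_mem (N.smul_mem _ hy) (N.smul_mem _ hx)
  have hpoly : ∀ p : Polynomial S, grad F σ (Polynomial.aeval (X j : (MvPolynomial σ F)) p) -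
      (Polynomial.aeval (X j : (MvPolynomial σ F)) (Polynomial.derivative p)) • grad F σ (X j) ∈ N := by
    intro p
    induction p using Polynomial.induction_on' with
    | add p q hp hq =>
      have : grad F σ (Polynomial.aeval (X j : (MvPolynomial σ F)) (p + q)) -
          (Polynomial.aeval (X j : (MvPolynomial σ F)) (Polynomial.derivative (p + q))) • grad F σ (X j) =
          (grad F σ (Polynomial.aeval (X j : (MvPolynomial σ F)) p) -
            (Polynomial.aeval (X j : (MvPolynomial σ F)) (Polynomial.derivative p)) • grad F σ (X j)) +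
          (grad F σ (Polynomial.aeval (X j : (MvPolynomial σ F)) q) -
            (Polynomial.aeval (X j : (MvPolynomial σ F)) (Polynomial.derivative q)) • grad F σ (X j)) := by
        simp only [map_add, add_smul]
        abel
      rw [this]
      exact N.add_mem hp hq
    | monomial n s =>
      rw [Polynomial.aeval_monomial, Polynomial.derivative_monomial, Polynomial.aeval_monomial,
        Derivation.leibniz, Derivation.leibniz_pow]
      have h1 : (algebraMap S (MvPolynomial σ F)) s • (n • ((X j : (MvPolynomial σ F)) ^ (n - 1)) • grad F σ (X j)) =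
          ((algebraMap S (MvPolynomial σ F)) (s * (n : S)) * (X j : (MvPolynomial σ F)) ^ (n - 1)) • grad F σ (X j) := by
        rw [map_mul, map_natCast, mul_assoc, mul_smul, mul_smul]
        congr 1
        rw [Nat.cast_smul_eq_nsmul]
      rw [h1, add_sub_cancel_left]
      exact N.smul_mem _ (hSN _ s.2)
  have halg : ∃ p : Polynomial S, p ≠ 0 ∧ Polynomial.aeval (X j : (MvPolynomial σ F)) p = 0 :=
    hu.isAlgebraic (X j)
  have hex : ∃ m, ∃ p : Polynomial S, p ≠ 0 ∧ Polynomial.aeval (X j : (MvPolynomial σ F)) p = 0 ∧ p.natDegree = m := by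
    obtain ⟨p, hp0, hp⟩ := halg
    exact ⟨_, p, hp0, hp, rfl⟩
  obtain ⟨p, hp0, hp, hpm⟩ := Nat.find_spec hex
  have hdeg : p.natDegree ≠ 0 := by
    intro h0
    obtain ⟨c, hc⟩ := Polynomial.natDegree_eq_zero.1 h0
    rw [← hc, Polynomial.aeval_C] at hp
    have hc0 : c = 0 := (FaithfulSMul.algebraMap_injective S (MvPolynomial σ F)) (by rw [hp, map_zero])
    rw [hc0, Polynomial.C_0] at hc
    exact hp0 hc.symm
  have hder0 : Polynomial.derivative p ≠ 0 := by
    intro h0
    exact hdeg (Polynomial.derivative_eq_zero.1 h0)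
  have hder : Polynomial.aeval (X j : (MvPolynomial σ F)) (Polynomial.derivative p) ≠ 0 := by
    intro h0
    have h1 := Nat.find_min' hex ⟨_, hder0, h0, rfl⟩
    have h2 := Polynomial.natDegree_derivative_lt hdeg
    omega
  refine ⟨_, hder, ?_⟩
  have h1 := hpoly p
  rw [hp, map_zero, zero_sub, Submodule.neg_mem_iff, grad_X] at h1
  exact h1

/-- The Jacobian criterion: if the `f i` are algebraically independent then the Jacobian matrix has
a right inverse up to a nonzero factor. -/
theorem exists_jacobian_inverse [Fintype σ] [DecidableEq σ] {ι : Type} [Fintype ι]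
    [DecidableEq ι] (f : ι → MvPolynomial σ F) (hf : AlgebraicIndependent F f) :
    ∃ (δ : MvPolynomial σ F) (R : σ → ι → MvPolynomial σ F), δ ≠ 0 ∧
      ∀ i i', ∑ j, pderiv j (f i) * R j i' = if i = i' then δ else 0 := by
  classical
  obtain ⟨u, hfu, hu⟩ := exists_isTranscendenceBasis_superset (R := F) (A := (MvPolynomial σ F))
    (s := Set.range f) hf.to_subtype_range
  have halg : Algebra.IsAlgebraic (Algebra.adjoin F u) (MvPolynomial σ F) := by
    have := hu.isAlgebraic
    rwa [Subtype.range_coe] at this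
  choose d hd0 hd using exists_mul_grad_X halg
  have hXb := IsTranscendenceBasis.mvPolynomial σ F
  have hcardu : Cardinal.mk u = Cardinal.mk σ := hu.cardinalMk_eq hXb
  have : Nonempty (u ≃ σ) := Cardinal.eq.1 hcardu
  obtain ⟨e⟩ := this
  have : Fintype u := Fintype.ofEquiv σ e.symm
  choose a ha using fun j => (Submodule.mem_span_range_iff_exists_fun (MvPolynomial σ F)).1 (hd j)
  -- the fraction field
  set K := FractionRing (MvPolynomial σ F)
  set φ := algebraMap (MvPolynomial σ F) K with hφ
  have hφi : Function.Injective φ := IsFractionRing.injective (MvPolynomial σ F) K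
  set J : Matrix u σ K := Matrix.of fun b j => φ (pderiv j (b : (MvPolynomial σ F))) with hJ
  set B : Matrix σ u K := Matrix.of fun j b => (φ (d j))⁻¹ * φ (a j b) with hB
  have hBJ : B * J = 1 := by
    ext j j'
    rw [Matrix.mul_apply]
    simp only [hB, hJ, Matrix.of_apply]
    have h1 := congrFun (ha j) j'
    simp only [Finset.sum_apply, Pi.smul_apply, smul_eq_mul, grad_apply] at h1
    have h2 : ∑ b, (φ (d j))⁻¹ * φ (a j b) * φ (pderiv j' (b : (MvPolynomial σ F))) =
        (φ (d j))⁻¹ * φ (∑ b, a j b * pderiv j' (b : (MvPolynomial σ F))) := by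
      rw [map_sum, Finset.mul_sum]
      refine Finset.sum_congr rfl fun b _ => ?_
      rw [map_mul, mul_assoc]
    rw [h2, h1, map_mul, ← mul_assoc, inv_mul_cancel₀ (fun h => hd0 j (hφi (by rw [h, map_zero]))),
      one_mul, Matrix.one_apply]
    by_cases h : j = j'
    · subst h
      simp
    · simp [h, Ne.symm h]
  have hJB : J * B = 1 := (Matrix.mul_eq_one_comm_of_equiv e.symm).1 hBJ
  refine ⟨∏ j, d j, fun j i => (∏ j' ∈ Finset.univ.erase j, d j') * a j ⟨f i, hfu ⟨i, rfl⟩⟩,
    Finset.prod_ne_zero_iff.2 fun j _ => hd0 j, fun i i' => ?_⟩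
  apply hφi
  have h1 := congrFun (congrFun hJB ⟨f i, hfu ⟨i, rfl⟩⟩) ⟨f i', hfu ⟨i', rfl⟩⟩
  rw [Matrix.mul_apply] at h1
  simp only [hB, hJ, Matrix.of_apply] at h1
  have h2 : φ (∑ j, pderiv j (f i) * ((∏ j' ∈ Finset.univ.erase j, d j') *
      a j ⟨f i', hfu ⟨i', rfl⟩⟩)) = φ (∏ j, d j) *
      ∑ j, φ (pderiv j (f i)) * ((φ (d j))⁻¹ * φ (a j ⟨f i', hfu ⟨i', rfl⟩⟩)) := by
    rw [map_sum, Finset.mul_sum]
    refine Finset.sum_congr rfl fun j _ => ?_
    rw [← Finset.prod_erase_mul Finset.univ d (Finset.mem_univ j)]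
    rw [map_mul, map_mul, map_mul]
    have h3 : φ (d j) * (φ (d j))⁻¹ = 1 :=
      mul_inv_cancel₀ fun h => hd0 j (hφi (by rw [h, map_zero]))
    linear_combination (-(φ (pderiv j (f i)) * φ (∏ j' ∈ Finset.univ.erase j, d j') *
      φ (a j ⟨f i', hfu ⟨i', rfl⟩⟩))) * h3
  rw [h2, h1, Matrix.one_apply]
  have h4 : ((⟨f i, hfu ⟨i, rfl⟩⟩ : u) = ⟨f i', hfu ⟨i', rfl⟩⟩) ↔ i = i' := by
    rw [Subtype.mk.injEq]
    exact hf.injective.eq_iff
  by_cases h : i = i'
  · simp [h]
  · simp [h, h4]

end

end Pool.Agent.H71.TW
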