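import Mathlib
import Pool.Agent.H71.TW.Jac

set_option autoImplicit false
set_option linter.all false

/-! If the translates of a coordinate subspace `T_J` are dense in `T` then the coordinates outside of
`J` can be matched with elements of the Lie algebra. -/

namespace Pool.Agent.H71.TW

open MvPolynomial

section Deriv

variable {F : Type} [Field F] {σ : Type} [Fintype σ]

/-- The directional derivative of `p` at `a` in the direction `u`. -/
noncomputable def dd (a u : σ → F) (p : MvPolynomial σ F) : F := ∑ j, eval a (pderiv j p) * u j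

theorem dd_add (a u : σ → F) (p q : MvPolynomial σ F) : dd a u (p + q) = dd a u p + dd a u q := by
  simp [dd, add_mul, Finset.sum_add_distrib]

theorem dd_mul (a u : σ → F) (p q : MvPolynomial σ F) :
    dd a u (p * q) = dd a u p * eval a q + eval a p * dd a u q := by
  simp only [dd, Derivation.leibniz, smul_eq_mul, map_add, map_mul, add_mul,
    Finset.sum_add_distrib, Finset.mul_sum, Finset.sum_mul]
  rw [add_comm]
  congr 1
  · exact Finset.sum_congr rfl fun j _ => by ring
  · exact Finset.sum_congr rfl fun j _ => by ring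

theorem dd_C (a u : σ → F) (c : F) : dd a u (C c) = 0 := by
  simp [dd]

theorem dd_zero (a u : σ → F) : dd a u 0 = 0 := by
  simp [dd]

theorem dd_one (a u : σ → F) : dd a u 1 = 0 := by
  simp [dd]

theorem dd_X (a u : σ → F) (j : σ) : dd a u (X j) = u j := by
  classical
  rw [dd, Finset.sum_eq_single j]
  · simp
  · intro i _ hi
    rw [pderiv_X_of_ne (Ne.symm hi)]
    simp
  · simp

theorem dd_C_mul (a u : σ → F) (c : F) (p : MvPolynomial σ F) :
    dd a u (C c * p) = c * dd a u p := by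
  rw [dd_mul, dd_C, eval_C, zero_mul, zero_add]

theorem dd_sum {ι : Type*} (s : Finset ι) (a u : σ → F) (p : ι → MvPolynomial σ F) :
    dd a u (∑ i ∈ s, p i) = ∑ i ∈ s, dd a u (p i) := by
  simp only [dd, map_sum, Finset.sum_mul]
  exact Finset.sum_comm

theorem dd_dir {ι : Type*} (s : Finset ι) (a : σ → F) (c : ι → F) (u : ι → σ → F)
    (p : MvPolynomial σ F) : dd a (fun j => ∑ i ∈ s, c i * u i j) p = ∑ i ∈ s, c i * dd a (u i) p := by
  simp only [dd, Finset.mul_sum]
  rw [Finset.sum_comm]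
  exact Finset.sum_congr rfl fun i _ => Finset.sum_congr rfl fun j _ => by ring

theorem dd_rename {τ : Type} [Fintype τ] (f : τ → σ) (a u : σ → F) (p : MvPolynomial τ F) :
    dd a u (rename f p) = dd (a ∘ f) (u ∘ f) p := by
  induction p using MvPolynomial.induction_on with
  | C c => rw [rename_C, dd_C, dd_C]
  | add p q hp hq => rw [map_add, dd_add, dd_add, hp, hq]
  | mul_X p j hp =>
    rw [map_mul, rename_X, dd_mul, dd_mul, hp, dd_X, dd_X, eval_rename, eval_X, eval_X]
    rfl

theorem eval_aeval' {σ' ι : Type} (a : σ' → F) (f : ι → MvPolynomial σ' F) (P : MvPolynomial ι F) :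
    eval a (aeval f P) = eval (fun i => eval a (f i)) P := by
  induction P using MvPolynomial.induction_on with
  | C c => simp
  | add p q hp hq => rw [map_add, map_add, map_add, hp, hq]
  | mul_X p i hp => rw [map_mul, map_mul, map_mul, hp, aeval_X, eval_X]

end Deriv

section Matching

variable {F : Type} [Field F] [CharZero F] {Pm I Q : Type} [Fintype Pm] [DecidableEq Pm] [Fintype I]
  [DecidableEq I] [Fintype Q] [DecidableEq Q] {N : ℕ}

/-- The operator with matrix `Ψ(a)`. -/
noncomputable def op (Ψ : I → I → MvPolynomial Pm F) (a : Pm → F) (y : I → F) : I → F :=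
  fun i => ∑ j, eval a (Ψ i j) * y j

theorem op_add (Ψ : I → I → MvPolynomial Pm F) (a : Pm → F) (y y' : I → F) :
    op Ψ a (y + y') = op Ψ a y + op Ψ a y' := by
  funext i
  simp [op, mul_add, Finset.sum_add_distrib]

theorem op_sub (Ψ : I → I → MvPolynomial Pm F) (a : Pm → F) (y y' : I → F) :
    op Ψ a (y - y') = op Ψ a y - op Ψ a y' := by
  funext i
  simp [op, mul_sub, Finset.sum_sub_distrib]

theorem matching_abstract (Ψ : I → I → MvPolynomial Pm F) (Δ : MvPolynomial Pm F) (hΔ : Δ ≠ 0)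
    (T : Submodule F (I → F)) (h1 : ∀ a, eval a Δ ≠ 0 → ∀ q ∈ T, op Ψ a q ∈ T)
    (h2 : ∀ a, eval a Δ ≠ 0 → ∀ q, op Ψ a q = 0 → q = 0) (E : Q → I → I → F)
    (h3 : ∀ a u, eval a Δ ≠ 0 → ∃ (Y : Q → F) (δ : I → F), ∀ (y : I → F) i,
      ∑ j, dd a u (Ψ i j) * y j =
        op Ψ a (fun k => (∑ p, Y p * ∑ j, E p k j * y j) + δ k * y k) i)
    (ν : Fin N → I) (hinj : ∀ q ∈ T, (∀ i, q (ν i) = 0) → q = 0)
    (hsurj : ∀ z : Fin N → F, ∃ q ∈ T, ∀ i, q (ν i) = z i) (J : Set I)
    (hbad : ∀ P : MvPolynomial I F, ¬ ((∀ a, eval a Δ ≠ 0 → ∀ q ∈ T, (∀ x, x ∉ J → q x = 0) →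
      eval (op Ψ a q) P = 0) ∧ ∃ q ∈ T, eval q P ≠ 0)) :
    ∃ φ : {i : Fin N // ν i ∉ J} → Q, Function.Injective φ ∧
      ∀ i, ∃ y ∈ J, E (φ i) (ν i) y ≠ 0 := by
  classical
  -- the subspace `T_J` and a projection onto it
  set VJ : Submodule F (I → F) :=
    { carrier := {q | q ∈ T ∧ ∀ x, x ∉ J → q x = 0}
      add_mem' := fun {a b} ha hb => ⟨T.add_mem ha.1 hb.1, fun x hx => by
        rw [Pi.add_apply, ha.2 x hx, hb.2 x hx, add_zero]⟩
      zero_mem' := ⟨T.zero_mem, fun x _ => rfl⟩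
      smul_mem' := fun c a ha => ⟨T.smul_mem c ha.1, fun x hx => by
        rw [Pi.smul_apply, ha.2 x hx, smul_zero]⟩ } with hVJ
  obtain ⟨pr0, hpr0⟩ := LinearMap.exists_leftInverse_of_injective VJ.subtype (Submodule.ker_subtype _)
  set pr : (I → F) →ₗ[F] (I → F) := VJ.subtype ∘ₗ pr0 with hpr
  have hprm : ∀ y, pr y ∈ VJ := fun y => (pr0 y).2
  have hprq : ∀ q ∈ VJ, pr q = q := by
    intro q hq
    have := LinearMap.congr_fun hpr0 ⟨q, hq⟩
    simp only [LinearMap.comp_apply, Submodule.subtype_apply, LinearMap.id_apply] at this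
    rw [hpr, LinearMap.comp_apply, this, Submodule.subtype_apply]
  have hprs : ∀ y x, pr y x = ∑ z, pr (Pi.single z 1) x * y z := by
    intro y x
    conv_lhs => rw [pi_eq_sum_univ' y, map_sum, Finset.sum_apply]
    refine Finset.sum_congr rfl fun z _ => ?_
    rw [map_smul, Pi.smul_apply, smul_eq_mul, mul_comm]
  -- generic elements
  set Yp : I → MvPolynomial (Pm ⊕ I) F := fun x => ∑ z, C (pr (Pi.single z 1) x) * X (Sum.inr z)
    with hYp
  have hYe : ∀ (a : Pm ⊕ I → F) x, eval a (Yp x) = pr (a ∘ Sum.inr) x := by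
    intro a x
    rw [hprs]
    simp [hYp]
  have hYd : ∀ (a u : Pm ⊕ I → F) x, dd a u (Yp x) = pr (u ∘ Sum.inr) x := by
    intro a u x
    rw [hprs, hYp]
    simp only
    rw [dd_sum]
    refine Finset.sum_congr rfl fun z _ => ?_
    rw [dd_C_mul, dd_X]
    rfl
  set Φ : I → MvPolynomial (Pm ⊕ I) F := fun i => ∑ j, rename Sum.inl (Ψ i j) * Yp j with hΦ
  have hΦe : ∀ a i, eval a (Φ i) = op Ψ (a ∘ Sum.inl) (pr (a ∘ Sum.inr)) i := by
    intro a i
    rw [hΦ, op]
    simp only [map_sum, map_mul, eval_rename, hYe]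
  have hΦd : ∀ a u i, dd a u (Φ i) = ∑ j, dd (a ∘ Sum.inl) (u ∘ Sum.inl) (Ψ i j) *
      pr (a ∘ Sum.inr) j + op Ψ (a ∘ Sum.inl) (pr (u ∘ Sum.inr)) i := by
    intro a u i
    rw [hΦ, op]
    simp only
    rw [dd_sum, ← Finset.sum_add_distrib]
    refine Finset.sum_congr rfl fun j _ => ?_
    rw [dd_mul, dd_rename, hYe, hYd, eval_rename]
  have hΔ' : rename (Sum.inl : Pm → Pm ⊕ I) Δ ≠ 0 := by
    intro h0
    exact hΔ ((rename_injective _ Sum.inl_injective) (by rw [h0, map_zero]))
  -- algebraic independence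
  have hind : AlgebraicIndependent F fun i => Φ (ν i) := by
    rw [algebraicIndependent_iff]
    intro P hP
    by_contra hP0
    obtain ⟨z, hz⟩ : ∃ z, eval z P ≠ 0 := by
      by_contra hcon
      push Not at hcon
      exact hP0 (MvPolynomial.funext fun z => by rw [hcon, map_zero])
    refine hbad (rename ν P) ⟨?_, ?_⟩
    · intro a _ q hq hqJ
      rw [eval_rename]
      have h4 := congrArg (eval (Sum.elim a q)) hP
      rw [map_zero, eval_aeval'] at h4
      have h5 : (fun i => (eval (Sum.elim a q)) (Φ (ν i))) = (op Ψ a q) ∘ ν := by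
        funext i
        rw [hΦe, Sum.elim_comp_inl, Sum.elim_comp_inr, hprq q ⟨hq, hqJ⟩]
        rfl
      rw [← h5]
      exact h4
    · obtain ⟨q, hq, hqz⟩ := hsurj z
      refine ⟨q, hq, ?_⟩
      rw [eval_rename]
      have : (q ∘ ν) = z := funext hqz
      rwa [this]
  obtain ⟨δ, R, hδ, hR⟩ := exists_jacobian_inverse _ hind
  -- a good point
  obtain ⟨a, ha⟩ : ∃ a, eval a (δ * rename (Sum.inl : Pm → Pm ⊕ I) Δ) ≠ 0 := by
    by_contra hcon
    push Not at hcon
    exact mul_ne_zero hδ hΔ' (MvPolynomial.funext fun z => by rw [hcon, map_zero])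
  rw [map_mul, eval_rename] at ha
  have haδ : eval a δ ≠ 0 := left_ne_zero_of_mul ha
  have haΔ : eval (a ∘ Sum.inl) Δ ≠ 0 := right_ne_zero_of_mul ha
  set a1 : Pm → F := a ∘ Sum.inl with ha1
  set q := pr (a ∘ Sum.inr) with hq
  have hqJ : q ∈ VJ := hprm _
  -- the differential
  set dΦ : (Pm ⊕ I → F) → I → F := fun u x => dd a u (Φ x) with hdΦ
  have hdV : ∀ u, dΦ u ∈ T := by
    intro u
    by_contra hnot
    obtain ⟨ψ, hψ1, hψ2⟩ := Submodule.exists_le_ker_of_notMem hnot
    have hψs : ∀ y : I → F, ψ y = ∑ x, ψ (Pi.single x 1) * y x := by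
      intro y
      conv_lhs => rw [pi_eq_sum_univ' y, map_sum]
      refine Finset.sum_congr rfl fun z _ => ?_
      rw [map_smul, smul_eq_mul, mul_comm]
    have h4 : (∑ x, C (ψ (Pi.single x 1)) * Φ x) * rename (Sum.inl : Pm → Pm ⊕ I) Δ = 0 := by
      apply MvPolynomial.funext
      intro b
      rw [map_zero, map_mul, eval_rename]
      by_cases hb : eval (b ∘ Sum.inl) Δ = 0
      · rw [hb, mul_zero]
      · rw [map_sum]
        simp only [map_mul, eval_C, hΦe]
        rw [← hψs]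
        have h5 : ψ (op Ψ (b ∘ Sum.inl) (pr (b ∘ Sum.inr))) = 0 :=
          hψ2 (h1 _ hb _ (hprm _).1)
        have h6 : (fun x => op Ψ (b ∘ Sum.inl) (pr (b ∘ Sum.inr)) x) =
          op Ψ (b ∘ Sum.inl) (pr (b ∘ Sum.inr)) := rfl
        rw [h5, zero_mul]
    have h5 := (mul_eq_zero.1 h4).resolve_right hΔ'
    have h6 : dd a u (∑ x, C (ψ (Pi.single x 1)) * Φ x) = 0 := by
      rw [h5, dd_zero]
    rw [dd_sum] at h6
    simp only [dd_C_mul] at h6
    apply hψ1
    rw [hψs]
    exact h6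
  -- surjectivity
  have hsur : ∀ z ∈ T, ∃ u, dΦ u = z := by
    intro z hz
    set ui : Fin N → (Pm ⊕ I) → F := fun i' j => eval a (R j i') / eval a δ with hui
    have h4 : ∀ i i', dd a (ui i') (Φ (ν i)) = if i = i' then 1 else 0 := by
      intro i i'
      have h5 := congrArg (eval a) (hR i i')
      rw [map_sum] at h5
      simp only [map_mul] at h5
      have h6 : dd a (ui i') (Φ (ν i)) =
          (∑ j, eval a (pderiv j (Φ (ν i))) * eval a (R j i')) / eval a δ := by
        rw [dd, Finset.sum_div]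
        exact Finset.sum_congr rfl fun j _ => by rw [hui]; ring
      rw [h6, h5]
      by_cases h : i = i'
      · simp [h, haδ]
      · simp [h]
    refine ⟨fun j => ∑ i, z (ν i) * ui i j, ?_⟩
    rw [← sub_eq_zero]
    refine hinj _ (T.sub_mem (hdV _) hz) fun i => ?_
    rw [Pi.sub_apply, sub_eq_zero, hdΦ]
    simp only
    rw [dd_dir]
    simp [h4]
  have hkey : ∀ z ∈ T, ∃ Y : Q → F, ∀ x, x ∉ J → ∑ p, Y p * ∑ j, E p x j * q j = z x := by
    intro z hz
    obtain ⟨u, hu⟩ := hsur (op Ψ a1 z) (h1 _ haΔ z hz)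
    obtain ⟨Y, δ', hY⟩ := h3 a1 (u ∘ Sum.inl) haΔ
    refine ⟨Y, fun x hx => ?_⟩
    have h4 : op Ψ a1 ((fun k => (∑ p, Y p * ∑ j, E p k j * q j) + δ' k * q k) +
        pr (u ∘ Sum.inr) - z) = 0 := by
      rw [op_sub, op_add, sub_eq_zero, ← hu, hdΦ]
      funext i
      simp only
      rw [hΦd, Pi.add_apply, hY q i]
    have h5 := congrFun (h2 _ haΔ _ h4) x
    simp only [Pi.sub_apply, Pi.add_apply, Pi.zero_apply] at h5
    rw [(hprm (u ∘ Sum.inr)).2 x hx, hqJ.2 x hx, mul_zero, add_zero, add_zero, sub_eq_zero] at h5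
    exact h5
  -- the theorem of Hall
  set S := {i : Fin N // ν i ∉ J} with hS
  set cf : S → Q → F := fun i p => ∑ j, E p (ν i) j * q j with hcf
  set t : S → Finset Q := fun i => Finset.univ.filter fun p => cf i p ≠ 0 with ht
  have hhall : ∀ A : Finset S, A.card ≤ (A.biUnion t).card := by
    intro A
    by_contra hlt
    push Not at hlt
    set B := A.biUnion t with hB
    set L : (B → F) →ₗ[F] (A → F) :=
      { toFun := fun w i => ∑ p : B, w p * cf i.1 p.1
        map_add' := fun w w' => by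
          funext i
          simp [add_mul, Finset.sum_add_distrib]
        map_smul' := fun c w => by
          funext i
          simp [Finset.mul_sum, mul_assoc] } with hL
    have hLs : Function.Surjective L := by
      intro y
      obtain ⟨z, hz, hzy⟩ := hsurj fun i => if h : ∃ hi : ν i ∉ J, (⟨i, hi⟩ : S) ∈ A then
        y ⟨⟨i, h.1⟩, h.2⟩ else 0
      obtain ⟨Y, hYz⟩ := hkey z hz
      refine ⟨fun p => Y p.1, ?_⟩
      funext i
      have h4 := hYz (ν i.1) i.1.2
      rw [hzy, dif_pos ⟨i.1.2, i.2⟩] at h4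
      rw [hL]
      simp only [LinearMap.coe_mk, AddHom.coe_mk]
      rw [← h4]
      rw [← Finset.sum_subset (Finset.subset_univ B)]
      · rw [← Finset.sum_coe_sort B (fun p => Y p * cf i.1 p)]
      · intro p _ hp
        have h5 : cf i.1 p = 0 := by
          by_contra hne
          exact hp (Finset.mem_biUnion.2 ⟨i.1, i.2, Finset.mem_filter.2 ⟨Finset.mem_univ _, hne⟩⟩)
        have h6 : ∑ j, E p (ν i.1) j * q j = 0 := h5
        rw [h6, mul_zero]
    have h4 := LinearMap.finrank_le_finrank_of_surjective hLs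
    rw [Module.finrank_fintype_fun_eq_card, Module.finrank_fintype_fun_eq_card, Fintype.card_coe,
      Fintype.card_coe] at h4
    omega
  obtain ⟨φ, hφi, hφt⟩ := (Finset.all_card_le_biUnion_card_iff_exists_injective t).1 hhall
  refine ⟨φ, hφi, fun i => ?_⟩
  have h4 : cf i (φ i) ≠ 0 := (Finset.mem_filter.1 (hφt i)).2
  obtain ⟨j, -, hj⟩ := Finset.exists_ne_zero_of_sum_ne_zero h4
  refine ⟨j, ?_, left_ne_zero_of_mul hj⟩
  by_contra hnJ
  exact (right_ne_zero_of_mul hj) (hqJ.2 _ hnJ)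

end Matching

end Pool.Agent.H71.TW
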