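import Mathlib
import Pool.Agent.H71.TW.Match
import Pool.Agent.H71.MB.Act

set_option autoImplicit false
set_option linter.all false

/-! The derivative of the action of matrices on tensors. -/

namespace Pool.Agent.H71.TW

open MvPolynomial Pool.Agent.H71.MB

/-! ### Dual numbers -/

section Dual

variable {F : Type} [Field F] {σ : Type} [Fintype σ]

/-- Evaluation at `a + ε u`. -/
noncomputable def evε (a u : σ → F) : MvPolynomial σ F →ₐ[F] TrivSqZeroExt F F :=
  aeval fun j => TrivSqZeroExt.inl (a j) + TrivSqZeroExt.inr (u j)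

theorem evε_eq (a u : σ → F) (p : MvPolynomial σ F) :
    evε a u p = TrivSqZeroExt.inl (eval a p) + TrivSqZeroExt.inr (dd a u p) := by
  classical
  induction p using MvPolynomial.induction_on with
  | C c =>
    rw [evε, aeval_C, eval_C]
    simp [dd]
    rfl
  | add p q hp hq =>
    rw [map_add, hp, hq, map_add, dd_add, TrivSqZeroExt.inl_add, TrivSqZeroExt.inr_add]
    abel
  | mul_X p j hp =>
    rw [map_mul, hp, evε, aeval_X, dd_mul, dd_X, map_mul, eval_X]
    ext
    · simp
    · simp
      ring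

end Dual

/-! ### The infinitesimal action -/

section Inf

variable {F : Type} [Field F] {κ μ : Type} [Fintype κ] [DecidableEq κ] {d : ℕ}

/-- The infinitesimal action of a matrix. -/
def inf (Y : Matrix κ κ F) (q : Ten κ d μ F) : Ten κ d μ F :=
  fun x => ∑ s, ∑ b, Y (x.1 s) b * q (Function.update x.1 s b, x.2)

theorem snd_prod {ι : Type*} [DecidableEq ι] (t : Finset ι) (a b : ι → F) :
    (∏ s ∈ t, (TrivSqZeroExt.inl (a s) + TrivSqZeroExt.inr (b s) : TrivSqZeroExt F F)) =
      TrivSqZeroExt.inl (∏ s ∈ t, a s) + TrivSqZeroExt.inr (∑ s ∈ t, b s * ∏ s' ∈ t.erase s, a s') := by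
  induction t using Finset.induction_on with
  | empty =>
    simp
  | insert i t hi ih =>
    rw [Finset.prod_insert hi, ih, Finset.prod_insert hi, Finset.sum_insert hi]
    have h1 : ∑ s ∈ t, b s * ∏ s' ∈ (insert i t).erase s, a s' =
        a i * ∑ s ∈ t, b s * ∏ s' ∈ t.erase s, a s' := by
      rw [Finset.mul_sum]
      refine Finset.sum_congr rfl fun s hs => ?_
      have hne : i ≠ s := fun h => hi (h ▸ hs)
      rw [Finset.erase_insert_of_ne hne, Finset.prod_insert
        (fun h => hi (Finset.mem_of_mem_erase h))]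
      ring
    rw [h1, Finset.erase_insert hi]
    ext
    · simp
    · simp
      ring

/-- The matrix `1 + ε Y`. -/
def epsMat (Y : Matrix κ κ F) : Matrix κ κ (TrivSqZeroExt F F) :=
  fun i j => TrivSqZeroExt.inl ((1 : Matrix κ κ F) i j) + TrivSqZeroExt.inr (Y i j)

theorem act_eps (Y : Matrix κ κ F) (q v : Ten κ d μ F) (x : (Fin d → κ) × μ) :
    act (epsMat Y) (fun y => TrivSqZeroExt.inl (q y) + TrivSqZeroExt.inr (v y)) x =
      TrivSqZeroExt.inl (q x) + TrivSqZeroExt.inr (v x + inf Y q x) := by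
  have h1 : ∀ i j : κ, epsMat Y i j =
      TrivSqZeroExt.inl ((1 : Matrix κ κ F) i j) + TrivSqZeroExt.inr (Y i j) := fun i j => rfl
  rw [act_apply]
  simp only [h1, snd_prod]
  have h2 : ∀ y : Fin d → κ, (TrivSqZeroExt.inl (∏ s, (1 : Matrix κ κ F) (x.1 s) (y s)) +
      TrivSqZeroExt.inr (∑ s, Y (x.1 s) (y s) * ∏ s' ∈ Finset.univ.erase s,
        (1 : Matrix κ κ F) (x.1 s') (y s')) : TrivSqZeroExt F F) *
      (TrivSqZeroExt.inl (q (y, x.2)) + TrivSqZeroExt.inr (v (y, x.2))) =
      TrivSqZeroExt.inl ((∏ s, (1 : Matrix κ κ F) (x.1 s) (y s)) * q (y, x.2)) +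
      TrivSqZeroExt.inr ((∏ s, (1 : Matrix κ κ F) (x.1 s) (y s)) * v (y, x.2) +
        ∑ s, (Y (x.1 s) (y s) * ∏ s' ∈ Finset.univ.erase s,
        (1 : Matrix κ κ F) (x.1 s') (y s')) * q (y, x.2)) := by
    intro y
    ext
    · simp
    · simp only [TrivSqZeroExt.snd_mul, TrivSqZeroExt.snd_add, TrivSqZeroExt.fst_add,
        TrivSqZeroExt.fst_inl, TrivSqZeroExt.fst_inr, TrivSqZeroExt.snd_inl,
        TrivSqZeroExt.snd_inr, smul_eq_mul, MulOpposite.smul_eq_mul_unop, MulOpposite.unop_op,
        add_zero, zero_add, ← Finset.sum_mul]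
  simp only [h2, Finset.sum_add_distrib]
  rw [← TrivSqZeroExt.inl_sum, ← TrivSqZeroExt.inr_sum]
  have h3 : ∀ T : Ten κ d μ F, ∑ y : Fin d → κ, (∏ s, (1 : Matrix κ κ F) (x.1 s) (y s)) * T (y, x.2) =
      T x := fun T => by
    rw [← act_apply, act_one]
  rw [h3 q, Finset.sum_add_distrib, h3 v]
  congr 3
  rw [Finset.sum_comm, inf]
  refine Finset.sum_congr rfl fun s _ => ?_
  -- the sum over `y` is over the `y` which differ from `x` at most at `s`
  rw [← Finset.sum_subset (Finset.subset_univ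
    (Finset.univ.image fun b => Function.update x.1 s b))]
  · rw [Finset.sum_image]
    · refine Finset.sum_congr rfl fun b _ => ?_
      rw [Function.update_self]
      have : ∏ s' ∈ Finset.univ.erase s, (1 : Matrix κ κ F) (x.1 s') (Function.update x.1 s b s') =
          1 := by
        refine Finset.prod_eq_one fun s' hs' => ?_
        rw [Function.update_of_ne (Finset.ne_of_mem_erase hs'), Matrix.one_apply_eq]
      rw [this, mul_one]
    · intro b _ b' _ h
      exact Function.update_injective x.1 s h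
  · intro y _ hy
    have hex : ∃ s', s' ≠ s ∧ x.1 s' ≠ y s' := by
      by_contra hcon
      push Not at hcon
      apply hy
      rw [Finset.mem_image]
      refine ⟨y s, Finset.mem_univ _, ?_⟩
      funext s'
      by_cases h : s' = s
      · subst h
        rw [Function.update_self]
      · rw [Function.update_of_ne h, hcon s' h]
    obtain ⟨s', hs', hne⟩ := hex
    have h0 : ∏ s'' ∈ Finset.univ.erase s, (1 : Matrix κ κ F) (x.1 s'') (y s'') = 0 :=
      Finset.prod_eq_zero (Finset.mem_erase.2 ⟨hs', Finset.mem_univ _⟩) (Matrix.one_apply_ne hne)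
    rw [h0, mul_zero, zero_mul]

/-- The derivative of `act G T`. -/
theorem act_dd {σ : Type} [Fintype σ] (a u : σ → F) (G : Matrix κ κ (MvPolynomial σ F))
    (T : Ten κ d μ (MvPolynomial σ F)) (Y : Matrix κ κ F)
    (hY : ∀ i j, dd a u (G i j) = ∑ k, eval a (G i k) * Y k j) (x : (Fin d → κ) × μ) :
    dd a u (act G T x) = act (G.map (eval a)) (fun y => dd a u (T y) +
      inf Y (fun y => eval a (T y)) y) x := by
  set g : Matrix κ κ F := G.map (eval a) with hg
  have h1 : evε a u (act G T x) = act (G.map (evε a u)) (fun y => evε a u (T y)) x :=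
    act_map (evε a u).toRingHom G T x
  have h2 : G.map (evε a u) = (g.map (TrivSqZeroExt.inlHom F F)) * epsMat Y := by
    ext i j : 1
    rw [Matrix.map_apply, Matrix.mul_apply]
    simp only [Matrix.map_apply, epsMat, TrivSqZeroExt.inlHom_apply]
    rw [evε_eq, hY]
    have h5 : eval a (G i j) = ∑ k, g i k * (1 : Matrix κ κ F) k j := by
      rw [← Matrix.mul_apply, Matrix.mul_one]
      rfl
    rw [h5]
    ext
    · simp [TrivSqZeroExt.fst_sum]
    · simp [TrivSqZeroExt.snd_sum, hg]
  have h6 : (fun y => evε a u (T y)) = fun y => TrivSqZeroExt.inl (eval a (T y)) +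
      TrivSqZeroExt.inr (dd a u (T y)) := funext fun y => evε_eq a u (T y)
  rw [h2, h6, ← act_act] at h1
  have h9 : act (epsMat Y) (fun y => TrivSqZeroExt.inl (eval a (T y)) +
      TrivSqZeroExt.inr (dd a u (T y))) = fun y => TrivSqZeroExt.inl (eval a (T y)) +
      TrivSqZeroExt.inr (dd a u (T y) + inf Y (fun y => eval a (T y)) y) :=
    funext fun y => act_eps Y (fun y => eval a (T y)) (fun y => dd a u (T y)) y
  rw [h9] at h1
  have h10 := congrArg TrivSqZeroExt.snd h1
  rw [evε_eq] at h10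
  simp only [TrivSqZeroExt.snd_add, TrivSqZeroExt.snd_inl, TrivSqZeroExt.snd_inr, zero_add] at h10
  rw [h10, act_apply, act_apply, TrivSqZeroExt.snd_sum]
  refine Finset.sum_congr rfl fun y _ => ?_
  have h11 : (∏ s, g.map (TrivSqZeroExt.inlHom F F) (x.1 s) (y s)) =
      TrivSqZeroExt.inl (∏ s, g (x.1 s) (y s)) := by
    simp only [Matrix.map_apply]
    rw [← map_prod]
    rfl
  rw [h11]
  simp

theorem inf_sum {ι : Type*} (s : Finset ι) (Y : Matrix κ κ F) (c : ι → F) (q : ι → Ten κ d μ F)
    (x : (Fin d → κ) × μ) :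
    inf Y (fun y => ∑ i ∈ s, c i * q i y) x = ∑ i ∈ s, c i * inf Y (q i) x := by
  simp only [inf, Finset.mul_sum]
  rw [Finset.sum_comm]
  have h1 : ∀ b : Fin d, ∑ b', ∑ i ∈ s, Y (x.1 b) b' * (c i * q i (Function.update x.1 b b', x.2)) =
      ∑ i ∈ s, ∑ b', c i * (Y (x.1 b) b' * q i (Function.update x.1 b b', x.2)) := by
    intro b
    rw [Finset.sum_comm]
    exact Finset.sum_congr rfl fun i _ => Finset.sum_congr rfl fun b' _ => by ring
  rw [Finset.sum_comm]
  simp only [h1]
  exact Finset.sum_comm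

end Inf

end Pool.Agent.H71.TW
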