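import Mathlib
import Pool.Agent.H71.TW.Inf

set_option autoImplicit false
set_option linter.all false

/-! The torsor coordinates of a tower, with the action of the matrices. -/

namespace Pool.Agent.H71.TW

open MvPolynomial Pool.Agent.H71.MB

section Defs

variable {r : ℕ}

/-- Letters. -/
abbrev Lt (k : Fin r → ℕ) := (c : Fin r) × Fin (k c)

/-- Words of level `c`. -/
abbrev Wd (k d m : Fin r → ℕ) (c : Fin r) := (Fin (d c) → Lt k) × Fin (m c)

/-- The index set of the coordinates. -/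
abbrev Ix (k d m : Fin r → ℕ) := (c : Fin r) × (Fin (k c) × Wd k d m c)

/-- Indices of the entries of block matrices. -/
abbrev Pq (k : Fin r → ℕ) := (c : Fin r) × (Fin (k c) × Fin (k c))

/-- Families of square matrices. -/
abbrev Blk (k : Fin r → ℕ) (R : Type) := ∀ c, Matrix (Fin (k c)) (Fin (k c)) R

variable {k d m : Fin r → ℕ} {R S : Type} [CommRing R] [CommRing S]

/-- The block matrix. -/
abbrev bd {n k : Fin r → Type} (g : ∀ c, Matrix (n c) (k c) R) : Matrix (Σ c, n c) (Σ c, k c) R :=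
  Matrix.blockDiagonal' g

theorem bd_mul {n k k' : Fin r → Type} [∀ c, Fintype (k c)] (g : ∀ c, Matrix (n c) (k c) R)
    (h : ∀ c, Matrix (k c) (k' c) R) : bd g * bd h = bd (fun c => g c * h c) := by
  classical
  exact (Matrix.blockDiagonal'_mul g h).symm

/-- The change of coordinates. -/
def chg (g h : Blk k R) (q : Ix k d m → R) : Ix k d m → R :=
  fun i => act (bd h) (fun w : Wd k d m i.1 => ∑ j', g i.1 j' i.2.1 * q ⟨i.1, (j', w)⟩) i.2.2

theorem act_sum {κ ι μ : Type} [Fintype κ] {e : ℕ} {α : Type*} (s : Finset α) (A : Matrix ι κ R)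
    (c : α → R) (T : α → Ten κ e μ R) (x : (Fin e → ι) × μ) :
    act A (fun y => ∑ i ∈ s, c i * T i y) x = ∑ i ∈ s, c i * act A (T i) x := by
  simp only [act_apply, Finset.mul_sum]
  rw [Finset.sum_comm]
  exact Finset.sum_congr rfl fun i _ => Finset.sum_congr rfl fun y _ => by ring

theorem chg_chg (g h g' h' : Blk k R) (q : Ix k d m → R) :
    chg g' h' (chg g h q) = chg (fun c => g c * g' c) (fun c => h' c * h c) q := by
  classical
  funext i
  obtain ⟨c, j, w⟩ := i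
  simp only [chg]
  have h1 : (fun w' : Wd k d m c => ∑ j', g' c j' j *
      act (bd h) (fun w : Wd k d m c => ∑ j'', g c j'' j' * q ⟨c, (j'', w)⟩) w') =
      act (bd h) (fun w : Wd k d m c => ∑ j', g' c j' j * ∑ j'', g c j'' j' * q ⟨c, (j'', w)⟩) := by
    funext w'
    rw [act_sum]
  rw [h1, act_act, bd_mul]
  congr 1
  funext w'
  simp only [Finset.mul_sum, Matrix.mul_apply, Finset.sum_mul]
  rw [Finset.sum_comm]
  exact Finset.sum_congr rfl fun i _ => Finset.sum_congr rfl fun y _ => by ring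

theorem chg_one (q : Ix k d m → R) : chg (fun c => 1) (fun c => 1) q = q := by
  classical
  funext i
  obtain ⟨c, j, w⟩ := i
  simp only [chg]
  have h : bd (fun c => (1 : Matrix (Fin (k c)) (Fin (k c)) R)) = 1 := Matrix.blockDiagonal'_one
  rw [h, act_one]
  simp [Matrix.one_apply]

theorem chg_map (φ : R →+* S) (g h : Blk k R) (q : Ix k d m → R) (i : Ix k d m) :
    φ (chg g h q i) = chg (fun c => (g c).map φ) (fun c => (h c).map φ) (fun i => φ (q i)) i := by
  classical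
  obtain ⟨c, j, w⟩ := i
  simp only [chg]
  rw [act_map, bd, Matrix.blockDiagonal'_map _ _ (map_zero φ)]
  congr 1
  funext w'
  rw [map_sum]
  exact Finset.sum_congr rfl fun i _ => by rw [map_mul, Matrix.map_apply]

theorem chg_add (g h : Blk k R) (q q' : Ix k d m → R) :
    chg g h (q + q') = chg g h q + chg g h q' := by
  funext i
  simp only [chg, Pi.add_apply]
  rw [← Pi.add_apply, ← act_add]
  congr 1
  funext w
  simp [mul_add, Finset.sum_add_distrib]

theorem chg_smul (g h : Blk k R) (t : R) (q : Ix k d m → R) :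
    chg g h (t • q) = t • chg g h q := by
  funext i
  simp only [chg, Pi.smul_apply]
  rw [← Pi.smul_apply, ← act_smul]
  congr 1
  funext w
  simp only [Pi.smul_apply, smul_eq_mul, Finset.mul_sum]
  exact Finset.sum_congr rfl fun j _ => by ring

end Defs

section Field

variable {r : ℕ} {k d m : Fin r → ℕ} {F : Type} [Field F]

/-- The space of the coordinates: `q (c, j, .)` is in `V c`. -/
def TV (V : ∀ c, Submodule F (Wd k d m c → F)) : Submodule F (Ix k d m → F) where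
  carrier := {q | ∀ c j, (fun w => q ⟨c, (j, w)⟩) ∈ V c}
  add_mem' := fun {a b} ha hb c j => (V c).add_mem (ha c j) (hb c j)
  zero_mem' := fun c j => (V c).zero_mem
  smul_mem' := fun t a ha c j => (V c).smul_mem t (ha c j)

theorem mem_TV {V : ∀ c, Submodule F (Wd k d m c → F)} {q : Ix k d m → F} :
    q ∈ TV V ↔ ∀ c j, (fun w => q ⟨c, (j, w)⟩) ∈ V c := Iff.rfl

/-- `V` is stable. -/
def Stab (V : ∀ c, Submodule F (Wd k d m c → F)) : Prop :=
  ∀ g : Blk k F, (∀ c, (g c).det ≠ 0) → ∀ c, ∀ q ∈ V c, act (bd g) q ∈ V c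

theorem chg_mem {V : ∀ c, Submodule F (Wd k d m c → F)} (hV : Stab V) (g h : Blk k F)
    (hh : ∀ c, (h c).det ≠ 0) (q : Ix k d m → F) (hq : q ∈ TV V) : chg g h q ∈ TV V := by
  intro c j
  change act (bd h) (fun w : Wd k d m c => ∑ j', g c j' j * q ⟨c, (j', w)⟩) ∈ V c
  apply hV h hh c
  have : (fun w : Wd k d m c => ∑ j', g c j' j * q ⟨c, (j', w)⟩) =
      ∑ j', g c j' j • (fun w : Wd k d m c => q ⟨c, (j', w)⟩) := by
    funext w
    simp
  rw [this]
  exact (V c).sum_mem fun j' _ => (V c).smul_mem _ (hq c j')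

/-- The weight of a coordinate. -/
def bw (l : Lt k → ℤ) (i : Ix k d m) : ℤ := l ⟨i.1, i.2.1⟩ - ∑ s, l (i.2.2.1 s)

/-- The matrices with given entries. -/
def hOf {R : Type} (a : Pq k → R) : Blk k R := fun c => Matrix.of fun i j => a ⟨c, (i, j)⟩

/-- A polynomial vanishes on the translates of the coordinate subspace, but not on the whole space. -/
def Bad (V : ∀ c, Submodule F (Wd k d m c → F)) (J : Set (Ix k d m))
    (P : MvPolynomial (Ix k d m) F) : Prop :=
  (∀ g h : Blk k F, (∀ c, g c * h c = 1) → ∀ q ∈ TV V, (∀ x, x ∉ J → q x = 0) →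
    eval (chg g h q) P = 0) ∧ ∃ q ∈ TV V, eval q P ≠ 0

/-- The generic matrices. -/
noncomputable def Hg (k : Fin r → ℕ) (F : Type) [Field F] : Blk k (MvPolynomial (Pq k) F) := hOf X

/-- The matrix of the generic change of coordinates. -/
noncomputable def Psi (k d m : Fin r → ℕ) (F : Type) [Field F] :
    Ix k d m → Ix k d m → MvPolynomial (Pq k) F := by
  classical
  exact Matrix.blockDiagonal' fun c => Matrix.of fun p p' : Fin (k c) × Wd k d m c =>
    if p.2.2 = p'.2.2 then (Hg k F c).adjugate p'.1 p.1 * ∏ s, bd (Hg k F) (p.2.1 s) (p'.2.1 s) else 0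

theorem blockDiag_sum {R : Type} [CommRing R] {n n' : Fin r → Type} [∀ c, Fintype (n' c)]
    (M : ∀ c, Matrix (n c) (n' c) R) (c : Fin r) (p : n c) (y : (Σ c, n' c) → R) :
    ∑ i', Matrix.blockDiagonal' M ⟨c, p⟩ i' * y i' = ∑ p', M c p p' * y ⟨c, p'⟩ := by
  classical
  rw [Fintype.sum_sigma, Finset.sum_eq_single c]
  · refine Finset.sum_congr rfl fun j _ => ?_
    rw [Matrix.blockDiagonal'_apply_eq]
  · intro c' _ hc'
    refine Finset.sum_eq_zero fun j _ => ?_
    rw [Matrix.blockDiagonal'_apply_ne _ _ _ (Ne.symm hc'), zero_mul]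
  · simp

theorem Psi_sum (y : Ix k d m → MvPolynomial (Pq k) F) (i : Ix k d m) :
    ∑ i', Psi k d m F i i' * y i' = chg (fun c => (Hg k F c).adjugate) (Hg k F) y i := by
  classical
  obtain ⟨c, j, w⟩ := i
  rw [Psi, blockDiag_sum, chg, act_apply, Fintype.sum_prod_type]
  simp only [Matrix.of_apply]
  have h1 : ∀ j' : Fin (k c), ∑ w' : Wd k d m c, (if w.2 = w'.2 then
      (Hg k F c).adjugate j' j * ∏ s, bd (Hg k F) (w.1 s) (w'.1 s) else 0) * y ⟨c, (j', w')⟩ =
      ∑ z : Fin (d c) → Lt k, (Hg k F c).adjugate j' j * (∏ s, bd (Hg k F) (w.1 s) (z s)) *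
        y ⟨c, (j', (z, w.2))⟩ := by
    intro j'
    rw [Fintype.sum_prod_type]
    refine Finset.sum_congr rfl fun z _ => ?_
    rw [Finset.sum_eq_single w.2]
    · simp
    · intro b _ hb
      simp [Ne.symm hb]
    · simp
  simp only [h1]
  rw [Finset.sum_comm]
  refine Finset.sum_congr rfl fun z _ => ?_
  rw [Finset.mul_sum]
  exact Finset.sum_congr rfl fun j' _ => by ring

theorem Hg_map (a : Pq k → F) (c : Fin r) : (Hg k F c).map (eval a) = hOf a c := by
  ext i j
  simp [Hg, hOf]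

theorem adj_map (a : Pq k → F) (c : Fin r) :
    (Hg k F c).adjugate.map (eval a) = (hOf a c).adjugate := by
  have := RingHom.map_adjugate (eval a) (Hg k F c)
  rw [RingHom.mapMatrix_apply, RingHom.mapMatrix_apply, Hg_map] at this
  exact this

theorem op_Psi (a : Pq k → F) (q : Ix k d m → F) :
    op (Psi k d m F) a q = chg (fun c => (hOf a c).adjugate) (hOf a) q := by
  classical
  funext i
  have h1 := congrArg (eval a) (Psi_sum (F := F) (fun i => C (q i)) i)
  rw [map_sum, chg_map] at h1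
  simp only [map_mul, eval_C, adj_map] at h1
  have h2 : (fun c => (Hg k F c).map (eval a)) = hOf a := funext fun c => Hg_map a c
  rw [h2] at h1
  exact h1

/-- The infinitesimal action. -/
def lam (Y : Pq k → F) (y : Ix k d m → F) : Ix k d m → F :=
  fun i => inf (bd (hOf Y)) (fun w : Wd k d m i.1 => y ⟨i.1, (i.2.1, w)⟩) i.2.2 -
    ∑ l, Y ⟨i.1, (l, i.2.1)⟩ * y ⟨i.1, (l, i.2.2)⟩

theorem dd_Hg (a u : Pq k → F) (Y : Pq k → F) (hY : ∀ c, hOf u c = hOf a c * hOf Y c)
    (x z : Lt k) : dd a u (bd (Hg k F) x z) = ∑ w, eval a (bd (Hg k F) x w) * bd (hOf Y) w z := by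
  classical
  have h1 : ∀ x w, eval a (bd (Hg k F) x w) = bd (hOf a) x w := by
    intro x w
    have h2 := Matrix.blockDiagonal'_map (Hg k F) (eval a) (map_zero (eval a))
    have h3 := congrFun (congrFun h2 x) w
    rw [Matrix.map_apply] at h3
    rw [bd, h3]
    have h4 : (fun c => (Hg k F c).map (eval a)) = hOf a := funext fun c => Hg_map a c
    rw [h4]
  simp only [h1]
  rw [← Matrix.mul_apply, bd_mul]
  obtain ⟨c, i⟩ := x
  obtain ⟨c', j⟩ := z
  by_cases hc : c = c'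
  · subst hc
    rw [bd, bd, Matrix.blockDiagonal'_apply_eq, Matrix.blockDiagonal'_apply_eq, ← hY]
    simp only [Hg, hOf, Matrix.of_apply]
    rw [dd_X]
  · rw [bd, bd, Matrix.blockDiagonal'_apply_ne _ _ _ hc, Matrix.blockDiagonal'_apply_ne _ _ _ hc, dd_zero]

theorem dd_adj (a u : Pq k → F) (Y : Pq k → F) (hY : ∀ c, hOf u c = hOf a c * hOf Y c) (c : Fin r)
    (hdet : (hOf a c).det ≠ 0) : ∃ τ : F, ∀ i j, dd a u ((Hg k F c).adjugate i j) =
      τ * (hOf a c).adjugate i j - ∑ l, Y ⟨c, (i, l)⟩ * (hOf a c).adjugate l j := by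
  classical
  set D : Matrix (Fin (k c)) (Fin (k c)) F := Matrix.of fun i j => dd a u ((Hg k F c).adjugate i j)
    with hD
  set t : F := dd a u (Hg k F c).det with ht
  have hentry : ∀ i j, dd a u (Hg k F c i j) = hOf u c i j := by
    intro i j
    simp only [Hg, hOf, Matrix.of_apply]
    rw [dd_X]
  have heval : ∀ i j, eval a (Hg k F c i j) = hOf a c i j := by
    intro i j
    simp [Hg, hOf]
  have hadj : ∀ i j, eval a ((Hg k F c).adjugate i j) = (hOf a c).adjugate i j := by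
    intro i j
    rw [← adj_map, Matrix.map_apply]
  have h1 : hOf u c * (hOf a c).adjugate + hOf a c * D = t • 1 := by
    ext i j
    have h2 := congrArg (dd a u) (congrFun (congrFun (Matrix.mul_adjugate (Hg k F c)) i) j)
    rw [Matrix.mul_apply, dd_sum] at h2
    simp only [dd_mul, hentry, heval, hadj, Finset.sum_add_distrib] at h2
    rw [Matrix.add_apply, Matrix.mul_apply, Matrix.mul_apply]
    have h3 : dd a u (((Hg k F c).det • (1 : Matrix (Fin (k c)) (Fin (k c)) _)) i j) =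
        (t • (1 : Matrix (Fin (k c)) (Fin (k c)) F)) i j := by
      rw [Matrix.smul_apply, Matrix.smul_apply, Matrix.one_apply, Matrix.one_apply]
      by_cases hij : i = j
      · rw [if_pos hij, if_pos hij, smul_eq_mul, smul_eq_mul, mul_one, mul_one]
      · rw [if_neg hij, if_neg hij, smul_eq_mul, smul_eq_mul, mul_zero, mul_zero, dd_zero]
    rw [h3] at h2
    exact h2
  refine ⟨t / (hOf a c).det, fun i j => ?_⟩
  have hu : IsUnit (hOf a c).det := isUnit_iff_ne_zero.2 hdet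
  have hinv : (hOf a c)⁻¹ = (hOf a c).det⁻¹ • (hOf a c).adjugate := by
    rw [Matrix.inv_def, Ring.inverse_eq_inv']
  have h4 : D = (t / (hOf a c).det) • (hOf a c).adjugate - hOf Y c * (hOf a c).adjugate := by
    have h5 : hOf a c * D = t • 1 - hOf u c * (hOf a c).adjugate := by
      rw [← h1]
      abel
    have h6 := congrArg (fun M => (hOf a c)⁻¹ * M) h5
    simp only [← Matrix.mul_assoc] at h6
    rw [Matrix.nonsing_inv_mul _ hu, Matrix.one_mul, Matrix.mul_sub, Matrix.mul_smul,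
      Matrix.mul_one, hY, ← Matrix.mul_assoc, ← Matrix.mul_assoc, Matrix.nonsing_inv_mul _ hu,
      Matrix.one_mul] at h6
    rw [h6]
    congr 1
    rw [hinv, smul_smul, div_eq_mul_inv]
  have h7 := congrFun (congrFun h4 i) j
  rw [Matrix.sub_apply, Matrix.smul_apply, smul_eq_mul, Matrix.mul_apply] at h7
  exact h7

theorem Psi_deriv (a u : Pq k → F) (hdet : ∀ c, (hOf a c).det ≠ 0) :
    ∃ (Y : Pq k → F) (δ : Ix k d m → F), ∀ (y : Ix k d m → F) i,
      ∑ j, dd a u (Psi k d m F i j) * y j =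
        op (Psi k d m F) a (fun i => lam Y y i + δ i * y i) i := by
  classical
  set Y : Pq k → F := fun p => ((hOf a p.1)⁻¹ * hOf u p.1) p.2.1 p.2.2 with hYdef
  have hY : ∀ c, hOf u c = hOf a c * hOf Y c := by
    intro c
    have h1 : hOf Y c = (hOf a c)⁻¹ * hOf u c := by
      ext i j
      rfl
    rw [h1, ← Matrix.mul_assoc, Matrix.mul_nonsing_inv _ (isUnit_iff_ne_zero.2 (hdet c)),
      Matrix.one_mul]
  choose τ hτ using fun c => dd_adj a u Y hY c (hdet c)
  refine ⟨Y, fun i => τ i.1, fun y i => ?_⟩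
  have h1 : ∑ j, dd a u (Psi k d m F i j) * y j =
      dd a u (∑ j, Psi k d m F i j * C (y j)) := by
    rw [dd_sum]
    refine Finset.sum_congr rfl fun j _ => ?_
    rw [mul_comm (Psi k d m F i j), dd_C_mul, mul_comm]
  rw [h1, Psi_sum, op_Psi]
  obtain ⟨c, j, w⟩ := i
  simp only [chg]
  rw [act_dd a u (bd (Hg k F)) _ (bd (hOf Y)) (dd_Hg a u Y hY)]
  have h2 : (bd (Hg k F)).map (eval a) = bd (hOf a) := by
    rw [bd, Matrix.blockDiagonal'_map _ _ (map_zero (eval a))]
    have h4 : (fun c => (Hg k F c).map (eval a)) = hOf a := funext fun c => Hg_map a c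
    rw [h4]
  rw [h2]
  congr 1
  funext w'
  rw [dd_sum]
  have h3 : ∀ l, dd a u ((Hg k F c).adjugate l j * C (y ⟨c, (l, w')⟩)) =
      (τ c * (hOf a c).adjugate l j - ∑ l', Y ⟨c, (l, l')⟩ * (hOf a c).adjugate l' j) *
        y ⟨c, (l, w')⟩ := by
    intro l
    rw [mul_comm, dd_C_mul, hτ]
    ring
  simp only [h3]
  have h5 : (fun w'' : Wd k d m c => eval a (∑ l, (Hg k F c).adjugate l j * C (y ⟨c, (l, w'')⟩))) =
      fun w'' => ∑ l, (hOf a c).adjugate l j * y ⟨c, (l, w'')⟩ := by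
    funext w''
    rw [map_sum]
    refine Finset.sum_congr rfl fun l _ => ?_
    rw [map_mul, eval_C, ← adj_map, Matrix.map_apply]
  rw [h5, inf_sum]
  simp only [lam]
  have h6 : ∑ l, (∑ l', Y ⟨c, (l, l')⟩ * (hOf a c).adjugate l' j) * y ⟨c, (l, w')⟩ =
      ∑ l, (hOf a c).adjugate l j * ∑ l', Y ⟨c, (l', l)⟩ * y ⟨c, (l', w')⟩ := by
    simp only [Finset.sum_mul, Finset.mul_sum]
    rw [Finset.sum_comm]
    exact Finset.sum_congr rfl fun i _ => Finset.sum_congr rfl fun y _ => by ring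
  have h7 : ∀ l, (hOf a c).adjugate l j * (inf (bd (hOf Y)) (fun w : Wd k d m c => y ⟨c, (l, w)⟩) w' -
      ∑ l', Y ⟨c, (l', l)⟩ * y ⟨c, (l', w')⟩ + τ c * y ⟨c, (l, w')⟩) =
      (hOf a c).adjugate l j * inf (bd (hOf Y)) (fun w : Wd k d m c => y ⟨c, (l, w)⟩) w' -
      (hOf a c).adjugate l j * ∑ l', Y ⟨c, (l', l)⟩ * y ⟨c, (l', w')⟩ +
      τ c * (hOf a c).adjugate l j * y ⟨c, (l, w')⟩ := fun l => by ring
  simp only [h7, sub_mul, Finset.sum_add_distrib, Finset.sum_sub_distrib]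
  rw [h6]
  ring

/-- The matrices of the infinitesimal action. -/
noncomputable def Em (k d m : Fin r → ℕ) (F : Type) [Field F] (p : Pq k) (i i' : Ix k d m) : F := by
  classical
  exact (∑ s, ∑ b, bd (hOf (Pi.single p (1 : F))) (i.2.2.1 s) b *
      (if i' = ⟨i.1, (i.2.1, (Function.update i.2.2.1 s b, i.2.2.2))⟩ then 1 else 0)) -
    ∑ l, (Pi.single p (1 : F) : Pq k → F) ⟨i.1, (l, i.2.1)⟩ *
      (if i' = ⟨i.1, (l, i.2.2)⟩ then 1 else 0)

theorem hOf_sum (Y : Pq k → F) (x z : Lt k) :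
    bd (hOf Y) x z = ∑ p, Y p * bd (hOf (Pi.single p (1 : F))) x z := by
  classical
  obtain ⟨c, i⟩ := x
  obtain ⟨c', j⟩ := z
  by_cases hc : c = c'
  · subst hc
    simp only [bd, Matrix.blockDiagonal'_apply_eq, hOf, Matrix.of_apply]
    rw [Finset.sum_eq_single ⟨c, (i, j)⟩]
    · simp
    · intro p _ hp
      rw [Pi.single_eq_of_ne (Ne.symm hp), mul_zero]
    · simp
  · simp only [bd, Matrix.blockDiagonal'_apply_ne _ _ _ hc, mul_zero, Finset.sum_const_zero]

theorem lam_eq (Y : Pq k → F) (y : Ix k d m → F) (i : Ix k d m) :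
    lam Y y i = ∑ p, Y p * ∑ j, Em k d m F p i j * y j := by
  classical
  have h1 : ∀ p, ∑ j, Em k d m F p i j * y j =
      (∑ s, ∑ b, bd (hOf (Pi.single p (1 : F))) (i.2.2.1 s) b *
        y ⟨i.1, (i.2.1, (Function.update i.2.2.1 s b, i.2.2.2))⟩) -
      ∑ l, (Pi.single p (1 : F) : Pq k → F) ⟨i.1, (l, i.2.1)⟩ * y ⟨i.1, (l, i.2.2)⟩ := by
    intro p
    simp only [Em, sub_mul, Finset.sum_sub_distrib, Finset.sum_mul]
    congr 1
    · rw [Finset.sum_comm]
      refine Finset.sum_congr rfl fun s _ => ?_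
      rw [Finset.sum_comm]
      refine Finset.sum_congr rfl fun b _ => ?_
      simp
    · rw [Finset.sum_comm]
      refine Finset.sum_congr rfl fun l _ => ?_
      simp
  simp only [h1, lam, mul_sub, Finset.sum_sub_distrib]
  congr 1
  · have e1 : ∑ p, Y p * ∑ s, ∑ b, bd (hOf (Pi.single p (1 : F))) (i.2.2.1 s) b *
        y ⟨i.1, (i.2.1, (Function.update i.2.2.1 s b, i.2.2.2))⟩ =
        ∑ s, ∑ b, (∑ p, Y p * bd (hOf (Pi.single p (1 : F))) (i.2.2.1 s) b) *
        y ⟨i.1, (i.2.1, (Function.update i.2.2.1 s b, i.2.2.2))⟩ := by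
      simp only [Finset.mul_sum, Finset.sum_mul]
      rw [Finset.sum_comm]
      refine Finset.sum_congr rfl fun s _ => ?_
      rw [Finset.sum_comm]
      exact Finset.sum_congr rfl fun b _ => Finset.sum_congr rfl fun p _ => by ring
    rw [e1, inf]
    refine Finset.sum_congr rfl fun s _ => Finset.sum_congr rfl fun b _ => ?_
    rw [hOf_sum Y]
  · have e2 : ∑ p, Y p * ∑ l, (Pi.single p (1 : F) : Pq k → F) ⟨i.1, (l, i.2.1)⟩ *
        y ⟨i.1, (l, i.2.2)⟩ = ∑ l, ∑ p, Y p * ((Pi.single p (1 : F) : Pq k → F) ⟨i.1, (l, i.2.1)⟩ *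
        y ⟨i.1, (l, i.2.2)⟩) := by
      simp only [Finset.mul_sum]
      rw [Finset.sum_comm]
    rw [e2]
    refine Finset.sum_congr rfl fun l _ => ?_
    rw [Finset.sum_eq_single ⟨i.1, (l, i.2.1)⟩]
    · simp
    · intro p _ hp
      rw [Pi.single_eq_of_ne (Ne.symm hp), zero_mul, mul_zero]
    · simp

theorem Em_weight (p : Pq k) (i i' : Ix k d m) (h : Em k d m F p i i' ≠ 0) (l : Lt k → ℤ) :
    bw l i = bw l i' + l ⟨p.1, p.2.2⟩ - l ⟨p.1, p.2.1⟩ := by
  classical
  have h1 : (∃ s b, bd (hOf (Pi.single p (1 : F))) (i.2.2.1 s) b ≠ 0 ∧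
      i' = ⟨i.1, (i.2.1, (Function.update i.2.2.1 s b, i.2.2.2))⟩) ∨
      ∃ l, (Pi.single p (1 : F) : Pq k → F) ⟨i.1, (l, i.2.1)⟩ ≠ 0 ∧ i' = ⟨i.1, (l, i.2.2)⟩ := by
    by_contra hcon
    push Not at hcon
    obtain ⟨hc1, hc2⟩ := hcon
    apply h
    have e1 : ∑ l, (Pi.single p (1 : F) : Pq k → F) ⟨i.1, (l, i.2.1)⟩ *
        (if i' = ⟨i.1, (l, i.2.2)⟩ then (1 : F) else 0) = 0 := by
      refine Finset.sum_eq_zero fun l _ => ?_
      by_cases h2 : (Pi.single p (1 : F) : Pq k → F) ⟨i.1, (l, i.2.1)⟩ = 0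
      · rw [h2, zero_mul]
      · rw [if_neg (hc2 l h2), mul_zero]
    have e2 : ∑ s, ∑ b, bd (hOf (Pi.single p (1 : F))) (i.2.2.1 s) b *
        (if i' = ⟨i.1, (i.2.1, (Function.update i.2.2.1 s b, i.2.2.2))⟩ then (1 : F) else 0) = 0 := by
      refine Finset.sum_eq_zero fun s _ => Finset.sum_eq_zero fun b _ => ?_
      by_cases h2 : bd (hOf (Pi.single p (1 : F))) (i.2.2.1 s) b = 0
      · rw [h2, zero_mul]
      · rw [if_neg (hc1 s b h2), mul_zero]
    rw [Em, e1, e2, sub_zero]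
  rcases h1 with ⟨s, b, hb, rfl⟩ | ⟨l', hl', rfl⟩
  · have h2 : i.2.2.1 s = ⟨p.1, p.2.1⟩ ∧ b = ⟨p.1, p.2.2⟩ := by
      obtain ⟨c', j⟩ := b
      generalize hx : i.2.2.1 s = x at hb
      obtain ⟨c, e⟩ := x
      by_cases hc : c = c'
      · subst hc
        simp only [bd, Matrix.blockDiagonal'_apply_eq, hOf, Matrix.of_apply] at hb
        have h3 : (⟨c, (e, j)⟩ : Pq k) = p := by
          by_contra hne
          exact hb (Pi.single_eq_of_ne hne _)
        subst h3
        exact ⟨rfl, rfl⟩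
      · rw [bd, Matrix.blockDiagonal'_apply_ne _ _ _ hc] at hb
        exact absurd rfl hb
    obtain ⟨h3, rfl⟩ := h2
    simp only [bw]
    rw [← Finset.add_sum_erase _ _ (Finset.mem_univ s), ← Finset.add_sum_erase _ (fun s' =>
        l (Function.update i.2.2.1 s ⟨p.1, p.2.2⟩ s')) (Finset.mem_univ s), Function.update_self, h3]
    have h4 : ∑ x ∈ Finset.univ.erase s, l (Function.update i.2.2.1 s ⟨p.1, p.2.2⟩ x) =
        ∑ x ∈ Finset.univ.erase s, l (i.2.2.1 x) := by
      refine Finset.sum_congr rfl fun x hx => ?_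
      rw [Function.update_of_ne (Finset.ne_of_mem_erase hx)]
    rw [h4]
    ring
  · have h3 : (⟨i.1, (l', i.2.1)⟩ : Pq k) = p := by
      by_contra hne
      exact hl' (Pi.single_eq_of_ne hne _)
    subst h3
    simp only [bw]
    ring

end Field

section Tower

variable {r : ℕ} {k d m : Fin r → ℕ} {F : Type} [Field F] [CharZero F] {N : ℕ}

theorem matching_tower (V : ∀ c, Submodule F (Wd k d m c → F)) (hV : Stab V)
    (ν : Fin N → Ix k d m) (hinj : ∀ q ∈ TV V, (∀ i, q (ν i) = 0) → q = 0)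
    (hsurj : ∀ z : Fin N → F, ∃ q ∈ TV V, ∀ i, q (ν i) = z i) (J : Set (Ix k d m))
    (hbad : ∀ P, ¬ Bad V J P) :
    ∃ φ : {i : Fin N // ν i ∉ J} → Pq k, Function.Injective φ ∧
      ∀ i : {i : Fin N // ν i ∉ J}, ∃ i' ∈ J, ∀ l : Lt k → ℤ,
        bw l (ν i) = bw l i' + l ⟨(φ i).1, (φ i).2.2⟩ - l ⟨(φ i).1, (φ i).2.1⟩ := by
  classical
  set Δ : MvPolynomial (Pq k) F := ∏ c, (Hg k F c).det with hΔdef
  have hΔe : ∀ a, eval a Δ = ∏ c, (hOf a c).det := by
    intro a
    rw [hΔdef, map_prod]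
    refine Finset.prod_congr rfl fun c _ => ?_
    rw [RingHom.map_det, RingHom.mapMatrix_apply, Hg_map]
  have hΔc : ∀ a, eval a Δ ≠ 0 → ∀ c, (hOf a c).det ≠ 0 := by
    intro a ha c
    rw [hΔe] at ha
    exact Finset.prod_ne_zero_iff.1 ha c (Finset.mem_univ c)
  have hΔ : Δ ≠ 0 := by
    intro h0
    have h1 := hΔe (fun p => if p.2.1 = p.2.2 then 1 else 0)
    rw [h0, map_zero] at h1
    have h2 : ∀ c, hOf (fun p : Pq k => if p.2.1 = p.2.2 then (1 : F) else 0) c = 1 := by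
      intro c
      ext i j
      simp [hOf, Matrix.one_apply]
    simp only [h2, Matrix.det_one, Finset.prod_const_one] at h1
    exact zero_ne_one h1
  -- scalings
  have hop : ∀ a, eval a Δ ≠ 0 → ∀ q : Ix k d m → F, op (Psi k d m F) a q =
      chg (fun c => (hOf a c)⁻¹) (hOf a) (fun i => (hOf a i.1).det * q i) := by
    intro a ha q
    rw [op_Psi]
    funext i
    obtain ⟨c, j, w⟩ := i
    simp only [chg]
    congr 1
    funext w'
    refine Finset.sum_congr rfl fun j' _ => ?_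
    have h1 : (hOf a c).adjugate = (hOf a c).det • (hOf a c)⁻¹ := by
      rw [Matrix.inv_def, Ring.inverse_eq_inv', smul_smul, mul_inv_cancel₀ (hΔc a ha c), one_smul]
    rw [h1, Matrix.smul_apply, smul_eq_mul]
    ring
  have hinvm : ∀ a, eval a Δ ≠ 0 → ∀ c, (hOf a c)⁻¹ * hOf a c = 1 := fun a ha c =>
    Matrix.nonsing_inv_mul _ (isUnit_iff_ne_zero.2 (hΔc a ha c))
  have hinvm' : ∀ a, eval a Δ ≠ 0 → ∀ c, hOf a c * (hOf a c)⁻¹ = 1 := fun a ha c =>
    Matrix.mul_nonsing_inv _ (isUnit_iff_ne_zero.2 (hΔc a ha c))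
  have H1 : ∀ a, eval a Δ ≠ 0 → ∀ q ∈ TV V, op (Psi k d m F) a q ∈ TV V := by
    intro a ha q hq
    rw [op_Psi]
    exact chg_mem hV _ _ (hΔc a ha) q hq
  have H2 : ∀ a, eval a Δ ≠ 0 → ∀ q, op (Psi k d m F) a q = 0 → q = 0 := by
    intro a ha q hq0
    rw [hop a ha] at hq0
    have h1 := congrArg (chg (hOf a) (fun c => (hOf a c)⁻¹)) hq0
    rw [chg_chg] at h1
    have h2 : (fun c => (hOf a c)⁻¹ * hOf a c) = fun c => (1 : Matrix (Fin (k c)) (Fin (k c)) F) :=
      funext (hinvm a ha)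
    rw [h2, chg_one] at h1
    have h3 : chg (hOf a) (fun c => (hOf a c)⁻¹) (0 : Ix k d m → F) = 0 := by
      have := chg_smul (hOf a) (fun c => (hOf a c)⁻¹) (0 : F) (0 : Ix k d m → F)
      rwa [zero_smul, zero_smul] at this
    rw [h3] at h1
    funext i
    have h4 := congrFun h1 i
    simp only [Pi.zero_apply] at h4
    exact (mul_eq_zero.1 h4).resolve_left (hΔc a ha i.1)
  have H3 : ∀ a u, eval a Δ ≠ 0 → ∃ (Y : Pq k → F) (δ : Ix k d m → F), ∀ (y : Ix k d m → F) i,
      ∑ j, dd a u (Psi k d m F i j) * y j = op (Psi k d m F) a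
        (fun i' => (∑ p, Y p * ∑ j, Em k d m F p i' j * y j) + δ i' * y i') i := by
    intro a u ha
    obtain ⟨Y, δ, hY⟩ := Psi_deriv (d := d) (m := m) a u (hΔc a ha)
    refine ⟨Y, δ, fun y i => ?_⟩
    rw [hY]
    congr 1
    funext k'
    rw [lam_eq]
  have H4 : ∀ P : MvPolynomial (Ix k d m) F, ¬ ((∀ a, eval a Δ ≠ 0 → ∀ q ∈ TV V,
      (∀ x, x ∉ J → q x = 0) → eval (op (Psi k d m F) a q) P = 0) ∧ ∃ q ∈ TV V, eval q P ≠ 0) := by
    intro P hP
    refine hbad P ⟨?_, hP.2⟩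
    intro g h hgh q hq hqJ
    -- take `a` with `hOf a = h`
    set a : Pq k → F := fun p => h p.1 p.2.1 p.2.2 with ha
    have hah : hOf a = h := by
      funext c
      ext i j
      rfl
    have hdet : ∀ c, (h c).det ≠ 0 := by
      intro c h0
      have h1 := congrArg Matrix.det (hgh c)
      rw [Matrix.det_mul, h0, mul_zero, Matrix.det_one] at h1
      exact zero_ne_one h1
    have haΔ : eval a Δ ≠ 0 := by
      rw [hΔe, hah]
      exact Finset.prod_ne_zero_iff.2 fun c _ => hdet c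
    have h1 := hP.1 a haΔ (fun i => ((h i.1).det)⁻¹ * q i) (by
        intro c j
        change (fun w : Wd k d m c => ((h c).det)⁻¹ * q ⟨c, (j, w)⟩) ∈ V c
        have h2 : (fun w : Wd k d m c => ((h c).det)⁻¹ * q ⟨c, (j, w)⟩) =
            ((h c).det)⁻¹ • fun w : Wd k d m c => q ⟨c, (j, w)⟩ := rfl
        rw [h2]
        exact (V c).smul_mem _ (hq c j)) (by
        intro x hx
        rw [hqJ x hx, mul_zero])
    rw [hop a haΔ, hah] at h1
    have h2 : (fun i : Ix k d m => (h i.1).det * (((h i.1).det)⁻¹ * q i)) = q := by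
      funext i
      rw [← mul_assoc, mul_inv_cancel₀ (hdet i.1), one_mul]
    rw [h2] at h1
    have h3 : (fun c => (h c)⁻¹) = g := by
      funext c
      exact Matrix.inv_eq_left_inv (hgh c)
    rwa [h3] at h1
  obtain ⟨φ, hφi, hφ⟩ := matching_abstract (Psi k d m F) Δ hΔ (TV V) H1 H2 (Em k d m F) H3 ν hinj
    hsurj J H4
  refine ⟨φ, hφi, fun i => ?_⟩
  obtain ⟨i', hi', hne⟩ := hφ i
  exact ⟨i', hi', fun l => Em_weight _ _ _ hne l⟩

end Tower

end Pool.Agent.H71.TW
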