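import Mathlib
import Pool.Agent.H71.TW.Hom

set_option autoImplicit false
set_option linter.all false

/-! Coordinates on a subspace `V`, and the sum of the weights. -/

namespace Pool.Agent.H71.TW

open Finset Pool.Agent.H71.MB

/-- A subspace of `F ^ X` has a system of coordinates consisting of some of the coordinates. -/
theorem exists_coords {F : Type} [Field F] {X : Type} [Fintype X] (V : Submodule F (X → F)) :
    ∃ ν : Fin (Module.finrank F V) → X, (∀ q ∈ V, (∀ i, q (ν i) = 0) → q = 0) ∧
      ∀ z : Fin (Module.finrank F V) → F, ∃ q ∈ V, ∀ i, q (ν i) = z i := by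
  classical
  set c : X → Module.Dual F V := fun x => (LinearMap.proj x : (X → F) →ₗ[F] F) ∘ₗ V.subtype with hc
  obtain ⟨κ, a, ha, hspan, hlin⟩ := exists_linearIndependent' F c
  have : Finite κ := Finite.of_injective a ha
  have := Fintype.ofFinite κ
  have hinj : ∀ q : V, (∀ i, (q : X → F) (a i) = 0) → q = 0 := by
    intro q hq
    apply Subtype.ext
    funext x
    have h1 : c x ∈ Submodule.span F (Set.range (c ∘ a)) := by
      rw [hspan]
      exact Submodule.subset_span ⟨x, rfl⟩
    have h2 : ∀ ψ ∈ Submodule.span F (Set.range (c ∘ a)), ψ q = 0 := by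
      intro ψ hψ
      induction hψ using Submodule.span_induction with
      | mem ψ h =>
        obtain ⟨i, rfl⟩ := h
        exact hq i
      | zero => rfl
      | add x y _ _ hx hy => rw [LinearMap.add_apply, hx, hy, add_zero]
      | smul t x _ hx => rw [LinearMap.smul_apply, hx, smul_zero]
    exact h2 _ h1
  set e : V →ₗ[F] (κ → F) := LinearMap.pi (c ∘ a) with he
  have hei : Function.Injective e := by
    rw [← LinearMap.ker_eq_bot, LinearMap.ker_eq_bot']
    intro q hq
    exact hinj q fun i => congrFun hq i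
  have h1 : Module.finrank F V ≤ Fintype.card κ := by
    have := LinearMap.finrank_le_finrank_of_injective hei
    rwa [Module.finrank_fintype_fun_eq_card] at this
  have h2 : Fintype.card κ ≤ Module.finrank F V := by
    have := hlin.fintype_card_le_finrank
    rwa [Subspace.dual_finrank_eq] at this
  have h3 : Fintype.card κ = Module.finrank F V := le_antisymm h2 h1
  have hes : Function.Surjective e := by
    rw [← LinearMap.injective_iff_surjective_of_finrank_eq_finrank]
    · exact hei
    · rw [Module.finrank_fintype_fun_eq_card, h3]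
  set ε : Fin (Module.finrank F V) ≃ κ := (Fintype.equivFinOfCardEq h3).symm with hε
  refine ⟨fun i => a (ε i), ?_, ?_⟩
  · intro q hq h
    have := hinj ⟨q, hq⟩ fun i => by
      have := h (ε.symm i)
      simpa using this
    exact congrArg Subtype.val this
  · intro z
    obtain ⟨q, hq⟩ := hes fun i => z (ε.symm i)
    refine ⟨q, q.2, fun i => ?_⟩
    have h4 : (q : X → F) (a (ε i)) = z (ε.symm (ε i)) := congrFun hq (ε i)
    rw [h4, Equiv.symm_apply_apply]

section Weights

variable {F : Type} [Field F] [CharZero F] {κ μ γ : Type} [Fintype κ] [DecidableEq κ] [Fintype μ] [DecidableEq γ] {d N : ℕ}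

/-- The number of occurrences of `a` in the coordinates. -/
def wt (ν : Fin N → (Fin d → κ) × μ) (a : κ) : ℕ := ∑ i, (Finset.univ.filter fun s => (ν i).1 s = a).card

theorem wt_eq (col : κ → γ) (V : Submodule F (Ten κ d μ F))
    (hV : ∀ g : Matrix κ κ F, IsBlock col col g → g.det ≠ 0 → ∀ q ∈ V, act g q ∈ V)
    (ν : Fin N → (Fin d → κ) × μ) (hinj : ∀ q ∈ V, (∀ i, q (ν i) = 0) → q = 0)
    (hsurj : ∀ z : Fin N → F, ∃ q ∈ V, ∀ i, q (ν i) = z i) (a a' : κ) (haa : col a = col a') :
    wt ν a = wt ν a' := by
  classical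
  -- the coordinates as an isomorphism
  set e : V ≃ₗ[F] (Fin N → F) := LinearEquiv.ofBijective
    ({ toFun := fun q i => (q : Ten κ d μ F) (ν i)
       map_add' := fun _ _ => rfl
       map_smul' := fun _ _ => rfl } : V →ₗ[F] (Fin N → F)) (by
        constructor
        · rw [← LinearMap.ker_eq_bot, LinearMap.ker_eq_bot']
          intro q hq
          exact Subtype.ext (hinj q q.2 fun i => congrFun hq i)
        · intro z
          obtain ⟨q, hq, h⟩ := hsurj z
          exact ⟨⟨q, hq⟩, funext h⟩) with he
  have hei : ∀ (q : V) i, e q i = (q : Ten κ d μ F) (ν i) := fun q i => rfl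
  -- the action on `V`
  set D : {g : Matrix κ κ F // IsBlock col col g ∧ g.det ≠ 0} → (V →ₗ[F] V) := fun g =>
    (actL g.1).restrict (fun q hq => hV g.1 g.2.1 g.2.2 q hq) with hD
  have hDv : ∀ g q, ((D g q : V) : Ten κ d μ F) = act g.1 q := fun g q => rfl
  have hdiag : ∀ t : κ → F, (∀ x, t x ≠ 0) → IsBlock col col (Matrix.diagonal t) ∧
      (Matrix.diagonal t).det ≠ 0 := by
    intro t ht
    refine ⟨fun i j hij => Matrix.diagonal_apply_ne _ fun h => hij (by rw [h]), ?_⟩
    rw [Matrix.det_diagonal]
    exact Finset.prod_ne_zero_iff.2 fun x _ => ht x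
  have hdet : ∀ (t : κ → F) (ht : ∀ x, t x ≠ 0),
      LinearMap.det (D ⟨_, hdiag t ht⟩) = ∏ i, ∏ s, t ((ν i).1 s) := by
    intro t ht
    rw [← LinearMap.det_conj (D ⟨_, hdiag t ht⟩) e]
    have h1 : (e : V →ₗ[F] (Fin N → F)) ∘ₗ (D ⟨_, hdiag t ht⟩) ∘ₗ (e.symm : (Fin N → F) →ₗ[F] V) =
        Matrix.toLin' (Matrix.diagonal fun i => ∏ s, t ((ν i).1 s)) := by
      apply LinearMap.ext
      intro z
      funext i
      rw [LinearMap.comp_apply, LinearMap.comp_apply, Matrix.toLin'_apply, Matrix.mulVec_diagonal]
      change e (D ⟨_, hdiag t ht⟩ (e.symm z)) i = _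
      rw [hei, hDv, act_diagonal, ← hei, LinearEquiv.apply_symm_apply]
    rw [h1, LinearMap.det_toLin', Matrix.det_diagonal]
  have hprod : ∀ (t : κ → F), (∏ i, ∏ s, t ((ν i).1 s)) = ∏ x, t x ^ wt ν x := by
    intro t
    have h1 : ∀ i, ∏ s, t ((ν i).1 s) =
        ∏ x, t x ^ (Finset.univ.filter fun s => (ν i).1 s = x).card := by
      intro i
      rw [← Finset.prod_fiberwise Finset.univ (fun s => (ν i).1 s) (fun s => t ((ν i).1 s))]
      refine Finset.prod_congr rfl fun x _ => ?_
      rw [Finset.prod_congr rfl (g := fun _ => t x) (fun s hs => by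
        rw [(Finset.mem_filter.1 hs).2]), Finset.prod_const]
    simp only [h1]
    rw [Finset.prod_comm]
    refine Finset.prod_congr rfl fun x _ => ?_
    rw [wt, Finset.prod_pow_eq_pow_sum]
  -- the permutation matrix
  set P : Matrix κ κ F := fun i j => if Equiv.swap a a' i = j then 1 else 0 with hP
  have hPm : ∀ (M : Matrix κ κ F) i j, (P * M) i j = M (Equiv.swap a a' i) j := by
    intro M i j
    rw [Matrix.mul_apply, Finset.sum_eq_single (Equiv.swap a a' i)]
    · simp [hP]
    · intro k _ hk
      simp [hP, Ne.symm hk]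
    · simp
  have hPe : ∀ i j, P (Equiv.swap a a' i) j = if i = j then 1 else 0 := by
    intro i j
    rw [hP]
    simp only
    rw [Equiv.swap_apply_self]
  have hPP : P * P = 1 := by
    ext i j
    rw [hPm, hPe, Matrix.one_apply]
  have hPB : IsBlock col col P ∧ P.det ≠ 0 := by
    constructor
    · intro i j hij
      rw [hP]
      simp only
      rw [if_neg]
      intro h
      apply hij
      rw [← h]
      by_cases h1 : i = a
      · subst h1
        rw [Equiv.swap_apply_left, haa]
      · by_cases h2 : i = a'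
        · subst h2
          rw [Equiv.swap_apply_right, haa]
        · rw [Equiv.swap_apply_of_ne_of_ne h1 h2]
    · intro h0
      have h1 := congrArg Matrix.det hPP
      rw [Matrix.det_mul, h0, mul_zero, Matrix.det_one] at h1
      exact zero_ne_one h1
  have hconj : ∀ t : κ → F, Matrix.diagonal (fun x => t (Equiv.swap a a' x)) =
      P * Matrix.diagonal t * P := by
    intro t
    ext i j
    rw [Matrix.mul_assoc, hPm, Matrix.diagonal_mul, hPe, Matrix.diagonal_apply]
    by_cases h : i = j
    · simp [h]
    · simp [h]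
  have hdd : ∀ (t : κ → F) (ht : ∀ x, t x ≠ 0),
      LinearMap.det (D ⟨_, hdiag (fun x => t (Equiv.swap a a' x)) fun x => ht _⟩) =
      LinearMap.det (D ⟨_, hdiag t ht⟩) := by
    intro t ht
    have h1 : D ⟨_, hdiag (fun x => t (Equiv.swap a a' x)) fun x => ht _⟩ =
        (D ⟨P, hPB⟩) ∘ₗ (D ⟨_, hdiag t ht⟩) ∘ₗ (D ⟨P, hPB⟩) := by
      apply LinearMap.ext
      intro q
      apply Subtype.ext
      rw [LinearMap.comp_apply, LinearMap.comp_apply, hDv, hDv, hDv, hDv, act_act, act_act]
      simp only
      rw [hconj, Matrix.mul_assoc]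
    have h2 : (D ⟨P, hPB⟩) ∘ₗ (D ⟨P, hPB⟩) = LinearMap.id := by
      apply LinearMap.ext
      intro q
      apply Subtype.ext
      rw [LinearMap.comp_apply, hDv, hDv, act_act]
      simp only
      rw [hPP, act_one]
      rfl
    have h3 : LinearMap.det (D ⟨P, hPB⟩) * LinearMap.det (D ⟨P, hPB⟩) = 1 := by
      rw [← LinearMap.det_comp, h2, LinearMap.det_id]
    rw [h1, LinearMap.det_comp, LinearMap.det_comp]
    linear_combination (LinearMap.det (D ⟨_, hdiag t ht⟩)) * h3
  have ht0 : ∀ x, (fun x : κ => if x = a then (2 : F) else 1) x ≠ 0 := by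
    intro x
    simp only
    split_ifs
    · exact two_ne_zero
    · exact one_ne_zero
  have h1 := hdd (fun x => if x = a then 2 else 1) ht0
  rw [hdet _ (fun x => ht0 _), hdet _ ht0, hprod (fun x => if x = a then (2 : F) else 1),
    hprod (fun x => (fun x => if x = a then (2 : F) else 1) (Equiv.swap a a' x))] at h1
  have h2 : ∏ x, (if x = a then (2 : F) else 1) ^ wt ν x = 2 ^ wt ν a := by
    rw [Finset.prod_eq_single a]
    · simp
    · intro x _ hx
      simp [hx]
    · simp
  have h3 : ∏ x, ((fun x => if x = a then (2 : F) else 1) (Equiv.swap a a' x)) ^ wt ν x =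
      2 ^ wt ν a' := by
    rw [Finset.prod_eq_single a']
    · simp
    · intro x _ hx
      have : Equiv.swap a a' x ≠ a := by
        intro h
        apply hx
        rw [← Equiv.swap_apply_self a a' x, h, Equiv.swap_apply_left]
      simp [this]
    · simp
  rw [h2, h3] at h1
  have h4 : ((2 ^ wt ν a' : ℕ) : F) = ((2 ^ wt ν a : ℕ) : F) := by
    push_cast
    exact h1
  exact (Nat.pow_right_injective (le_refl 2) (Nat.cast_injective h4)).symm

end Weights

end Pool.Agent.H71.TW
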