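import Mathlib
import Pool.Agent.H71.TW.Wt

set_option autoImplicit false
set_option linter.all false

/-! Coordinates on the space of the torsor, and the sum of the weights. -/

namespace Pool.Agent.H71.TW

open Pool.Agent.H71.MB

section Graded

variable {F : Type} [Field F] [CharZero F] {X : Type} [Fintype X]

/-- The part of degree `e`. -/
def grd (V : Submodule F (X → F)) (deg : X → ℕ) (e : ℕ) : Submodule F (X → F) where
  carrier := {q | q ∈ V ∧ ∀ x, q x ≠ 0 → deg x = e}
  add_mem' := fun {a b} ha hb => ⟨V.add_mem ha.1 hb.1, fun x hx => by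
    by_cases h : a x = 0
    · refine hb.2 x fun hb0 => hx ?_
      rw [Pi.add_apply, h, hb0, add_zero]
    · exact ha.2 x h⟩
  zero_mem' := ⟨V.zero_mem, fun x hx => absurd rfl hx⟩
  smul_mem' := fun c a ha => ⟨V.smul_mem c ha.1, fun x hx => ha.2 x fun h0 => hx (by
    rw [Pi.smul_apply, h0, smul_zero])⟩

theorem comp_mem (V : Submodule F (X → F)) (deg : X → ℕ)
    (hV : ∀ t : F, t ≠ 0 → ∀ q ∈ V, (fun x => t ^ deg x * q x) ∈ V) (q : X → F) (hq : q ∈ V)
    (e : ℕ) : (fun x => if deg x = e then q x else 0) ∈ V := by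
  classical
  by_contra hnot
  obtain ⟨ψ, hψ1, hψ2⟩ := Submodule.exists_le_ker_of_notMem hnot
  have hψs : ∀ y : X → F, ψ y = ∑ x, ψ (Pi.single x 1) * y x := by
    intro y
    conv_lhs => rw [pi_eq_sum_univ' y, map_sum]
    refine Finset.sum_congr rfl fun z _ => ?_
    rw [map_smul, smul_eq_mul, mul_comm]
  set L : Polynomial F := ∑ x, Polynomial.C (ψ (Pi.single x 1) * q x) * Polynomial.X ^ deg x with hL
  have hLe : ∀ t : F, L.eval t = ψ (fun x => t ^ deg x * q x) := by
    intro t
    rw [hψs, hL, Polynomial.eval_finsetSum]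
    refine Finset.sum_congr rfl fun x _ => ?_
    simp
    ring
  have hL0 : Polynomial.X * L = 0 := by
    apply Polynomial.funext
    intro t
    rw [Polynomial.eval_zero, Polynomial.eval_mul, Polynomial.eval_X]
    by_cases ht : t = 0
    · rw [ht, zero_mul]
    · rw [hLe]
      have : ψ (fun x => t ^ deg x * q x) = 0 := hψ2 (hV t ht q hq)
      rw [this, mul_zero]
  have hL1 : L = 0 := (mul_eq_zero.1 hL0).resolve_left Polynomial.X_ne_zero
  apply hψ1
  rw [hψs]
  have h1 := congrArg (fun p => Polynomial.coeff p e) hL1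
  simp only [hL, Polynomial.finsetSum_coeff, Polynomial.coeff_C_mul, Polynomial.coeff_X_pow,
    Polynomial.coeff_zero] at h1
  refine Eq.trans ?_ h1
  refine Finset.sum_congr rfl fun x _ => ?_
  by_cases hx : deg x = e
  · simp [hx]
  · simp [hx, Ne.symm hx]

theorem finrank_grd (V : Submodule F (X → F)) (deg : X → ℕ)
    (hV : ∀ t : F, t ≠ 0 → ∀ q ∈ V, (fun x => t ^ deg x * q x) ∈ V) {N : ℕ} (ν : Fin N → X)
    (hinj : ∀ q ∈ V, (∀ i, q (ν i) = 0) → q = 0)
    (hsurj : ∀ z : Fin N → F, ∃ q ∈ V, ∀ i, q (ν i) = z i) (e : ℕ) :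
    Module.finrank F (grd V deg e) = (Finset.univ.filter fun i => deg (ν i) = e).card := by
  classical
  set L : grd V deg e →ₗ[F] ({i : Fin N // deg (ν i) = e} → F) :=
    { toFun := fun q i => (q : X → F) (ν i)
      map_add' := fun _ _ => rfl
      map_smul' := fun _ _ => rfl } with hL
  have h1 : Function.Bijective L := by
    constructor
    · rw [← LinearMap.ker_eq_bot, LinearMap.ker_eq_bot']
      intro q hq
      apply Subtype.ext
      apply hinj _ q.2.1
      intro i
      by_cases hi : deg (ν i) = e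
      · exact congrFun hq ⟨i, hi⟩
      · by_contra hne
        exact hi (q.2.2 _ hne)
    · intro z
      obtain ⟨q, hq, hqz⟩ := hsurj fun i => if h : deg (ν i) = e then z ⟨i, h⟩ else 0
      refine ⟨⟨fun x => if deg x = e then q x else 0, comp_mem V deg hV q hq e, fun x hx => ?_⟩, ?_⟩
      · by_contra hne
        exact hx (if_neg hne)
      · funext i
        change (if deg (ν i) = e then q (ν i) else 0) = z i
        rw [if_pos i.2, hqz, dif_pos i.2]
  rw [LinearEquiv.finrank_eq (LinearEquiv.ofBijective L h1), Module.finrank_fintype_fun_eq_card,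
    Fintype.card_subtype]

theorem sum_grd (V : Submodule F (X → F)) (deg : X → ℕ)
    (hV : ∀ t : F, t ≠ 0 → ∀ q ∈ V, (fun x => t ^ deg x * q x) ∈ V) {N : ℕ} (ν : Fin N → X)
    (hinj : ∀ q ∈ V, (∀ i, q (ν i) = 0) → q = 0)
    (hsurj : ∀ z : Fin N → F, ∃ q ∈ V, ∀ i, q (ν i) = z i) (D : ℕ) (hD : ∀ x, deg x ≤ D) :
    ∑ e ∈ Finset.range (D + 1), e * Module.finrank F (grd V deg e) = ∑ i, deg (ν i) := by
  classical
  simp only [finrank_grd V deg hV ν hinj hsurj]
  rw [← Finset.sum_fiberwise_of_maps_to (s := Finset.univ) (t := Finset.range (D + 1))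
    (g := fun i => deg (ν i)) (f := fun i => deg (ν i))
    (fun i _ => Finset.mem_range.2 (Nat.lt_succ_of_le (hD _)))]
  refine Finset.sum_congr rfl fun e _ => ?_
  rw [Finset.sum_congr rfl (g := fun _ => e) (fun i hi => (Finset.mem_filter.1 hi).2),
    Finset.sum_const, smul_eq_mul, mul_comm]

end Graded

section Tower

variable {r : ℕ} {k d m : Fin r → ℕ} {F : Type} [Field F] [CharZero F]

/-- The number of letters of level `c0` in a word. -/
def dg (c0 : Fin r) {c : Fin r} (x : Wd k d m c) : ℕ :=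
  (Finset.univ.filter fun s => (x.1 s).1 = c0).card

/-- The total degree of `V` in the letters of level `c0`. -/
noncomputable def wdeg (V : ∀ c, Submodule F (Wd k d m c → F)) (c c0 : Fin r) : ℕ :=
  ∑ e ∈ Finset.range (d c + 1), e * Module.finrank F (grd (V c) (dg c0) e)

theorem dg_le (c0 : Fin r) {c : Fin r} (x : Wd k d m c) : dg c0 x ≤ d c := by
  have := Finset.card_filter_le (Finset.univ : Finset (Fin (d c))) (fun s => (x.1 s).1 = c0)
  rw [Finset.card_univ, Fintype.card_fin] at this
  exact this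

theorem stab_diag (V : ∀ c, Submodule F (Wd k d m c → F)) (hV : Stab V) (c c0 : Fin r) (t : F)
    (ht : t ≠ 0) (q : Wd k d m c → F) (hq : q ∈ V c) : (fun x => t ^ dg c0 x * q x) ∈ V c := by
  classical
  have h1 := hV (fun c' => Matrix.diagonal fun _ => if c' = c0 then t else 1) (fun c' => by
    rw [Matrix.det_diagonal]
    refine Finset.prod_ne_zero_iff.2 fun j _ => ?_
    split_ifs
    · exact ht
    · exact one_ne_zero) c q hq
  have h2 : act (bd fun c' => Matrix.diagonal fun _ : Fin (k c') => if c' = c0 then t else 1) q =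
      fun x => t ^ dg c0 x * q x := by
    funext x
    rw [bd, Matrix.blockDiagonal'_diagonal (fun c' => fun _ : Fin (k c') => if c' = c0 then t else 1),
      act_diagonal]
    congr 1
    rw [Finset.prod_ite, Finset.prod_const, Finset.prod_const_one, mul_one]
    rfl
  rwa [h2] at h1

theorem isBlock_stab (V : ∀ c, Submodule F (Wd k d m c → F)) (hV : Stab V) (c : Fin r) :
    ∀ g : Matrix (Lt k) (Lt k) F, IsBlock (Sigma.fst : Lt k → Fin r) (Sigma.fst : Lt k → Fin r) g →
      g.det ≠ 0 → ∀ q ∈ V c, act g q ∈ V c := by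
  classical
  intro g hg hdet q hq
  set gc : Blk k F := fun c => Matrix.of fun i j => g ⟨c, i⟩ ⟨c, j⟩ with hgc
  have h1 : g = bd gc := by
    ext ⟨c, i⟩ ⟨c', j⟩
    by_cases h : c = c'
    · subst h
      rw [bd, Matrix.blockDiagonal'_apply_eq]
      rfl
    · rw [bd, Matrix.blockDiagonal'_apply_ne _ _ _ h]
      exact hg _ _ h
  rw [h1]
  refine hV gc (fun c' => ?_) c q hq
  intro h0
  obtain ⟨v, hv, hgv⟩ := Matrix.exists_mulVec_eq_zero_iff.2 h0
  apply hdet
  rw [← Matrix.exists_mulVec_eq_zero_iff]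
  refine ⟨fun x => if h : x.1 = c' then v (Fin.cast (by rw [h]) x.2) else 0, ?_, ?_⟩
  · intro h2
    apply hv
    funext j
    have h3 := congrFun h2 ⟨c', j⟩
    simpa using h3
  · funext x
    obtain ⟨c1, i⟩ := x
    rw [h1, Matrix.mulVec, dotProduct]
    by_cases hc : c1 = c'
    · subst hc
      rw [Fintype.sum_sigma, Finset.sum_eq_single c1]
      · have h4 := congrFun hgv i
        rw [Matrix.mulVec, dotProduct] at h4
        have h4' : ∑ j, gc c1 i j * v j = 0 := h4
        change _ = (0 : F)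
        refine Eq.trans (Finset.sum_congr rfl fun j _ => ?_) h4'
        rw [bd, Matrix.blockDiagonal'_apply_eq]
        simp
      · intro c2 _ hc2
        refine Finset.sum_eq_zero fun j _ => ?_
        rw [bd, Matrix.blockDiagonal'_apply_ne _ _ _ (Ne.symm hc2), zero_mul]
      · simp
    · refine Finset.sum_eq_zero fun y _ => ?_
      obtain ⟨c2, j⟩ := y
      by_cases hc2 : c2 = c'
      · subst hc2
        rw [bd, Matrix.blockDiagonal'_apply_ne _ _ _ hc, zero_mul]
      · rw [dif_neg hc2, mul_zero]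

/-- The coefficients of the anticanonical class. -/
noncomputable def kap (V : ∀ c, Submodule F (Wd k d m c → F)) (c : Fin r) : ℝ :=
  (Module.finrank F (V c) : ℝ) - ∑ c', (k c' : ℝ) * wdeg V c' c / k c

theorem exists_tower_coords (V : ∀ c, Submodule F (Wd k d m c → F)) (hV : Stab V)
    (hk : ∀ c, 1 ≤ k c) : ∃ (N : ℕ) (ν : Fin N → Ix k d m),
      (∀ q ∈ TV V, (∀ i, q (ν i) = 0) → q = 0) ∧
      (∀ z : Fin N → F, ∃ q ∈ TV V, ∀ i, q (ν i) = z i) ∧
      ∀ l : Lt k → ℤ, ((∑ i, bw l (ν i) : ℤ) : ℝ) = ∑ c, kap V c * ∑ j, (l ⟨c, j⟩ : ℝ) := by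
  classical
  choose νc hinj hsurj using fun c => exists_coords (V c)
  set Y := (c : Fin r) × (Fin (k c) × Fin (Module.finrank F (V c))) with hY
  set e : Fin (Fintype.card Y) ≃ Y := (Fintype.equivFin Y).symm with he
  set ν0 : Y → Ix k d m := fun y => ⟨y.1, (y.2.1, νc y.1 y.2.2)⟩ with hν0
  refine ⟨Fintype.card Y, fun i => ν0 (e i), ?_, ?_, ?_⟩
  · intro q hq h0
    have h1 : ∀ y : Y, q (ν0 y) = 0 := by
      intro y
      have := h0 (e.symm y)
      simp only [Equiv.apply_symm_apply] at this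
      exact this
    funext i
    obtain ⟨c, j, w⟩ := i
    have h2 := hinj c _ (hq c j) fun i' => h1 ⟨c, (j, i')⟩
    exact congrFun h2 w
  · intro z
    choose qc hqc hqcz using fun (c : Fin r) (j : Fin (k c)) =>
      hsurj c fun i' => z (e.symm ⟨c, (j, i')⟩)
    refine ⟨fun i => qc i.1 i.2.1 i.2.2, fun c j => hqc c j, fun i => ?_⟩
    have h1 := hqcz (e i).1 (e i).2.1 (e i).2.2
    have h2 : (⟨(e i).1, ((e i).2.1, (e i).2.2)⟩ : Y) = e i := rfl
    rw [h2, Equiv.symm_apply_apply] at h1
    exact h1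
  · intro l
    have h1 : ∑ i, bw l (ν0 (e i)) = ∑ y, bw l (ν0 y) := e.sum_comp fun y => bw l (ν0 y)
    rw [h1]
    push_cast
    rw [Fintype.sum_sigma]
    -- the sums over the letters
    have hwt : ∀ (c : Fin r) (x : Lt k), (k x.1 : ℝ) * wt (νc c) x = wdeg V c x.1 := by
      intro c x
      have h2 : wdeg V c x.1 = ∑ i, dg x.1 (νc c i) :=
        sum_grd (V c) (dg x.1) (fun t ht q hq => stab_diag V hV c x.1 t ht q hq) (νc c) (hinj c)
          (hsurj c) (d c) (dg_le x.1)
      have h3 : ∑ i, dg x.1 (νc c i) = ∑ j, wt (νc c) ⟨x.1, j⟩ := by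
        simp only [wt]
        rw [Finset.sum_comm]
        refine Finset.sum_congr rfl fun i _ => ?_
        rw [← Finset.card_biUnion]
        · rw [dg]
          congr 1
          ext s
          simp only [Finset.mem_biUnion, Finset.mem_univ, true_and, Finset.mem_filter]
          constructor
          · intro h
            obtain ⟨c0, j0⟩ := x
            generalize hy : (νc c i).1 s = y at h
            obtain ⟨c', j'⟩ := y
            simp only at h
            subst h
            exact ⟨j', rfl⟩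
          · rintro ⟨j, hj⟩
            rw [hj]
        · intro j _ j' _ hjj
          refine Finset.disjoint_left.2 ?_
          intro s hs hs'
          have h4 : (νc c i).1 s = ⟨x.1, j⟩ := (Finset.mem_filter.1 hs).2
          have h5 : (νc c i).1 s = ⟨x.1, j'⟩ := (Finset.mem_filter.1 hs').2
          rw [h4] at h5
          simp at h5
          exact hjj h5
      have h4 : ∀ j, wt (νc c) ⟨x.1, j⟩ = wt (νc c) x := fun j =>
        wt_eq (Sigma.fst : Lt k → Fin r) (V c) (isBlock_stab V hV c) (νc c) (hinj c) (hsurj c) _ _ rfl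
      rw [h2, h3]
      simp only [h4]
      simp
    have hsum : ∀ c : Fin r, ∑ i, ∑ s, (l ((νc c i).1 s) : ℝ) = ∑ x : Lt k, (l x : ℝ) * wt (νc c) x := by
      intro c
      simp only [wt]
      push_cast
      simp only [Finset.mul_sum]
      conv_rhs => rw [Finset.sum_comm]
      refine Finset.sum_congr rfl fun i _ => ?_
      rw [← Finset.sum_fiberwise Finset.univ (fun s => (νc c i).1 s) (fun s => (l ((νc c i).1 s) : ℝ))]
      refine Finset.sum_congr rfl fun x _ => ?_
      rw [Finset.sum_congr rfl (g := fun _ => (l x : ℝ)) (fun s hs => by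
        rw [(Finset.mem_filter.1 hs).2]), Finset.sum_const, nsmul_eq_mul, mul_comm]
    have h5 : ∀ c : Fin r, ∑ y : Fin (k c) × Fin (Module.finrank F (V c)),
        ((bw l (ν0 ⟨c, y⟩) : ℤ) : ℝ) = (Module.finrank F (V c) : ℝ) * ∑ j, (l ⟨c, j⟩ : ℝ) -
          (k c : ℝ) * ∑ x : Lt k, (l x : ℝ) * wt (νc c) x := by
      intro c
      rw [Fintype.sum_prod_type]
      have e1 : ∀ (x : Fin (k c)) (i : Fin (Module.finrank F (V c))), bw l (ν0 ⟨c, (x, i)⟩) =
          l ⟨c, x⟩ - ∑ s, l ((νc c i).1 s) := fun _ _ => rfl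
      simp only [e1]
      push_cast
      simp only [Finset.sum_sub_distrib, Finset.sum_const, Finset.card_univ, Fintype.card_fin,
        nsmul_eq_mul]
      rw [← hsum c, ← Finset.mul_sum]
    simp only [h5, Finset.sum_sub_distrib]
    have h6 : ∀ c : Fin r, (k c : ℝ) * ∑ x : Lt k, (l x : ℝ) * wt (νc c) x =
        ∑ c0, ((k c : ℝ) * wdeg V c c0 / k c0) * ∑ j, (l ⟨c0, j⟩ : ℝ) := by
      intro c
      rw [Fintype.sum_sigma, Finset.mul_sum]
      refine Finset.sum_congr rfl fun c0 _ => ?_
      rw [Finset.mul_sum, Finset.mul_sum]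
      refine Finset.sum_congr rfl fun j _ => ?_
      have hk0 : (k c0 : ℝ) ≠ 0 := by
        have := hk c0
        positivity
      rw [← hwt c ⟨c0, j⟩]
      field_simp
    simp only [h6]
    rw [Finset.sum_comm (f := fun c c0 => ((k c : ℝ) * wdeg V c c0 / k c0) * ∑ j, (l ⟨c0, j⟩ : ℝ)),
      ← Finset.sum_sub_distrib]
    refine Finset.sum_congr rfl fun c _ => ?_
    rw [kap, sub_mul, Finset.sum_mul]

end Tower

end Pool.Agent.H71.TW
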