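import Mathlib

set_option autoImplicit false
set_option linter.all false

/-! Elementary facts on the integers of a number field. -/

namespace Pool.Agent.H71.TW

open NumberField

variable {F : Type} [Field F] [NumberField F]

theorem v_add (v : InfinitePlace F) (x y : F) : v (x + y) ≤ v x + v y := v.1.add_le x y

theorem v_neg (v : InfinitePlace F) (x : F) : v (-x) = v x := v.1.map_neg x

theorem v_sub (v : InfinitePlace F) (x y : F) : v (x - y) ≤ v x + v y := by
  have := v_add v x (-y)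
  rwa [v_neg, ← sub_eq_add_neg] at this

theorem v_sum {ι : Type*} (v : InfinitePlace F) (s : Finset ι) (f : ι → F) :
    v (∑ i ∈ s, f i) ≤ ∑ i ∈ s, v (f i) := by
  classical
  induction s using Finset.induction_on with
  | empty => simp
  | insert a s ha ih =>
    rw [Finset.sum_insert ha, Finset.sum_insert ha]
    exact (v_add v _ _).trans (by gcongr)

theorem v_two_zpow (v : InfinitePlace F) (n : ℤ) : v ((2 : F) ^ n) = 2 ^ n := by
  rw [map_zpow₀]
  congr 1
  have := InfinitePlace.map_natCast v 2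
  exact_mod_cast this

theorem v_nonneg (v : InfinitePlace F) (x : F) : 0 ≤ v x := apply_nonneg v x

theorem one_le_prod (x : F) (hx : x ≠ 0) (hi : IsIntegral ℤ x) :
    1 ≤ ∏ v : InfinitePlace F, v x ^ v.mult := by
  rw [InfinitePlace.prod_eq_abs_norm]
  have h1 : IsIntegral ℤ (Algebra.norm ℚ x) := Algebra.isIntegral_norm ℚ hi
  obtain ⟨z, hz⟩ := IsIntegrallyClosed.isIntegral_iff.1 h1
  have h2 : Algebra.norm ℚ x ≠ 0 := Algebra.norm_ne_zero_iff.2 hx
  have h3 : z ≠ 0 := by
    rintro rfl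
    apply h2
    rw [← hz, map_zero]
  have h4 : (1 : ℤ) ≤ |z| := Int.one_le_abs h3
  rw [← hz]
  have h5 : (((algebraMap ℤ ℚ) z : ℚ)) = (z : ℚ) := rfl
  rw [h5, ← Int.cast_abs]
  exact_mod_cast h4

theorem exists_one_le (x : F) (hx : x ≠ 0) (hi : IsIntegral ℤ x) : ∃ v : InfinitePlace F, 1 ≤ v x := by
  by_contra hcon
  push Not at hcon
  have h1 := one_le_prod x hx hi
  obtain ⟨v0⟩ : Nonempty (InfinitePlace F) := inferInstance
  have h2 : ∏ v : InfinitePlace F, v x ^ v.mult < 1 := by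
    rw [← Finset.prod_const_one (s := (Finset.univ : Finset (InfinitePlace F)))]
    refine Finset.prod_lt_prod_of_nonempty (fun v _ => pow_pos ((InfinitePlace.pos_iff).2 hx) _)
      (fun v _ => pow_lt_one₀ (v_nonneg v x) (hcon v) InfinitePlace.mult_ne_zero) ⟨v0, Finset.mem_univ _⟩
  linarith

/-- The degree. -/
noncomputable abbrev deg (F : Type) [Field F] [NumberField F] : ℕ := Module.finrank ℚ F

theorem prod_mult (F : Type) [Field F] [NumberField F] (c : ℝ) :
    ∏ v : InfinitePlace F, c ^ v.mult = c ^ deg F := by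
  rw [Finset.prod_pow_eq_pow_sum, InfinitePlace.sum_mult_eq]

/-! ### Coordinates -/

/-- A basis of the integers. -/
theorem exists_basis (F : Type) [Field F] [NumberField F] : ∃ (ω : Fin (deg F) → F) (C : ℝ), 1 ≤ C ∧
    (∀ i, IsIntegral ℤ (ω i)) ∧
    (∀ (x : Fin (deg F) → ℚ) (M : ℝ), (∀ i, |(x i : ℝ)| ≤ M) → ∀ v : InfinitePlace F,
      v (∑ i, (x i : F) * ω i) ≤ C * M) ∧
    (∀ (x : Fin (deg F) → ℚ) (M : ℝ), (∀ v : InfinitePlace F, v (∑ i, (x i : F) * ω i) ≤ M) → ∀ i,
      |(x i : ℝ)| ≤ C * M) ∧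
    (∀ y : F, ∃ x : Fin (deg F) → ℚ, y = ∑ i, (x i : F) * ω i) ∧
    (∀ y : F, IsIntegral ℤ y → ∃ x : Fin (deg F) → ℤ, y = ∑ i, (x i : F) * ω i) := by
  classical
  set b := integralBasis F with hb
  have hcard : Fintype.card (Module.Free.ChooseBasisIndex ℤ (𝓞 F)) = deg F := by
    rw [deg, Module.finrank_eq_card_basis b]
  set ε : Fin (deg F) ≃ Module.Free.ChooseBasisIndex ℤ (𝓞 F) := (Fintype.equivFinOfCardEq hcard).symm
  set b' : Module.Basis (Fin (deg F)) ℚ F := b.reindex ε.symm with hb'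
  have hb'i : ∀ i, IsIntegral ℤ (b' i) := by
    intro i
    rw [hb', Module.Basis.reindex_apply, hb, integralBasis_apply]
    exact RingOfIntegers.isIntegral_coe _
  have hsum : ∀ x : Fin (deg F) → ℚ, ∑ i, (x i : F) * b' i = ∑ i, x i • b' i := fun x =>
    Finset.sum_congr rfl fun i _ => (Rat.smul_def _ _).symm
  have hrepr : ∀ (x : Fin (deg F) → ℚ) i, b'.repr (∑ i, (x i : F) * b' i) i = x i := by
    intro x i
    rw [hsum, Module.Basis.repr_sum_self]
  -- the dual basis
  set bd := (Algebra.traceForm ℚ F).dualBasis (traceForm_nondegenerate ℚ F) b' with hbd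
  have hdual : ∀ (y : F) i, b'.repr y i = Algebra.trace ℚ F (y * bd i) := by
    intro y i
    conv_lhs => rw [← b'.sum_repr y]
    rw [Module.Basis.repr_sum_self]
    have h2 : Algebra.trace ℚ F (y * bd i) = Algebra.traceForm ℚ F y (bd i) := by
      rw [Algebra.traceForm_apply]
    rw [h2]
    conv_rhs => rw [← b'.sum_repr y]
    rw [map_sum, LinearMap.sum_apply]
    have h3 : ∀ j, Algebra.traceForm ℚ F (b' j) (bd i) = if j = i then 1 else 0 := by
      intro j
      have h4 := LinearMap.BilinForm.apply_dualBasis_left (B := Algebra.traceForm ℚ F)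
        (traceForm_nondegenerate ℚ F) b' i j
      have h5 : Algebra.traceForm ℚ F (b' j) (bd i) = Algebra.traceForm ℚ F (bd i) (b' j) := by
        rw [Algebra.traceForm_apply, Algebra.traceForm_apply, mul_comm]
      rw [h5, hbd, h4]
    simp only [map_smul, LinearMap.smul_apply, h3, smul_eq_mul, mul_ite, mul_one, mul_zero]
    simp
  set C1 : ℝ := ∑ v : InfinitePlace F, ∑ i, v (b' i) with hC1
  set C2 : ℝ := (deg F : ℝ) * ∑ v : InfinitePlace F, ∑ i, v (bd i) with hC2
  have hC10 : 0 ≤ C1 := Finset.sum_nonneg fun v _ => Finset.sum_nonneg fun i _ => v_nonneg _ _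
  have hC20 : 0 ≤ C2 := mul_nonneg (Nat.cast_nonneg _)
    (Finset.sum_nonneg fun v _ => Finset.sum_nonneg fun i _ => v_nonneg _ _)
  refine ⟨b', 1 + C1 + C2, by linarith, hb'i, ?_, ?_, ?_, ?_⟩
  · intro x M hx v
    have hM : 0 ≤ M := by
      obtain ⟨i⟩ : Nonempty (Fin (deg F)) := ⟨⟨0, Module.finrank_pos⟩⟩
      exact (abs_nonneg _).trans (hx i)
    have h1 : v (∑ i, (x i : F) * b' i) ≤ ∑ i, M * v (b' i) := by
      refine (v_sum v _ _).trans (Finset.sum_le_sum fun i _ => ?_)
      rw [map_mul, InfinitePlace.map_ratCast]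
      have h2 : ‖x i‖ ≤ M := by
        have h3 : ‖x i‖ = |(x i : ℝ)| := rfl
        rw [h3]
        exact hx i
      exact mul_le_mul_of_nonneg_right h2 (v_nonneg _ _)
    refine h1.trans ?_
    rw [← Finset.mul_sum]
    have h2 : ∑ i, v (b' i) ≤ C1 :=
      Finset.single_le_sum (f := fun v : InfinitePlace F => ∑ i, v (b' i))
        (fun v _ => Finset.sum_nonneg fun i _ => v_nonneg _ _) (Finset.mem_univ v)
    nlinarith
  · intro x M hx i
    have hM : 0 ≤ M := by
      obtain ⟨v⟩ : Nonempty (InfinitePlace F) := inferInstance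
      exact (v_nonneg _ _).trans (hx v)
    set y := ∑ i, (x i : F) * b' i with hy
    have h1 : x i = Algebra.trace ℚ F (y * bd i) := by
      rw [← hdual, hrepr]
    have h2 : (algebraMap ℚ ℂ) (x i) = ∑ σ : F →ₐ[ℚ] ℂ, σ (y * bd i) := by
      rw [h1]
      exact trace_eq_sum_embeddings ℂ
    have h3 : |(x i : ℝ)| ≤ ∑ _σ : F →ₐ[ℚ] ℂ, M * ∑ v : InfinitePlace F, ∑ i, v (bd i) := by
      have h4 : |(x i : ℝ)| = ‖(algebraMap ℚ ℂ) (x i)‖ := by
        rw [eq_ratCast]
        rw [← Complex.ofReal_ratCast, Complex.norm_real, Real.norm_eq_abs]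
      rw [h4, h2]
      refine (norm_sum_le _ _).trans (Finset.sum_le_sum fun σ _ => ?_)
      rw [map_mul, norm_mul]
      have h5 : ∀ z : F, ‖σ z‖ = (InfinitePlace.mk (σ : F →+* ℂ)) z := fun z => rfl
      rw [h5, h5]
      refine mul_le_mul (hx _) ?_ (v_nonneg _ _) hM
      have h6 : (InfinitePlace.mk (σ : F →+* ℂ)) (bd i) ≤ ∑ i, (InfinitePlace.mk (σ : F →+* ℂ)) (bd i) :=
        Finset.single_le_sum (f := fun i => (InfinitePlace.mk (σ : F →+* ℂ)) (bd i))
          (fun i _ => v_nonneg _ _) (Finset.mem_univ i)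
      exact h6.trans (Finset.single_le_sum (f := fun v : InfinitePlace F => ∑ i, v (bd i))
        (fun v _ => Finset.sum_nonneg fun i _ => v_nonneg _ _) (Finset.mem_univ _))
    refine h3.trans ?_
    rw [Finset.sum_const, Finset.card_univ, AlgHom.card, nsmul_eq_mul]
    have h7 : (deg F : ℝ) * (M * ∑ v : InfinitePlace F, ∑ i, v (bd i)) = C2 * M := by
      rw [hC2]
      ring
    change (deg F : ℝ) * (M * ∑ v : InfinitePlace F, ∑ i, v (bd i)) ≤ _
    rw [h7]
    nlinarith
  · intro y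
    refine ⟨fun i => b'.repr y i, ?_⟩
    rw [hsum, b'.sum_repr]
  · intro y hy
    have h1 : y ∈ Submodule.span ℤ (Set.range (integralBasis F)) := by
      rw [mem_span_integralBasis]
      exact ⟨⟨y, hy⟩, rfl⟩
    have h2 : Set.range (integralBasis F) = Set.range b' := by
      rw [hb', Module.Basis.range_reindex]
    rw [h2] at h1
    obtain ⟨c, hc⟩ := (Submodule.mem_span_range_iff_exists_fun ℤ).1 h1
    refine ⟨c, ?_⟩
    rw [← hc]
    refine Finset.sum_congr rfl fun i _ => ?_
    rw [zsmul_eq_mul]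

end Pool.Agent.H71.TW
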