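import Mathlib
import Pool.Agent.H71.TW.NF

set_option autoImplicit false
set_option linter.all false

/-! Rounding, Dirichlet approximation, units, boxes. -/

namespace Pool.Agent.H71.TW

open NumberField

theorem isIntegral_natCast {F : Type} [Field F] (n : ℕ) : IsIntegral ℤ (n : F) := by
  have := isIntegral_algebraMap (R := ℤ) (A := F) (x := (n : ℤ))
  simpa using this

theorem isIntegral_intCast {F : Type} [Field F] (n : ℤ) : IsIntegral ℤ (n : F) := by
  have := isIntegral_algebraMap (R := ℤ) (A := F) (x := n)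
  simpa using this

theorem exists_round (F : Type) [Field F] [NumberField F] : ∃ C : ℝ, 1 ≤ C ∧ ∀ x : F, ∃ o : F,
    IsIntegral ℤ o ∧ ∀ v : InfinitePlace F, v (x - o) ≤ C := by
  obtain ⟨ω, C, hC, hω, h1, h2, h3, h4⟩ := exists_basis F
  refine ⟨C, hC, fun x => ?_⟩
  obtain ⟨y, rfl⟩ := h3 x
  refine ⟨∑ i, ((⌊y i⌋ : ℤ) : F) * ω i, ?_, fun v => ?_⟩
  · exact IsIntegral.sum _ fun i _ => (isIntegral_intCast _).mul (hω i)
  · have h5 : ∑ i, (y i : F) * ω i - ∑ i, ((⌊y i⌋ : ℤ) : F) * ω i =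
        ∑ i, ((Int.fract (y i) : ℚ) : F) * ω i := by
      rw [← Finset.sum_sub_distrib]
      refine Finset.sum_congr rfl fun i _ => ?_
      rw [← sub_mul, Int.fract]
      push_cast
      rfl
    rw [h5]
    have h6 := h1 (fun i => Int.fract (y i)) 1 (fun i => by
      rw [abs_of_nonneg (by exact_mod_cast Int.fract_nonneg (y i))]
      exact_mod_cast (Int.fract_lt_one (y i)).le) v
    rwa [mul_one] at h6

/-- Simultaneous approximation. -/
theorem exists_dirichlet (F : Type) [Field F] [NumberField F] : ∃ C : ℝ, 1 ≤ C ∧ ∀ (Q : ℕ), 0 < Q →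
    ∀ x : F, ∃ (j : ℕ) (o : F), 0 < j ∧ j ≤ Q ^ deg F ∧
    IsIntegral ℤ o ∧ ∀ v : InfinitePlace F, v (j * x - o) ≤ C / Q := by
  classical
  obtain ⟨ω, C, hC, hω, h1, h2, h3, h4⟩ := exists_basis F
  refine ⟨C, hC, fun Q hQ x => ?_⟩
  obtain ⟨y, rfl⟩ := h3 x
  have hQ0 : (0 : ℚ) < Q := by exact_mod_cast hQ
  -- the pigeonhole
  have hlt : ∀ t : ℚ, (⌊(Q : ℚ) * Int.fract t⌋).toNat < Q := by
    intro t
    have h5 : ⌊(Q : ℚ) * Int.fract t⌋ < (Q : ℤ) := by
      rw [Int.floor_lt]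
      have := Int.fract_lt_one t
      push_cast
      nlinarith
    omega
  have hfr0 : ∀ t : ℚ, 0 ≤ ⌊(Q : ℚ) * Int.fract t⌋ := fun t =>
    Int.floor_nonneg.2 (mul_nonneg hQ0.le (Int.fract_nonneg t))
  set φ : Fin (Q ^ deg F + 1) → (Fin (deg F) → Fin Q) := fun j i =>
    ⟨(⌊(Q : ℚ) * Int.fract ((j : ℕ) * y i)⌋).toNat, hlt _⟩ with hφ
  obtain ⟨j1, j2, hlt', heq⟩ : ∃ j1 j2 : Fin (Q ^ deg F + 1), (j1 : ℕ) < (j2 : ℕ) ∧ φ j1 = φ j2 := by
    obtain ⟨j1, j2, hne, heq⟩ := Fintype.exists_ne_map_eq_of_card_lt φ (by simp)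
    rcases lt_trichotomy (j1 : ℕ) (j2 : ℕ) with h | h | h
    · exact ⟨j1, j2, h, heq⟩
    · exact absurd (Fin.ext h) hne
    · exact ⟨j2, j1, h, heq.symm⟩
  have hj2 := j2.2
  refine ⟨(j2 : ℕ) - (j1 : ℕ), ∑ i, ((⌊((j2 : ℕ) : ℚ) * y i⌋ - ⌊((j1 : ℕ) : ℚ) * y i⌋ : ℤ) : F) * ω i,
    by omega, by omega, IsIntegral.sum _ fun i _ => (isIntegral_intCast _).mul (hω i), fun v => ?_⟩
  have h5 : (((j2 : ℕ) - (j1 : ℕ) : ℕ) : F) * ∑ i, (y i : F) * ω i -
      ∑ i, ((⌊((j2 : ℕ) : ℚ) * y i⌋ - ⌊((j1 : ℕ) : ℚ) * y i⌋ : ℤ) : F) * ω i =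
      ∑ i, ((Int.fract (((j2 : ℕ) : ℚ) * y i) - Int.fract (((j1 : ℕ) : ℚ) * y i) : ℚ) : F) * ω i := by
    rw [Finset.mul_sum, ← Finset.sum_sub_distrib]
    refine Finset.sum_congr rfl fun i _ => ?_
    rw [Nat.cast_sub hlt'.le, Int.fract, Int.fract]
    push_cast
    ring
  rw [h5]
  have h6 := h1 (fun i => Int.fract (((j2 : ℕ) : ℚ) * y i) - Int.fract (((j1 : ℕ) : ℚ) * y i)) (1 / Q)
    (fun i => ?_) v
  · rw [mul_one_div] at h6
    exact h6
  · have h7 := congrFun heq i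
    simp only [hφ, Fin.mk.injEq] at h7
    have h8 : ⌊(Q : ℚ) * Int.fract (((j1 : ℕ) : ℚ) * y i)⌋ = ⌊(Q : ℚ) * Int.fract (((j2 : ℕ) : ℚ) * y i)⌋ := by
      have h9 := hfr0 (((j1 : ℕ) : ℚ) * y i)
      have h10 := hfr0 (((j2 : ℕ) : ℚ) * y i)
      omega
    have h11 := Int.abs_sub_lt_one_of_floor_eq_floor h8
    have h12 : |Int.fract (((j2 : ℕ) : ℚ) * y i) - Int.fract (((j1 : ℕ) : ℚ) * y i)| ≤ 1 / (Q : ℚ) := by
      rw [← mul_sub, abs_mul, abs_of_pos hQ0] at h11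
      rw [le_div_iff₀ hQ0, abs_sub_comm]
      linarith
    have h13 : ((|Int.fract (((j2 : ℕ) : ℚ) * y i) - Int.fract (((j1 : ℕ) : ℚ) * y i)| : ℚ) : ℝ) ≤
        ((1 / (Q : ℚ) : ℚ) : ℝ) := by exact_mod_cast h12
    push_cast at h13
    push_cast
    exact h13

/-- Integers which are small at all places but one. -/
theorem exists_balance (F : Type) [Field F] [NumberField F] : ∃ C : ℝ, 1 ≤ C ∧
    ∀ v0 : InfinitePlace F, ∃ α : F, α ≠ 0 ∧ IsIntegral ℤ α ∧ v0 α ≤ C ∧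
      ∀ v : InfinitePlace F, v ≠ v0 → v α ≤ 1 / 2 := by
  classical
  have h1 : ∀ v0 : InfinitePlace F, ∃ α : F, α ≠ 0 ∧ IsIntegral ℤ α ∧
      ∀ v : InfinitePlace F, v ≠ v0 → v α ≤ 1 / 2 := by
    intro v0
    obtain ⟨u, hu⟩ := Units.dirichletUnitTheorem.exists_unit F v0
    have hu0 : ((u : 𝓞 F) : F) ≠ 0 := by
      simp
    have hlt : ∀ v : InfinitePlace F, v ≠ v0 → v ((u : 𝓞 F) : F) < 1 := by
      intro v hv
      have h2 := hu v hv
      by_contra hcon
      push Not at hcon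
      have := Real.log_nonneg hcon
      linarith
    have h3 : ∀ v : InfinitePlace F, ∃ N : ℕ, v ≠ v0 → (v ((u : 𝓞 F) : F)) ^ N < 1 / 2 := by
      intro v
      by_cases hv : v = v0
      · exact ⟨0, fun h => absurd hv h⟩
      · obtain ⟨N, hN⟩ := exists_pow_lt_of_lt_one (by norm_num : (0 : ℝ) < 1 / 2) (hlt v hv)
        exact ⟨N, fun _ => hN⟩
    choose N hN using h3
    refine ⟨((u : 𝓞 F) : F) ^ (∑ v, N v), pow_ne_zero _ hu0,
      (RingOfIntegers.isIntegral_coe _).pow _, fun v hv => ?_⟩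
    rw [map_pow]
    have h4 : N v ≤ ∑ v, N v := Finset.single_le_sum (fun _ _ => Nat.zero_le _) (Finset.mem_univ v)
    exact (pow_le_pow_of_le_one (v_nonneg _ _) (hlt v hv).le h4).trans (hN v hv).le
  choose α h2 h3 h4 using h1
  refine ⟨1 + ∑ v0 : InfinitePlace F, v0 (α v0), ?_, fun v0 => ⟨α v0, h2 v0, h3 v0, ?_, h4 v0⟩⟩
  · have : 0 ≤ ∑ v0 : InfinitePlace F, v0 (α v0) := Finset.sum_nonneg fun v _ => v_nonneg _ _
    linarith
  · have : v0 (α v0) ≤ ∑ v0 : InfinitePlace F, v0 (α v0) :=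
      Finset.single_le_sum (f := fun v : InfinitePlace F => v (α v)) (fun v _ => v_nonneg _ _)
        (Finset.mem_univ v0)
    linarith

/-- Weak approximation. -/
theorem exists_approx {F : Type} [Field F] [NumberField F] (t : InfinitePlace F → F) (δ : ℝ)
    (hδ : 0 < δ) : ∃ s : F, ∀ v : InfinitePlace F, v (s - t v) < δ := by
  have h := InfinitePlace.denseRange_algebraMap_pi F
  set z : (v : InfinitePlace F) → WithAbs v.1 := fun v => WithAbs.toAbs v.1 (t v) with hz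
  obtain ⟨s, hs⟩ := Metric.denseRange_iff.1 h z δ hδ
  refine ⟨s, fun v => ?_⟩
  have h1 := (dist_pi_lt_iff hδ).1 hs v
  rw [dist_comm, dist_eq_norm, WithAbs.norm_eq_apply_ofAbs] at h1
  exact h1

/-- The number of integers of bounded size. -/
theorem exists_box_upper (F : Type) [Field F] [NumberField F] : ∃ C : ℝ, 1 ≤ C ∧ ∀ (R : ℝ),
    {x : F | IsIntegral ℤ x ∧ ∀ v : InfinitePlace F, v x ≤ R}.Finite ∧
    ({x : F | IsIntegral ℤ x ∧ ∀ v : InfinitePlace F, v x ≤ R}.ncard : ℝ) ≤ C * (max 1 R) ^ deg F := by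
  classical
  obtain ⟨ω, C, hC, hω, h1, h2, h3, h4⟩ := exists_basis F
  refine ⟨(3 * C) ^ deg F, one_le_pow₀ (by linarith), fun R => ?_⟩
  set T : ℝ := max 1 R with hT
  have hT1 : 1 ≤ T := le_max_left _ _
  set m : ℤ := ⌊C * T⌋ with hm
  have hm0 : 0 ≤ m := Int.floor_nonneg.2 (by positivity)
  set B : Finset (Fin (deg F) → ℤ) := Fintype.piFinset fun _ => Finset.Icc (-m) m with hB
  set ψ : (Fin (deg F) → ℤ) → F := fun x => ∑ i, (x i : F) * ω i with hψ
  have hsub : {x : F | IsIntegral ℤ x ∧ ∀ v : InfinitePlace F, v x ≤ R} ⊆ ↑(B.image ψ) := by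
    rintro x ⟨hx, hv⟩
    obtain ⟨z, rfl⟩ := h4 x hx
    rw [Finset.coe_image]
    refine ⟨z, ?_, rfl⟩
    rw [Finset.mem_coe, hB, Fintype.mem_piFinset]
    intro i
    have h5 := h2 (fun i => (z i : ℚ)) T (fun v => by
      have := (hv v).trans (le_max_right 1 R)
      push_cast
      exact this) i
    rw [Finset.mem_Icc, ← abs_le]
    rw [hm, Int.le_floor]
    push_cast
    push_cast at h5
    exact h5
  refine ⟨(Finset.finite_toSet _).subset hsub, ?_⟩
  have h5 : ({x : F | IsIntegral ℤ x ∧ ∀ v : InfinitePlace F, v x ≤ R}.ncard : ℝ) ≤ (B.card : ℝ) := by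
    have h6 := Set.ncard_le_ncard hsub (Finset.finite_toSet _)
    rw [Set.ncard_coe_finset] at h6
    exact_mod_cast h6.trans Finset.card_image_le
  refine h5.trans ?_
  rw [hB, Fintype.card_piFinset]
  simp only [Int.card_Icc, Finset.prod_const, Finset.card_univ, Fintype.card_fin]
  push_cast
  rw [← mul_pow]
  gcongr
  have h7 : ((m + 1 - -m).toNat : ℝ) = 2 * m + 1 := by
    have h8 : ((m + 1 - -m).toNat : ℤ) = 2 * m + 1 := by
      rw [Int.toNat_of_nonneg (by omega)]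
      ring
    exact_mod_cast h8
  rw [h7]
  have h8 : (m : ℝ) ≤ C * T := Int.floor_le _
  have h9 : 1 ≤ C * T := one_le_mul_of_one_le_of_one_le hC hT1
  nlinarith

/-- Lower bound for the number of integers of bounded size. -/
theorem exists_box_lower (F : Type) [Field F] [NumberField F] : ∃ C : ℝ, 1 ≤ C ∧ ∀ (R : ℝ), 0 ≤ R →
    ∃ S : Finset F, (∀ x ∈ S, IsIntegral ℤ x ∧ ∀ v : InfinitePlace F, v x ≤ R) ∧
    R ^ deg F ≤ C * S.card := by
  classical
  obtain ⟨ω, C, hC, hω, h1, h2, h3, h4⟩ := exists_basis F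
  refine ⟨C ^ deg F, one_le_pow₀ hC, fun R hR => ?_⟩
  set m : ℕ := ⌊R / C⌋₊ with hm
  set B : Finset (Fin (deg F) → ℕ) := Fintype.piFinset fun _ => Finset.range (m + 1) with hB
  set ψ : (Fin (deg F) → ℕ) → F := fun x => ∑ i, (x i : F) * ω i with hψ
  have hinj : Function.Injective ψ := by
    intro x y hxy
    funext i
    have h5 := h2 (fun i => (x i : ℚ) - (y i : ℚ)) 0 (fun v => by
      have h6 : ∑ i, (((x i : ℚ) - (y i : ℚ) : ℚ) : F) * ω i = ψ x - ψ y := by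
        rw [hψ]
        simp only
        rw [← Finset.sum_sub_distrib]
        refine Finset.sum_congr rfl fun i _ => ?_
        push_cast
        ring
      rw [h6, hxy, sub_self, map_zero]) i
    rw [mul_zero] at h5
    have h7 := abs_eq_zero.1 (le_antisymm h5 (abs_nonneg _))
    push_cast at h7
    have h8 : (x i : ℝ) = (y i : ℝ) := by linarith
    exact_mod_cast h8
  refine ⟨B.image ψ, ?_, ?_⟩
  · intro x hx
    obtain ⟨z, hz, rfl⟩ := Finset.mem_image.1 hx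
    refine ⟨IsIntegral.sum _ fun i _ => (isIntegral_natCast _).mul (hω i), fun v => ?_⟩
    have h5 := h1 (fun i => (z i : ℚ)) m (fun i => by
      have h6 := Fintype.mem_piFinset.1 hz i
      rw [Finset.mem_range, Nat.lt_succ_iff] at h6
      push_cast
      rw [abs_of_nonneg (Nat.cast_nonneg _)]
      exact_mod_cast h6) v
    push_cast at h5
    refine h5.trans ?_
    have h7 : (m : ℝ) ≤ R / C := Nat.floor_le (by positivity)
    calc C * (m : ℝ) ≤ C * (R / C) := by gcongr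
      _ = R := by field_simp
  · rw [Finset.card_image_of_injective _ hinj, hB, Fintype.card_piFinset]
    simp only [Finset.card_range, Finset.prod_const, Finset.card_univ, Fintype.card_fin]
    push_cast
    rw [← mul_pow]
    gcongr
    have h7 : R / C < m + 1 := Nat.lt_floor_add_one _
    rw [div_lt_iff₀ (by linarith)] at h7
    linarith

end Pool.Agent.H71.TW
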