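import Mathlib
import Pool.Agent.H71.TW.NF2

set_option autoImplicit false
set_option linter.all false

/-! Reduction theory for lattices over the integers of a number field. -/

namespace Pool.Agent.H71.TW

open NumberField

variable {F : Type} [Field F] [NumberField F]

/-- A family of norms, one for each infinite place, and a lattice. -/
structure NFam (V : Type) [AddCommGroup V] [Module F V] (N : InfinitePlace F → V → ℝ)
    (Λ : Set V) : Prop where
  nonneg : ∀ v x, 0 ≤ N v x
  add : ∀ v x y, N v (x + y) ≤ N v x + N v y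
  smul : ∀ v (a : F) x, N v (a • x) = v a * N v x
  latadd : ∀ x ∈ Λ, ∀ y ∈ Λ, x + y ∈ Λ
  latsmul : ∀ a : F, IsIntegral ℤ a → ∀ x ∈ Λ, a • x ∈ Λ
  span : ∀ x : V, ∃ n : ℕ, 0 < n ∧ (n : F) • x ∈ Λ
  fin : ∀ R : ℝ, {x | x ∈ Λ ∧ ∀ v, N v x ≤ R}.Finite

section Quot

variable {V : Type} [AddCommGroup V] [Module F V] {N : InfinitePlace F → V → ℝ} {Λ : Set V}

theorem NFam.zero (h : NFam V N Λ) (v : InfinitePlace F) : N v 0 = 0 := by
  have := h.smul v 0 0
  rwa [zero_smul, map_zero, zero_mul] at this

theorem NFam.sum {ι : Type*} (h : NFam V N Λ) (v : InfinitePlace F) (s : Finset ι) (f : ι → V) :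
    N v (∑ i ∈ s, f i) ≤ ∑ i ∈ s, N v (f i) := by
  classical
  induction s using Finset.induction_on with
  | empty => simp [h.zero]
  | insert a s ha ih =>
    rw [Finset.sum_insert ha, Finset.sum_insert ha]
    exact (h.add v _ _).trans (by gcongr)

theorem NFam.zero_mem (h : NFam V N Λ) : (0 : V) ∈ Λ := by
  obtain ⟨n, -, hn⟩ := h.span 0
  rwa [smul_zero] at hn

theorem NFam.lat_sum {ι : Type*} (h : NFam V N Λ) (s : Finset ι) (f : ι → V)
    (hf : ∀ i ∈ s, f i ∈ Λ) : ∑ i ∈ s, f i ∈ Λ := by
  classical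
  induction s using Finset.induction_on with
  | empty => simpa using h.zero_mem
  | insert a s ha ih =>
    rw [Finset.sum_insert ha]
    exact h.latadd _ (hf a (Finset.mem_insert_self _ _)) _
      (ih fun i hi => hf i (Finset.mem_insert_of_mem hi))

theorem NFam.lat_neg (h : NFam V N Λ) (x : V) (hx : x ∈ Λ) : -x ∈ Λ := by
  have := h.latsmul (-1) (by simpa using isIntegral_intCast (F := F) (-1)) x hx
  rwa [neg_one_smul] at this

/-- The quotient norm. -/
noncomputable def qN (N : InfinitePlace F → V → ℝ) (b1 : V) (v : InfinitePlace F)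
    (x : V ⧸ Submodule.span F {b1}) : ℝ :=
  sInf ((N v) '' {w | (Submodule.span F {b1}).mkQ w = x})

theorem qN_le (h : NFam V N Λ) (b1 : V) (v : InfinitePlace F) (w : V) :
    qN N b1 v ((Submodule.span F {b1}).mkQ w) ≤ N v w :=
  csInf_le ⟨0, by rintro _ ⟨y, _, rfl⟩; exact h.nonneg v y⟩ ⟨w, rfl, rfl⟩

theorem qN_nonneg (h : NFam V N Λ) (b1 : V) (v : InfinitePlace F)
    (x : V ⧸ Submodule.span F {b1}) : 0 ≤ qN N b1 v x :=
  Real.sInf_nonneg (by rintro _ ⟨y, _, rfl⟩; exact h.nonneg v y)

theorem exists_near (h : NFam V N Λ) (b1 : V) (v : InfinitePlace F)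
    (x : V ⧸ Submodule.span F {b1}) (η : ℝ) (hη : 0 < η) :
    ∃ w, (Submodule.span F {b1}).mkQ w = x ∧ N v w < qN N b1 v x + η := by
  have hne : ((N v) '' {w | (Submodule.span F {b1}).mkQ w = x}).Nonempty := by
    obtain ⟨w, hw⟩ := Submodule.mkQ_surjective _ x
    exact ⟨_, w, hw, rfl⟩
  obtain ⟨_, ⟨w, hw, rfl⟩, hlt⟩ := Real.lt_sInf_add_pos hne hη
  exact ⟨w, hw, hlt⟩

theorem exists_lift (h : NFam V N Λ) (b1 : V) (w : V) (η : ℝ) (hη : 0 < η) :
    ∃ t : F, ∀ v, N v (w + t • b1) ≤ qN N b1 v ((Submodule.span F {b1}).mkQ w) + η := by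
  classical
  have h1 : ∀ v, ∃ t : F, N v (w + t • b1) < qN N b1 v ((Submodule.span F {b1}).mkQ w) + η / 2 := by
    intro v
    obtain ⟨w', hw', hlt⟩ := exists_near h b1 v ((Submodule.span F {b1}).mkQ w) (η / 2) (by linarith)
    have h2 : w' - w ∈ Submodule.span F {b1} := by
      rw [← Submodule.ker_mkQ (Submodule.span F {b1}), LinearMap.mem_ker, map_sub, hw', sub_self]
    obtain ⟨t, ht⟩ := Submodule.mem_span_singleton.1 h2
    refine ⟨t, ?_⟩
    rw [ht, add_sub_cancel]
    exact hlt
  choose t ht using h1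
  set S : ℝ := ∑ v, N v b1 with hS
  have hS0 : 0 ≤ S := Finset.sum_nonneg fun v _ => h.nonneg v b1
  obtain ⟨s, hs⟩ := exists_approx t (η / (2 * (1 + S))) (by positivity)
  refine ⟨s, fun v => ?_⟩
  have h2 : w + s • b1 = (w + t v • b1) + (s - t v) • b1 := by
    rw [sub_smul]
    abel
  rw [h2]
  have h3 := h.add v (w + t v • b1) ((s - t v) • b1)
  rw [h.smul] at h3
  have h4 : N v b1 ≤ S := Finset.single_le_sum (f := fun v => N v b1) (fun v _ => h.nonneg v b1)
    (Finset.mem_univ v)
  have h5 : v (s - t v) * N v b1 ≤ η / 2 := by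
    calc v (s - t v) * N v b1 ≤ (η / (2 * (1 + S))) * S :=
          mul_le_mul (hs v).le h4 (h.nonneg _ _) (by positivity)
      _ ≤ (η / (2 * (1 + S))) * (1 + S) := by gcongr; linarith
      _ = η / 2 := by field_simp
  linarith [ht v]

theorem quot_fam (h : NFam V N Λ) (b1 : V) (hb1 : b1 ∈ Λ) :
    NFam (V ⧸ Submodule.span F {b1}) (qN N b1) ((Submodule.span F {b1}).mkQ '' Λ) := by
  classical
  set π := (Submodule.span F {b1}).mkQ with hπ
  have hzero : ∀ v, qN N b1 v 0 = 0 := by
    intro v
    refine le_antisymm ?_ (qN_nonneg h b1 v 0)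
    have := qN_le h b1 v 0
    rwa [map_zero, h.zero] at this
  have hle : ∀ v (a : F) x, qN N b1 v (a • x) ≤ v a * qN N b1 v x := by
    intro v a x
    refine le_of_forall_pos_le_add fun ε hε => ?_
    have hva : 0 ≤ v a := v_nonneg v a
    obtain ⟨w, hw, hlt⟩ := exists_near h b1 v x (ε / (1 + v a)) (by positivity)
    have h1 := qN_le h b1 v (a • w)
    rw [map_smul, hw, h.smul] at h1
    refine h1.trans ?_
    have h2 : v a * (ε / (1 + v a)) ≤ ε := by
      rw [← mul_div_assoc, div_le_iff₀ (by positivity)]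
      nlinarith
    nlinarith
  refine ⟨fun v x => qN_nonneg h b1 v x, ?_, ?_, ?_, ?_, ?_, ?_⟩
  · intro v x y
    refine le_of_forall_pos_le_add fun ε hε => ?_
    obtain ⟨w, hw, hlt⟩ := exists_near h b1 v x (ε / 2) (by linarith)
    obtain ⟨w', hw', hlt'⟩ := exists_near h b1 v y (ε / 2) (by linarith)
    have h1 := qN_le h b1 v (w + w')
    rw [map_add, hw, hw'] at h1
    linarith [h.add v w w']
  · intro v a x
    by_cases ha : a = 0
    · rw [ha, zero_smul, map_zero, zero_mul, hzero]
    · refine le_antisymm (hle v a x) ?_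
      have h1 := hle v a⁻¹ (a • x)
      rw [smul_smul, inv_mul_cancel₀ ha, one_smul, map_inv₀] at h1
      have h2 : 0 < v a := InfinitePlace.pos_iff.2 ha
      calc v a * qN N b1 v x ≤ v a * ((v a)⁻¹ * qN N b1 v (a • x)) := by gcongr
        _ = qN N b1 v (a • x) := by field_simp
  · rintro _ ⟨x, hx, rfl⟩ _ ⟨y, hy, rfl⟩
    exact ⟨x + y, h.latadd _ hx _ hy, map_add _ _ _⟩
  · rintro a ha _ ⟨x, hx, rfl⟩
    exact ⟨a • x, h.latsmul a ha _ hx, map_smul _ _ _⟩
  · intro x
    obtain ⟨w, rfl⟩ := Submodule.mkQ_surjective _ x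
    obtain ⟨n, hn, hnw⟩ := h.span w
    exact ⟨n, hn, _, hnw, map_smul _ _ _⟩
  · intro R
    obtain ⟨Cr, hCr, hround⟩ := exists_round F
    set S : ℝ := ∑ v, N v b1 with hS
    refine ((h.fin (R + 1 + Cr * S)).image π).subset ?_
    rintro _ ⟨⟨w, hw, rfl⟩, hR⟩
    obtain ⟨t, ht⟩ := exists_lift h b1 w 1 one_pos
    obtain ⟨o, ho, hto⟩ := hround t
    have hmk : π (w + o • b1) = π w := by
      rw [map_add, map_smul]
      have : π b1 = 0 := by
        rw [hπ, Submodule.mkQ_apply, Submodule.Quotient.mk_eq_zero]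
        exact Submodule.mem_span_singleton_self b1
      rw [this, smul_zero, add_zero]
    refine ⟨w + o • b1, ⟨h.latadd _ hw _ (h.latsmul o ho _ hb1), fun v => ?_⟩, hmk⟩
    have h2 : w + o • b1 = (w + t • b1) + (o - t) • b1 := by
      rw [sub_smul]
      abel
    rw [h2]
    have h3 := h.add v (w + t • b1) ((o - t) • b1)
    rw [h.smul] at h3
    have h4 : N v b1 ≤ S := Finset.single_le_sum (f := fun v => N v b1) (fun v _ => h.nonneg v b1)
      (Finset.mem_univ v)
    have h5 : v (o - t) ≤ Cr := by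
      have := hto v
      rwa [← neg_sub, v_neg] at this
    have h6 : v (o - t) * N v b1 ≤ Cr * S := mul_le_mul h5 h4 (h.nonneg _ _) (by linarith)
    linarith [ht v, hR v]

end Quot

theorem exists_red_abs (F : Type) [Field F] [NumberField F] (k : ℕ) :
    ∃ (C : ℝ) (D : ℕ), 1 ≤ C ∧ 0 < D ∧ ∀ (V : Type) [AddCommGroup V] [Module F V]
      [Module.Finite F V] (_ : Module.finrank F V = k) (N : InfinitePlace F → V → ℝ) (Λ : Set V)
      (_ : NFam V N Λ), ∃ (b : Fin k → V) (l : Fin k → ℤ), (∀ a, b a ∈ Λ) ∧ Monotone l ∧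
      (∀ v a, N v (b a) ≤ C * 2 ^ l a) ∧ (∀ x : V, ∃ y : Fin k → F, x = ∑ a, y a • b a) ∧
      (∀ v (y : Fin k → F) a, v (y a) * 2 ^ l a ≤ C * N v (∑ a, y a • b a)) ∧
      ∀ y : Fin k → F, (∑ a, y a • b a) ∈ Λ → ∀ a, IsIntegral ℤ ((D : F) * y a) := by
  classical
  induction k with
  | zero =>
    refine ⟨1, 1, le_rfl, one_pos, ?_⟩
    intro V _ _ _ hV N Λ h
    have : Subsingleton V := Module.finrank_zero_iff.1 hV
    exact ⟨fun a => a.elim0, fun a => a.elim0, fun a => a.elim0, fun a => a.elim0,
      fun v a => a.elim0, fun x => ⟨fun a => a.elim0, Subsingleton.elim _ _⟩,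
      fun v y a => a.elim0, fun y _ a => a.elim0⟩
  | succ k ih =>
    obtain ⟨Ck, Dk, hCk, hDk, hih⟩ := ih
    obtain ⟨Cr, hCr, hround⟩ := exists_round F
    obtain ⟨Cd, hCd, hdir⟩ := exists_dirichlet F
    obtain ⟨Cb, hCb, hbal⟩ := exists_balance F
    -- the constants
    obtain ⟨Q, hQ⟩ : ∃ Q : ℕ, 2 * Cd < Q := exists_nat_gt _
    have hQ0 : (0 : ℝ) < Q := by linarith
    have hQn : 0 < Q := by exact_mod_cast hQ0
    have hCdQ : Cd / Q ≤ 1 / 2 := by
      rw [div_le_iff₀ hQ0]
      linarith
    set q : ℝ := (Q : ℝ) ^ deg F with hq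
    have hq1 : 1 ≤ q := one_le_pow₀ (by exact_mod_cast hQn)
    set P : ℝ := (Fintype.card (InfinitePlace F) : ℝ) with hP
    have hP1 : 1 ≤ P := by
      have : 0 < Fintype.card (InfinitePlace F) := Fintype.card_pos
      rw [hP]
      exact_mod_cast this
    set ε : ℝ := 1 / (4 * q) with hε
    have hε0 : 0 < ε := by positivity
    set ε' : ℝ := ε / (P * Ck) with hε'
    have hε'0 : 0 < ε' := by positivity
    have hε'1 : ε' ≤ 1 := by
      rw [hε', hε, div_div, div_le_one (by positivity)]
      have : 1 ≤ P * Ck := one_le_mul_of_one_le_of_one_le hP1 hCk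
      nlinarith
    set Ca : ℝ := Ck + (1 + Cr) * (2 / ε') with hCa
    have hCa0 : 0 ≤ Ca := by positivity
    set C : ℝ := Ca + 2 / ε' + Ck + 2 * Cb * (1 + k * (Ca * Ck)) with hC
    have hpos1 : 0 ≤ 2 / ε' := by positivity
    have hpos2 : 0 ≤ 2 * Cb * (1 + k * (Ca * Ck)) := by positivity
    refine ⟨C, (Q ^ deg F).factorial * Dk, by linarith, Nat.mul_pos (Nat.factorial_pos _) hDk, ?_⟩
    intro V _ _ _ hV N Λ h
    -- the shortest vector
    have hμpos : ∀ w ∈ Λ, w ≠ 0 → 0 < ∑ v, N v w := by
      intro w hw hw0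
      by_contra hcon
      have h0 : ∑ v, N v w = 0 := le_antisymm (not_lt.1 hcon)
        (Finset.sum_nonneg fun v _ => h.nonneg v w)
      have h1 : ∀ v, N v w = 0 := fun v =>
        (Finset.sum_eq_zero_iff_of_nonneg fun v _ => h.nonneg v w).1 h0 v (Finset.mem_univ v)
      have h2 := h.fin 0
      refine Set.infinite_of_injective_forall_mem (f := fun n : ℕ => (n : F) • w) ?_ ?_ h2
      · intro n m hnm
        simp only at hnm
        rw [← sub_eq_zero, ← sub_smul, smul_eq_zero] at hnm
        rcases hnm with h3 | h3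
        · exact_mod_cast sub_eq_zero.1 h3
        · exact absurd h3 hw0
      · intro n
        refine ⟨h.latsmul _ (isIntegral_natCast n) _ hw, fun v => ?_⟩
        rw [h.smul, h1, mul_zero]
    obtain ⟨b1, hb1Λ, hb10, hmin⟩ : ∃ b1 ∈ Λ, b1 ≠ 0 ∧ ∀ w ∈ Λ, w ≠ 0 → ∑ v, N v b1 ≤ ∑ v, N v w := by
      have : Nontrivial V := Module.nontrivial_of_finrank_pos (R := F) (by rw [hV]; omega)
      obtain ⟨x, hx⟩ := exists_ne (0 : V)
      obtain ⟨n, hn, hnx⟩ := h.span x
      have hnx0 : (n : F) • x ≠ 0 := smul_ne_zero (by exact_mod_cast hn.ne') hx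
      set T := {w | w ∈ Λ ∧ ∀ v, N v w ≤ ∑ v, N v ((n : F) • x)} with hT
      have hTf := h.fin (∑ v, N v ((n : F) • x))
      have hTf' : (T \ {0}).Finite := hTf.subset Set.diff_subset
      obtain ⟨b, hb, hbm⟩ := Set.exists_min_image (T \ {0}) (fun w => ∑ v, N v w) hTf'
        ⟨(n : F) • x, ⟨hnx, fun v => Finset.single_le_sum (f := fun v => N v ((n : F) • x))
          (fun v _ => h.nonneg v _) (Finset.mem_univ v)⟩, hnx0⟩
      refine ⟨b, hb.1.1, hb.2, fun w hw hw0 => ?_⟩
      by_cases hwT : w ∈ T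
      · exact hbm w ⟨hwT, hw0⟩
      · have h1 : ∃ v, ∑ v, N v ((n : F) • x) < N v w := by
          by_contra hcon
          push Not at hcon
          exact hwT ⟨hw, hcon⟩
        obtain ⟨v, hv⟩ := h1
        have h2 := hbm ((n : F) • x) ⟨⟨hnx, fun v => Finset.single_le_sum
          (f := fun v => N v ((n : F) • x)) (fun v _ => h.nonneg v _) (Finset.mem_univ v)⟩, hnx0⟩
        have h3 : N v w ≤ ∑ v, N v w := Finset.single_le_sum (f := fun v => N v w)
          (fun v _ => h.nonneg v _) (Finset.mem_univ v)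
        linarith
    set lam : ℝ := ∑ v, N v b1 with hlam
    have hlam0 : 0 < lam := hμpos b1 hb1Λ hb10
    have hNb1 : ∀ v, N v b1 ≤ lam := fun v =>
      Finset.single_le_sum (f := fun v => N v b1) (fun v _ => h.nonneg v _) (Finset.mem_univ v)
    -- balanced
    have hbalanced : ∀ v0, lam ≤ 2 * Cb * N v0 b1 := by
      intro v0
      obtain ⟨α, hα0, hαi, hα1, hα2⟩ := hbal v0
      have h1 := hmin (α • b1) (h.latsmul α hαi _ hb1Λ) (smul_ne_zero hα0 hb10)
      simp only [h.smul] at h1
      have h2 : ∑ v, v α * N v b1 ≤ Cb * N v0 b1 + (1 / 2) * (lam - N v0 b1) := by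
        rw [← Finset.add_sum_erase _ _ (Finset.mem_univ v0)]
        have h3 : lam - N v0 b1 = ∑ v ∈ Finset.univ.erase v0, N v b1 := by
          rw [hlam, ← Finset.add_sum_erase _ _ (Finset.mem_univ v0)]
          ring
        rw [h3, Finset.mul_sum]
        refine add_le_add (mul_le_mul_of_nonneg_right hα1 (h.nonneg _ _)) ?_
        exact Finset.sum_le_sum fun v hv =>
          mul_le_mul_of_nonneg_right (hα2 v (Finset.ne_of_mem_erase hv)) (h.nonneg _ _)
      have h4 := h.nonneg v0 b1
      linarith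
    -- the quotient
    set π := (Submodule.span F {b1}).mkQ with hπ
    have hfr : Module.finrank F (V ⧸ Submodule.span F {b1}) = k := by
      have h1 := Submodule.finrank_quotient_add_finrank (Submodule.span F {b1})
      rw [hV, finrank_span_singleton hb10] at h1
      omega
    obtain ⟨bb, l, hbbΛ, hmono, hup, hspan, hlow, hden⟩ :=
      hih (V ⧸ Submodule.span F {b1}) hfr (qN N b1) (π '' Λ) (quot_fam h b1 hb1Λ)
    have hπb1 : π b1 = 0 := by
      rw [hπ, Submodule.mkQ_apply, Submodule.Quotient.mk_eq_zero]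
      exact Submodule.mem_span_singleton_self b1
    -- lower bound for the norms of the vectors of the quotient
    have hlower : ∀ w ∈ Λ, π w ≠ 0 → ε * lam ≤ ∑ v, qN N b1 v (π w) := by
      intro w hw hw0
      obtain ⟨t, ht⟩ := exists_lift h b1 w (lam / (4 * P * q)) (by positivity)
      obtain ⟨j, o, hj0, hjQ, ho, hjo⟩ := hdir Q hQn (-t)
      have hj1 : (j : ℝ) ≤ q := by
        rw [hq]
        exact_mod_cast hjQ
      have h1 : (j : F) • w - o • b1 ∈ Λ := by
        rw [sub_eq_add_neg]
        exact h.latadd _ (h.latsmul _ (isIntegral_natCast j) _ hw) _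
          (h.lat_neg _ (h.latsmul o ho _ hb1Λ))
      have h2 : (j : F) • w - o • b1 ≠ 0 := by
        intro h0
        apply hw0
        have h3 := congrArg π h0
        rw [map_sub, map_smul, map_smul, hπb1, smul_zero, sub_zero, map_zero, smul_eq_zero] at h3
        rcases h3 with h3 | h3
        · exact absurd (by exact_mod_cast h3 : j = 0) hj0.ne'
        · exact h3
      have h3 := hmin _ h1 h2
      have h4 : (j : F) • w - o • b1 = (j : F) • (w + t • b1) + ((j : F) * (-t) - o) • b1 := by
        rw [smul_add, smul_smul, sub_smul, mul_neg, neg_smul]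
        abel
      have h5 : ∀ v, N v ((j : F) • w - o • b1) ≤
          q * (qN N b1 v (π w) + lam / (4 * P * q)) + (1 / 2) * N v b1 := by
        intro v
        rw [h4]
        refine (h.add v _ _).trans ?_
        rw [h.smul, h.smul]
        have hvj : v (j : F) = j := InfinitePlace.map_natCast v j
        rw [hvj]
        refine add_le_add ?_ ?_
        · exact mul_le_mul hj1 (ht v) (h.nonneg _ _) (by linarith)
        · exact mul_le_mul_of_nonneg_right ((hjo v).trans hCdQ) (h.nonneg _ _)
      have h6 : ∑ v, N v ((j : F) • w - o • b1) ≤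
          q * ∑ v, qN N b1 v (π w) + lam / 4 + (1 / 2) * lam := by
        refine (Finset.sum_le_sum fun v _ => h5 v).trans ?_
        rw [Finset.sum_add_distrib, ← Finset.mul_sum, ← Finset.mul_sum, Finset.sum_add_distrib,
          Finset.sum_const, Finset.card_univ, nsmul_eq_mul, mul_add]
        have h7 : q * ((Fintype.card (InfinitePlace F) : ℝ) * (lam / (4 * P * q))) = lam / 4 := by
          rw [← hP]
          field_simp
        rw [h7]
      rw [hε]
      rw [div_mul_eq_mul_div, div_le_iff₀ (by positivity)]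
      nlinarith
    -- the lifts
    have hlift : ∀ a, ∃ w ∈ Λ, π w = bb a ∧ ∀ v, N v w ≤ qN N b1 v (bb a) + (1 + Cr) * lam := by
      intro a
      obtain ⟨w, hw, hwa⟩ := hbbΛ a
      obtain ⟨t, ht⟩ := exists_lift h b1 w lam hlam0
      obtain ⟨o, ho, hto⟩ := hround t
      refine ⟨w + o • b1, h.latadd _ hw _ (h.latsmul o ho _ hb1Λ), ?_, fun v => ?_⟩
      · rw [map_add, map_smul, hπb1, smul_zero, add_zero, hwa]
      · have h2 : w + o • b1 = (w + t • b1) + (o - t) • b1 := by
          rw [sub_smul]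
          abel
        rw [h2]
        have h3 := h.add v (w + t • b1) ((o - t) • b1)
        rw [h.smul] at h3
        have h5 : v (o - t) ≤ Cr := by
          have := hto v
          rwa [← neg_sub, v_neg] at this
        have h6 : v (o - t) * N v b1 ≤ Cr * lam := mul_le_mul h5 (hNb1 v) (h.nonneg _ _) (by linarith)
        have h7 := ht v
        rw [← hπ, hwa] at h7
        linarith
    choose b hbΛ hπb hNb using hlift
    -- the size of the first vector
    obtain ⟨l1, hl1, hl1'⟩ := exists_mem_Ico_zpow (x := ε' * lam) (y := (2 : ℝ)) (by positivity)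
      (by norm_num)
    have hlam_le : lam ≤ 2 / ε' * 2 ^ l1 := by
      rw [zpow_add_one₀ (by norm_num)] at hl1'
      rw [div_mul_eq_mul_div, le_div_iff₀ hε'0]
      linarith
    have hlam_ge : (2 : ℝ) ^ l1 ≤ lam := by nlinarith
    have hbb0 : ∀ a, bb a ≠ 0 := by
      intro a h0
      obtain ⟨v⟩ : Nonempty (InfinitePlace F) := inferInstance
      have h1 := hlow v (Pi.single a 1) a
      have h2 : ∑ a', (Pi.single a 1 : Fin k → F) a' • bb a' = 0 := by
        rw [Finset.sum_eq_single a]
        · rw [Pi.single_eq_same, one_smul, h0]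
        · intro a' _ ha'
          rw [Pi.single_eq_of_ne ha', zero_smul]
        · simp
      rw [h2, Pi.single_eq_same, map_one, one_mul, (quot_fam h b1 hb1Λ).zero, mul_zero] at h1
      have : (0 : ℝ) < 2 ^ l a := by positivity
      linarith
    have hl1a : ∀ a, l1 ≤ l a := by
      intro a
      have h1 := hlower (b a) (hbΛ a) (by rw [hπb]; exact hbb0 a)
      rw [hπb] at h1
      have h2 : ∑ v, qN N b1 v (bb a) ≤ P * (Ck * 2 ^ l a) := by
        refine (Finset.sum_le_sum fun v _ => hup v a).trans ?_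
        rw [Finset.sum_const, Finset.card_univ, nsmul_eq_mul]
      have h3 : ε' * lam ≤ 2 ^ l a := by
        rw [hε', div_mul_eq_mul_div, div_le_iff₀ (by positivity)]
        linarith
      exact (zpow_le_zpow_iff_right₀ (by norm_num : (1 : ℝ) < 2)).1 (hl1.trans h3)
    have hNb' : ∀ v a, N v (b a) ≤ Ca * 2 ^ l a := by
      intro v a
      refine (hNb a v).trans ?_
      have h1 : (1 + Cr) * lam ≤ (1 + Cr) * (2 / ε' * 2 ^ l a) := by
        gcongr
        refine hlam_le.trans ?_
        gcongr
        · norm_num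
        · exact hl1a a
      calc qN N b1 v (bb a) + (1 + Cr) * lam ≤ Ck * 2 ^ l a + (1 + Cr) * (2 / ε' * 2 ^ l a) :=
            add_le_add (hup v a) h1
        _ = Ca * 2 ^ l a := by
            rw [hCa]
            ring
    -- denominators
    have hden1 : ∀ z : F, z • b1 ∈ Λ → IsIntegral ℤ (((Q ^ deg F).factorial : F) * z) := by
      intro z hz
      obtain ⟨j, o, hj0, hjQ, ho, hjo⟩ := hdir Q hQn z
      have h1 : ((j : F) * z - o) • b1 ∈ Λ := by
        rw [sub_smul, mul_smul, sub_eq_add_neg]
        exact h.latadd _ (h.latsmul _ (isIntegral_natCast j) _ hz) _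
          (h.lat_neg _ (h.latsmul o ho _ hb1Λ))
      have h2 : (j : F) * z - o = 0 := by
        by_contra hne
        have h3 := hmin _ h1 (smul_ne_zero hne hb10)
        simp only [h.smul] at h3
        have h4 : ∑ v, v ((j : F) * z - o) * N v b1 ≤ (1 / 2) * lam := by
          rw [hlam, Finset.mul_sum]
          exact Finset.sum_le_sum fun v _ =>
            mul_le_mul_of_nonneg_right ((hjo v).trans hCdQ) (h.nonneg _ _)
        linarith
      have h3 : (j : F) * z = o := sub_eq_zero.1 h2
      obtain ⟨i, hi⟩ := Nat.dvd_factorial hj0 hjQ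
      rw [hi]
      push_cast
      have h4 : (j : F) * i * z = i * (j * z) := by ring
      rw [h4, h3]
      exact (isIntegral_natCast i).mul ho
    have hsumcons : ∀ y : Fin (k + 1) → F, ∑ a, y a • (Fin.cons b1 b : Fin (k + 1) → V) a =
        y 0 • b1 + ∑ a : Fin k, y a.succ • b a := by
      intro y
      rw [Fin.sum_univ_succ]
      simp
    have hπsum : ∀ y : Fin (k + 1) → F, π (∑ a, y a • (Fin.cons b1 b : Fin (k + 1) → V) a) =
        ∑ a : Fin k, y a.succ • bb a := by
      intro y
      rw [hsumcons, map_add, map_smul, hπb1, smul_zero, zero_add, map_sum]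
      refine Finset.sum_congr rfl fun a _ => ?_
      rw [map_smul, hπb]
    have hlow' : ∀ v (y : Fin (k + 1) → F) (a : Fin k), v (y a.succ) * 2 ^ l a ≤
        Ck * N v (∑ a, y a • (Fin.cons b1 b : Fin (k + 1) → V) a) := by
      intro v y a
      have h1 := hlow v (fun a => y a.succ) a
      rw [← hπsum] at h1
      refine h1.trans ?_
      gcongr
      exact qN_le h b1 v _
    refine ⟨Fin.cons b1 b, Fin.cons l1 l, ?_, ?_, ?_, ?_, ?_, ?_⟩
    · intro a
      refine Fin.cases ?_ (fun a => ?_) a
      · simpa using hb1Λ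
      · simpa using hbΛ a
    · intro a a' haa
      revert haa
      refine Fin.cases ?_ (fun a => ?_) a
      · refine Fin.cases ?_ (fun a' => ?_) a'
        · intro _
          exact le_rfl
        · intro _
          simpa using hl1a a'
      · refine Fin.cases ?_ (fun a' => ?_) a'
        · intro haa
          exact absurd haa (by simp)
        · intro haa
          simpa using hmono (Fin.succ_le_succ_iff.1 haa)
    · intro v a
      refine Fin.cases ?_ (fun a => ?_) a
      · simp only [Fin.cons_zero]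
        refine (hNb1 v).trans (hlam_le.trans ?_)
        have h0 : (0 : ℝ) < 2 ^ l1 := by positivity
        refine mul_le_mul_of_nonneg_right ?_ h0.le
        rw [hC]
        linarith
      · simp only [Fin.cons_succ]
        refine (hNb' v a).trans ?_
        have h0 : (0 : ℝ) < 2 ^ l a := by positivity
        refine mul_le_mul_of_nonneg_right ?_ h0.le
        rw [hC]
        linarith
    · intro x
      obtain ⟨y, hy⟩ := hspan (π x)
      have h1 : x - ∑ a, y a • b a ∈ Submodule.span F {b1} := by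
        rw [← Submodule.ker_mkQ (Submodule.span F {b1}), LinearMap.mem_ker, map_sub, map_sum, ← hπ, hy, sub_eq_zero]
        refine Finset.sum_congr rfl fun a _ => ?_
        rw [map_smul, hπb]
      obtain ⟨t, ht⟩ := Submodule.mem_span_singleton.1 h1
      refine ⟨Fin.cons t y, ?_⟩
      rw [hsumcons]
      simp only [Fin.cons_zero, Fin.cons_succ]
      rw [ht, sub_add_cancel]
    · intro v y a
      set S := ∑ a, y a • (Fin.cons b1 b : Fin (k + 1) → V) a with hS
      have hS0 : 0 ≤ N v S := h.nonneg v S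
      refine Fin.cases ?_ (fun a => ?_) a
      · simp only [Fin.cons_zero]
        have h1 : y 0 • b1 = S - ∑ a : Fin k, y a.succ • b a := by
          rw [hS, hsumcons]
          abel
        have h2 : v (y 0) * N v b1 ≤ (1 + k * (Ca * Ck)) * N v S := by
          rw [← h.smul, h1, sub_eq_add_neg]
          refine (h.add v _ _).trans ?_
          have h3 : N v (-∑ a : Fin k, y a.succ • b a) = N v (∑ a : Fin k, y a.succ • b a) := by
            have := h.smul v (-1) (∑ a : Fin k, y a.succ • b a)
            rwa [neg_one_smul, v_neg, map_one, one_mul] at this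
          rw [h3]
          have h4 : N v (∑ a : Fin k, y a.succ • b a) ≤ ∑ _a : Fin k, (Ca * Ck) * N v S := by
            refine (h.sum v _ _).trans (Finset.sum_le_sum fun a _ => ?_)
            rw [h.smul]
            have h5 := hlow' v y a
            rw [← hS] at h5
            calc v (y a.succ) * N v (b a) ≤ v (y a.succ) * (Ca * 2 ^ l a) :=
                  mul_le_mul_of_nonneg_left (hNb' v a) (v_nonneg _ _)
              _ = Ca * (v (y a.succ) * 2 ^ l a) := by ring
              _ ≤ Ca * (Ck * N v S) := by gcongr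
              _ = (Ca * Ck) * N v S := by ring
          rw [Finset.sum_const, Finset.card_univ, Fintype.card_fin, nsmul_eq_mul] at h4
          linarith
        have h6 := hbalanced v
        have h7 : v (y 0) * 2 ^ l1 ≤ 2 * Cb * ((1 + k * (Ca * Ck)) * N v S) := by
          calc v (y 0) * 2 ^ l1 ≤ v (y 0) * (2 * Cb * N v b1) :=
                mul_le_mul_of_nonneg_left (hlam_ge.trans h6) (v_nonneg _ _)
            _ = 2 * Cb * (v (y 0) * N v b1) := by ring
            _ ≤ _ := by gcongr
        refine h7.trans ?_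
        rw [← mul_assoc]
        refine mul_le_mul_of_nonneg_right ?_ hS0
        rw [hC]
        linarith
      · simp only [Fin.cons_succ]
        refine (hlow' v y a).trans ?_
        refine mul_le_mul_of_nonneg_right ?_ hS0
        rw [hC]
        linarith
    · intro y hy
      have h1 : ∀ a : Fin k, IsIntegral ℤ ((Dk : F) * y a.succ) := by
        intro a
        refine hden (fun a => y a.succ) ?_ a
        rw [← hπsum]
        exact ⟨_, hy, rfl⟩
      have h2 : IsIntegral ℤ (((Q ^ deg F).factorial : F) * ((Dk : F) * y 0)) := by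
        apply hden1
        have h3 : ((Dk : F) * y 0) • b1 = (Dk : F) • (∑ a, y a • (Fin.cons b1 b : Fin (k + 1) → V) a) +
            -∑ a : Fin k, ((Dk : F) * y a.succ) • b a := by
          rw [hsumcons, smul_add, smul_smul, Finset.smul_sum]
          simp only [smul_smul]
          abel
        rw [h3]
        exact h.latadd _ (h.latsmul _ (isIntegral_natCast Dk) _ hy) _
          (h.lat_neg _ (h.lat_sum _ _ fun a _ => h.latsmul _ (h1 a) _ (hbΛ a)))
      intro a
      push_cast
      rw [mul_assoc]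
      refine Fin.cases ?_ (fun a => ?_) a
      · exact h2
      · exact (isIntegral_natCast _).mul (h1 a)

end Pool.Agent.H71.TW
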