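import Mathlib
import Pool.Agent.H71.TW.Red
import Pool.Agent.H71.MB.Act

set_option autoImplicit false
set_option linter.all false

/-! Reduced matrices; coordinates of tensors in reduced bases. -/

namespace Pool.Agent.H71.TW

open NumberField Pool.Agent.H71.MB

variable {F : Type} [Field F] [NumberField F]

/-- The columns of `B` are a reduced basis, of sizes `2 ^ l a`. -/
structure RedM (C : ℝ) (D : ℕ) {ι κ : Type} [Fintype κ] (B : Matrix ι κ F) (l : κ → ℤ) : Prop where
  int : ∀ x a, IsIntegral ℤ (B x a)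
  up : ∀ (v : InfinitePlace F) x a, v (B x a) ≤ C * 2 ^ l a
  low : ∀ (v : InfinitePlace F) (y : κ → F) (M : ℝ), (∀ x, v (B.mulVec y x) ≤ M) →
    ∀ a, v (y a) * 2 ^ l a ≤ C * M
  den : ∀ y : κ → F, (∀ x, IsIntegral ℤ (B.mulVec y x)) → ∀ a, IsIntegral ℤ ((D : F) * y a)

theorem exists_redMat (F : Type) [Field F] [NumberField F] (ι : Type) [Fintype ι] (k : ℕ) :
    ∃ (C : ℝ) (D : ℕ), 1 ≤ C ∧ 0 < D ∧ ∀ W : Submodule F (ι → F), Module.finrank F W = k →
      ∃ (B : Matrix ι (Fin k) F) (l : Fin k → ℤ), LinearMap.range B.mulVecLin = W ∧ Monotone l ∧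
        RedM C D B l := by
  classical
  obtain ⟨C, D, hC, hD, hred⟩ := exists_red_abs F k
  refine ⟨C * (Fintype.card ι + 1), D, one_le_mul_of_one_le_of_one_le hC (by
    have : (0 : ℝ) ≤ Fintype.card ι := Nat.cast_nonneg _
    linarith), hD, fun W hW => ?_⟩
  set N : InfinitePlace F → W → ℝ := fun v w => ∑ x, v ((w : ι → F) x) with hN
  set Λ : Set W := {w | ∀ x, IsIntegral ℤ ((w : ι → F) x)} with hΛ
  have hfam : NFam W N Λ := by
    refine ⟨fun v w => Finset.sum_nonneg fun x _ => v_nonneg _ _, ?_, ?_, ?_, ?_, ?_, ?_⟩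
    · intro v x y
      rw [hN]
      simp only
      rw [← Finset.sum_add_distrib]
      exact Finset.sum_le_sum fun i _ => v_add v _ _
    · intro v a x
      rw [hN]
      simp only
      rw [Finset.mul_sum]
      refine Finset.sum_congr rfl fun i _ => ?_
      rw [Submodule.coe_smul, Pi.smul_apply, smul_eq_mul, map_mul]
    · intro x hx y hy i
      rw [Submodule.coe_add, Pi.add_apply]
      exact (hx i).add (hy i)
    · intro a ha x hx i
      rw [Submodule.coe_smul, Pi.smul_apply, smul_eq_mul]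
      exact ha.mul (hx i)
    · intro w
      have h1 : ∀ i, ∃ n : ℕ, 0 < n ∧ IsIntegral ℤ ((n : F) * (w : ι → F) i) := by
        intro i
        have halg : IsAlgebraic ℤ ((w : ι → F) i) :=
          (IsFractionRing.isAlgebraic_iff ℤ ℚ F).2 (Algebra.IsAlgebraic.isAlgebraic _)
        obtain ⟨z, hz, hzi⟩ := halg.exists_integral_multiple
        refine ⟨z.natAbs, Int.natAbs_pos.2 hz, ?_⟩
        rw [zsmul_eq_mul] at hzi
        rcases Int.natAbs_eq z with h | h
        · rw [h] at hzi
          simpa using hzi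
        · rw [h] at hzi
          have := hzi.neg
          simpa using this
      choose n hn hni using h1
      refine ⟨∏ i, n i, Finset.prod_pos fun i _ => hn i, fun i => ?_⟩
      rw [Submodule.coe_smul, Pi.smul_apply, smul_eq_mul]
      rw [← Finset.mul_prod_erase _ _ (Finset.mem_univ i)]
      push_cast
      have : (n i : F) * (∏ j ∈ Finset.univ.erase i, (n j : F)) * (w : ι → F) i =
          (∏ j ∈ Finset.univ.erase i, (n j : F)) * ((n i : F) * (w : ι → F) i) := by ring
      rw [this]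
      exact (IsIntegral.prod _ fun j _ => isIntegral_natCast _).mul (hni i)
    · intro R
      obtain ⟨Cb, -, hbox⟩ := exists_box_upper F
      have h1 := Set.Finite.pi' (fun _ : ι => (hbox R).1)
      refine Set.Finite.of_finite_image (f := fun w : W => (w : ι → F)) (h1.subset ?_)
        (Subtype.val_injective.injOn)
      rintro _ ⟨w, ⟨hw, hwR⟩, rfl⟩
      intro i
      exact ⟨hw i, fun v => (Finset.single_le_sum (f := fun x => v ((w : ι → F) x))
        (fun x _ => v_nonneg _ _) (Finset.mem_univ i)).trans (hwR v)⟩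
  obtain ⟨b, l, hbΛ, hmono, hup, hspan, hlow, hden⟩ := hred W hW N Λ hfam
  set B : Matrix ι (Fin k) F := fun x a => (b a : ι → F) x with hB
  have hmul : ∀ y : Fin k → F, B.mulVec y = ((∑ a, y a • b a : W) : ι → F) := by
    intro y
    funext x
    rw [Matrix.mulVec, dotProduct]
    simp only [hB]
    rw [Submodule.coe_sum, Finset.sum_apply]
    refine Finset.sum_congr rfl fun a _ => ?_
    rw [Submodule.coe_smul, Pi.smul_apply, smul_eq_mul, mul_comm]
  refine ⟨B, l, ?_, hmono, ?_, ?_, ?_, ?_⟩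
  · ext w
    rw [LinearMap.mem_range]
    constructor
    · rintro ⟨y, rfl⟩
      rw [Matrix.mulVecLin_apply, hmul]
      exact (∑ a, y a • b a : W).2
    · intro hw
      obtain ⟨y, hy⟩ := hspan ⟨w, hw⟩
      refine ⟨y, ?_⟩
      rw [Matrix.mulVecLin_apply, hmul, ← hy]
  · intro x a
    exact hbΛ a x
  · intro v x a
    refine ((Finset.single_le_sum (f := fun x => v ((b a : ι → F) x)) (fun x _ => v_nonneg _ _)
      (Finset.mem_univ x)).trans (hup v a)).trans ?_
    have h0 : (0 : ℝ) < 2 ^ l a := by positivity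
    refine mul_le_mul_of_nonneg_right ?_ h0.le
    have : (0 : ℝ) ≤ Fintype.card ι := Nat.cast_nonneg _
    nlinarith
  · intro v y M hM a
    have hne : Nonempty ι := by
      by_contra hcon
      rw [not_nonempty_iff] at hcon
      have : Subsingleton W := ⟨fun x y => Subtype.ext (funext fun i => hcon.elim i)⟩
      have h0 : Module.finrank F W = 0 := Module.finrank_zero_of_subsingleton
      have hk : k = 0 := by rw [← hW, h0]
      subst hk
      exact a.elim0
    obtain ⟨x0⟩ := hne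
    have hM0 : 0 ≤ M := (v_nonneg _ _).trans (hM x0)
    refine (hlow v y a).trans ?_
    rw [mul_assoc]
    refine mul_le_mul_of_nonneg_left ?_ (by linarith)
    have h1 : N v (∑ a, y a • b a) ≤ ∑ _x : ι, M := by
      refine Finset.sum_le_sum fun x _ => ?_
      rw [← hmul]
      exact hM x
    rw [Finset.sum_const, Finset.card_univ, nsmul_eq_mul] at h1
    linarith
  · intro y hy a
    refine hden y ?_ a
    intro x
    rw [← hmul]
    exact hy x

/-! ### Blocks -/

section Block

variable {r : ℕ} {ι κ : Fin r → Type} [∀ c, Fintype (κ c)]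

theorem block_mulVec (B : ∀ c, Matrix (ι c) (κ c) F) (y : (Σ c, κ c) → F) (x : Σ c, ι c) :
    (Matrix.blockDiagonal' B).mulVec y x = (B x.1).mulVec (fun j => y ⟨x.1, j⟩) x.2 := by
  classical
  obtain ⟨c, i⟩ := x
  rw [Matrix.mulVec, Matrix.mulVec, dotProduct, dotProduct, Fintype.sum_sigma,
    Finset.sum_eq_single c]
  · refine Finset.sum_congr rfl fun j _ => ?_
    rw [Matrix.blockDiagonal'_apply_eq]
  · intro c' _ hc'
    refine Finset.sum_eq_zero fun j _ => ?_
    rw [Matrix.blockDiagonal'_apply_ne _ _ _ (Ne.symm hc'), zero_mul]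
  · simp

theorem RedM.block {C : ℝ} (hC : 0 ≤ C) {D : ℕ} {B : ∀ c, Matrix (ι c) (κ c) F} {l : ∀ c, κ c → ℤ}
    (h : ∀ c, RedM C D (B c) (l c)) :
    RedM C D (Matrix.blockDiagonal' B) (fun a : Σ c, κ c => l a.1 a.2) := by
  classical
  refine ⟨?_, ?_, ?_, ?_⟩
  · rintro ⟨c, i⟩ ⟨c', j⟩
    by_cases hc : c = c'
    · subst hc
      rw [Matrix.blockDiagonal'_apply_eq]
      exact (h c).int i j
    · rw [Matrix.blockDiagonal'_apply_ne _ _ _ hc]
      exact isIntegral_zero
  · rintro v ⟨c, i⟩ ⟨c', j⟩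
    by_cases hc : c = c'
    · subst hc
      rw [Matrix.blockDiagonal'_apply_eq]
      exact (h c).up v i j
    · rw [Matrix.blockDiagonal'_apply_ne _ _ _ hc, map_zero]
      positivity
  · rintro v y M hM ⟨c, j⟩
    refine (h c).low v (fun j => y ⟨c, j⟩) M (fun i => ?_) j
    have := hM ⟨c, i⟩
    rwa [block_mulVec] at this
  · rintro y hy ⟨c, j⟩
    refine (h c).den (fun j => y ⟨c, j⟩) (fun i => ?_) j
    have := hy ⟨c, i⟩
    rwa [block_mulVec] at this

end Block

theorem RedM.mono {C C' : ℝ} (hC0 : 0 ≤ C) (hCC : C ≤ C') {D D' : ℕ} (hD : D ∣ D') {ι κ : Type}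
    [Fintype κ] (hι : Nonempty ι ∨ IsEmpty κ) {B : Matrix ι κ F} {l : κ → ℤ} (h : RedM C D B l) :
    RedM C' D' B l := by
  refine ⟨h.int, fun v x a => (h.up v x a).trans ?_, fun v y M hM a => ?_, fun y hy a => ?_⟩
  · have h0 : (0 : ℝ) < 2 ^ l a := by positivity
    exact mul_le_mul_of_nonneg_right hCC h0.le
  · rcases hι with ⟨⟨x⟩⟩ | hκ
    · have hM0 : 0 ≤ M := (v_nonneg _ _).trans (hM x)
      exact (h.low v y M hM a).trans (by gcongr)
    · exact hκ.elim a
  · obtain ⟨e, rfl⟩ := hD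
    have h1 := (isIntegral_natCast (F := F) e).mul (h.den y hy a)
    push_cast
    have : (e : F) * ((D : F) * y a) = (D : F) * e * y a := by ring
    rwa [this] at h1

/-! ### Slots -/

section Slots

variable {ι κ μ : Type} [Fintype κ]

theorem act_cons {d : ℕ} (B : Matrix ι κ F) (q : Ten κ (d + 1) μ F) (x0 : ι) (x : Fin d → ι)
    (i : μ) : act B q ((Fin.cons x0 x : Fin (d + 1) → ι), i) =
      ∑ a, B x0 a * act B (fun z : (Fin d → κ) × μ => q ((Fin.cons a z.1 : Fin (d + 1) → κ), z.2))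
        (x, i) := by
  classical
  rw [act_apply]
  simp only [act_apply]
  rw [← (Fin.consEquiv (fun _ : Fin (d + 1) => κ)).sum_comp, Fintype.sum_prod_type]
  refine Finset.sum_congr rfl fun a _ => ?_
  rw [Finset.mul_sum]
  refine Finset.sum_congr rfl fun y _ => ?_
  have h1 : (Fin.consEquiv fun _ : Fin (d + 1) => κ) (a, y) = (Fin.cons a y : Fin (d + 1) → κ) := rfl
  rw [h1]
  simp only [Fin.prod_univ_succ, Fin.cons_zero, Fin.cons_succ]
  ring

theorem act_zero_slots (B : Matrix ι κ F) (q : Ten κ 0 μ F) (x : Fin 0 → ι) (z : Fin 0 → κ) (i : μ) :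
    act B q (x, i) = q (z, i) := by
  classical
  rw [act_apply, Fintype.sum_unique]
  simp only [Finset.univ_eq_empty, Finset.prod_empty, one_mul]
  congr 1
  exact Prod.ext (Subsingleton.elim _ _) rfl

theorem slots_low {C : ℝ} {D : ℕ} {B : Matrix ι κ F} {l : κ → ℤ} (h : RedM C D B l)
    (v : InfinitePlace F) : ∀ (d : ℕ) (q : Ten κ d μ F) (M : ℝ), (∀ x, v (act B q x) ≤ M) →
      ∀ z, v (q z) * ∏ s, (2 : ℝ) ^ l (z.1 s) ≤ C ^ d * M := by
  classical
  intro d
  induction d with
  | zero =>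
    rintro q M hM ⟨z, i⟩
    have h1 := hM (fun a => a.elim0, i)
    rw [act_zero_slots B q _ z i] at h1
    simpa using h1
  | succ d ih =>
    rintro q M hM ⟨z, i⟩
    obtain ⟨a, z', rfl⟩ : ∃ a z', z = (Fin.cons a z' : Fin (d + 1) → κ) :=
      ⟨z 0, Fin.tail z, (Fin.cons_self_tail z).symm⟩
    set qa : Ten κ d μ F := fun z : (Fin d → κ) × μ => q ((Fin.cons a z.1 : Fin (d + 1) → κ), z.2)
      with hqa
    have h2 : (0 : ℝ) < 2 ^ l a := by positivity
    have h1 : ∀ x, v (act B qa x) ≤ C * M / 2 ^ l a := by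
      rintro ⟨x, i'⟩
      have h3 := h.low v (fun a => act B (fun z : (Fin d → κ) × μ =>
        q ((Fin.cons a z.1 : Fin (d + 1) → κ), z.2)) (x, i')) M (fun x0 => by
          have h4 := hM ((Fin.cons x0 x : Fin (d + 1) → ι), i')
          rw [act_cons] at h4
          exact h4) a
      rw [le_div_iff₀ h2]
      exact h3
    have h5 := ih qa _ h1 (z', i)
    simp only [Fin.prod_univ_succ, Fin.cons_zero, Fin.cons_succ]
    have h6 : v (qa (z', i)) = v (q ((Fin.cons a z' : Fin (d + 1) → κ), i)) := rfl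
    rw [h6] at h5
    calc v (q ((Fin.cons a z' : Fin (d + 1) → κ), i)) * (2 ^ l a * ∏ s, (2 : ℝ) ^ l (z' s))
        = (v (q ((Fin.cons a z' : Fin (d + 1) → κ), i)) * ∏ s, (2 : ℝ) ^ l (z' s)) * 2 ^ l a := by ring
      _ ≤ (C ^ d * (C * M / 2 ^ l a)) * 2 ^ l a := by gcongr
      _ = C ^ (d + 1) * M := by
          field_simp
          ring

theorem slots_den {C : ℝ} {D : ℕ} {B : Matrix ι κ F} {l : κ → ℤ} (h : RedM C D B l) :
    ∀ (d : ℕ) (q : Ten κ d μ F), (∀ x, IsIntegral ℤ (act B q x)) →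
      ∀ z, IsIntegral ℤ ((D : F) ^ d * q z) := by
  classical
  intro d
  induction d with
  | zero =>
    rintro q hq ⟨z, i⟩
    have h1 := hq (fun a => a.elim0, i)
    rw [act_zero_slots B q _ z i] at h1
    simpa using h1
  | succ d ih =>
    rintro q hq ⟨z, i⟩
    obtain ⟨a, z', rfl⟩ : ∃ a z', z = (Fin.cons a z' : Fin (d + 1) → κ) :=
      ⟨z 0, Fin.tail z, (Fin.cons_self_tail z).symm⟩
    set qa : Ten κ d μ F := fun z : (Fin d → κ) × μ => q ((Fin.cons a z.1 : Fin (d + 1) → κ), z.2)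
      with hqa
    have h1 : ∀ x, IsIntegral ℤ (act B ((D : F) • qa) x) := by
      rintro ⟨x, i'⟩
      have h3 := h.den (fun a => act B (fun z : (Fin d → κ) × μ =>
        q ((Fin.cons a z.1 : Fin (d + 1) → κ), z.2)) (x, i')) (fun x0 => by
          have h4 := hq ((Fin.cons x0 x : Fin (d + 1) → ι), i')
          rw [act_cons] at h4
          exact h4) a
      rw [act_smul, Pi.smul_apply, smul_eq_mul]
      exact h3
    have h5 := ih ((D : F) • qa) h1 (z', i)
    rw [Pi.smul_apply, smul_eq_mul, ← mul_assoc, ← pow_succ] at h5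
    exact h5

end Slots

end Pool.Agent.H71.TW
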