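import Mathlib
import Pool.Agent.H71.TW.Lat

set_option autoImplicit false
set_option linter.all false

/-! Heights of points of Grassmannians over number fields. -/

namespace Pool.Agent.H71.TW

open NumberField Pool.Agent.H71.MB

section Pluecker

variable {R : Type} [CommRing R] {ι : Type} {k : ℕ}

/-- The minors of order `k`. -/
def pl (b : Matrix ι (Fin k) R) : (Fin k → ι) → R := fun S => (b.submatrix S id).det

theorem pl_mul (b : Matrix ι (Fin k) R) (g : Matrix (Fin k) (Fin k) R) :
    pl (b * g) = g.det • pl b := by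
  funext S
  have h : (b * g).submatrix S id = b.submatrix S id * g := by
    ext i j
    simp [Matrix.mul_apply]
  rw [pl, h, Matrix.det_mul, Pi.smul_apply, smul_eq_mul, mul_comm]
  rfl

/-- The alternating tensor. -/
def alt (R : Type) [CommRing R] (k : ℕ) : Ten (Fin k) k Unit R :=
  fun y => ∑ σ : Equiv.Perm (Fin k), if y.1 = σ then ((Equiv.Perm.sign σ : ℤ) : R) else 0

theorem act_alt (b : Matrix ι (Fin k) R) (S : Fin k → ι) (u : Unit) :
    act b (alt R k) (S, u) = pl b S := by
  classical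
  rw [act_apply, pl, ← Matrix.det_transpose, Matrix.det_apply']
  simp only [alt, Finset.mul_sum]
  rw [Finset.sum_comm]
  refine Finset.sum_congr rfl fun σ _ => ?_
  rw [Finset.sum_eq_single (σ : Fin k → Fin k)]
  · rw [if_pos rfl, mul_comm]
    rfl
  · intro y _ hy
    rw [if_neg hy, mul_zero]
  · intro h
    exact absurd (Finset.mem_univ _) h

theorem alt_id (u : Unit) : alt R k (id, u) = 1 := by
  classical
  rw [alt, Finset.sum_eq_single (1 : Equiv.Perm (Fin k))]
  · simp
  · intro σ _ hσ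
    rw [if_neg]
    intro h
    apply hσ
    ext i
    exact congrArg Fin.val (congrFun h i).symm
  · simp

end Pluecker

variable {F : Type} [Field F] [NumberField F]

theorem mem_span_of {ι : Type} (x : ι → 𝓞 F) (hx : x ≠ 0) (m : ℕ)
    (h : ∀ α : F, (∀ i, IsIntegral ℤ (α * (x i : F))) → IsIntegral ℤ ((m : F) * α)) :
    (m : 𝓞 F) ∈ Ideal.span (Set.range x) := by
  set I := Ideal.span (Set.range x) with hI
  obtain ⟨i0, hi0⟩ := Function.ne_iff.1 hx
  have hi0' : x i0 ≠ 0 := hi0
  have hi0F : ((x i0 : 𝓞 F) : F) ≠ 0 := by exact_mod_cast hi0'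
  have h1 : Ideal.span {x i0} ≤ I := by
    rw [Ideal.span_singleton_le_iff_mem]
    exact Ideal.subset_span ⟨i0, rfl⟩
  obtain ⟨J, hJ⟩ := Ideal.dvd_iff_le.2 h1
  have hJ0 : J ≠ 0 := by
    rintro rfl
    rw [mul_zero] at hJ
    exact hi0' (Ideal.span_singleton_eq_bot.1 hJ)
  have h2 : Ideal.span {(m : 𝓞 F)} * J ≤ I * J := by
    rw [← hJ, Ideal.span_singleton_mul_le_iff]
    intro γ hγ
    have h3 : IsIntegral ℤ ((m : F) * (γ / (x i0 : F))) := by
      apply h
      intro i
      have h4 : x i * γ ∈ I * J := Ideal.mul_mem_mul (Ideal.subset_span ⟨i, rfl⟩) hγ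
      rw [← hJ, Ideal.mem_span_singleton'] at h4
      obtain ⟨c, hc⟩ := h4
      have h5 : (γ / (x i0 : F)) * (x i : F) = (c : F) := by
        have h6 : (x i : F) * (γ : F) = (c : F) * (x i0 : F) := by
          exact_mod_cast congrArg (fun t : 𝓞 F => (t : F)) hc.symm
        field_simp
        linear_combination h6
      rw [h5]
      exact RingOfIntegers.isIntegral_coe c
    rw [Ideal.mem_span_singleton']
    refine ⟨⟨_, h3⟩, ?_⟩
    apply RingOfIntegers.coe_injective
    push_cast
    change (m : F) * (γ / (x i0 : F)) * (x i0 : F) = _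
    field_simp
  have h3 := Ideal.dvd_iff_le.2 h2
  have h4 := (mul_dvd_mul_iff_right hJ0).1 h3
  have h5 := Ideal.dvd_iff_le.1 h4
  rwa [Ideal.span_singleton_le_iff_mem] at h5

theorem mulHeight_bounds {ι : Type} [Finite ι] (x : ι → 𝓞 F) (hx : x ≠ 0) (m : ℕ) (hm : 0 < m)
    (h : (m : 𝓞 F) ∈ Ideal.span (Set.range x)) :
    (∀ A : ℝ, (∀ (v : InfinitePlace F) i, v (x i) ≤ A) →
      Height.mulHeight (fun i => (x i : F)) ≤ A ^ deg F) ∧
    ∀ a : ℝ, 0 ≤ a → (∀ v : InfinitePlace F, ∃ i, a ≤ v (x i)) →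
      a ^ deg F ≤ (m : ℝ) ^ deg F * Height.mulHeight (fun i => (x i : F)) := by
  have hxF : (fun i => (x i : F)) ≠ 0 := by
    intro h0
    apply hx
    funext i
    have := congrFun h0 i
    exact RingOfIntegers.coe_injective (by simpa using this)
  obtain ⟨i0, -⟩ := Function.ne_iff.1 hx
  have hne : Nonempty ι := ⟨i0⟩
  have h1 := NumberField.absNorm_mul_finprod_finitePlace_eq_one hx
  set I := Ideal.span (Set.range x) with hI
  set n : ℝ := (I.absNorm : ℝ) with hn
  set P : ℝ := ∏ᶠ v : FinitePlace F, ⨆ i, v (x i) with hP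
  have hn0 : I.absNorm ∣ m ^ deg F := by
    have h2 : Ideal.span {(m : 𝓞 F)} ≤ I := by
      rwa [Ideal.span_singleton_le_iff_mem]
    have h3 := Ideal.absNorm_dvd_absNorm_of_le h2
    rw [Ideal.absNorm_span_natCast, RingOfIntegers.rank] at h3
    exact h3
  have hn1 : 1 ≤ I.absNorm := Nat.pos_of_dvd_of_pos hn0 (by positivity)
  have hn2 : I.absNorm ≤ m ^ deg F := Nat.le_of_dvd (by positivity) hn0
  have hn1' : (1 : ℝ) ≤ n := by
    rw [hn]
    exact_mod_cast hn1
  have hn2' : n ≤ (m : ℝ) ^ deg F := by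
    rw [hn]
    exact_mod_cast hn2
  have hP0 : 0 < P := by
    by_contra hcon
    have : n * P ≤ 0 := mul_nonpos_of_nonneg_of_nonpos (by linarith) (not_lt.1 hcon)
    linarith
  have hP1 : P ≤ 1 := by nlinarith
  have hHe : Height.mulHeight (fun i => (x i : F)) =
      (∏ v : InfinitePlace F, (⨆ i, v (x i : F)) ^ v.mult) * P := by
    rw [NumberField.mulHeight_eq hxF]
  have hsup0 : ∀ v : InfinitePlace F, 0 ≤ ⨆ i, v (x i : F) := fun v =>
    Real.iSup_nonneg fun i => v_nonneg _ _
  constructor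
  · intro A hA
    rw [hHe, ← prod_mult]
    have h2 : ∏ v : InfinitePlace F, (⨆ i, v (x i : F)) ^ v.mult ≤ ∏ v : InfinitePlace F, A ^ v.mult :=
      Finset.prod_le_prod (fun v _ => pow_nonneg (hsup0 v) _) fun v _ =>
        pow_le_pow_left₀ (hsup0 v) (ciSup_le fun i => hA v i) _
    have h3 : 0 ≤ ∏ v : InfinitePlace F, (⨆ i, v (x i : F)) ^ v.mult :=
      Finset.prod_nonneg fun v _ => pow_nonneg (hsup0 v) _
    nlinarith
  · intro a ha0 ha
    rw [hHe, ← prod_mult]
    have h2 : ∏ v : InfinitePlace F, a ^ v.mult ≤ ∏ v : InfinitePlace F, (⨆ i, v (x i : F)) ^ v.mult := by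
      refine Finset.prod_le_prod (fun v _ => pow_nonneg ha0 _) fun v _ => ?_
      obtain ⟨i, hi⟩ := ha v
      exact pow_le_pow_left₀ ha0 (hi.trans (Finite.le_ciSup (fun i => v (x i : F)) i)) _
    have h3 : 0 ≤ ∏ v : InfinitePlace F, (⨆ i, v (x i : F)) ^ v.mult :=
      Finset.prod_nonneg fun v _ => pow_nonneg (hsup0 v) _
    set Y := ∏ v : InfinitePlace F, (⨆ i, v (x i : F)) ^ v.mult with hY
    calc ∏ v : InfinitePlace F, a ^ v.mult ≤ Y := h2
      _ = Y * (n * P) := by rw [h1, mul_one]
      _ = n * (Y * P) := by ring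
      _ ≤ (m : ℝ) ^ deg F * (Y * P) := by gcongr

/-- The height of the point `W` of a Grassmannian, in the Plücker embedding. -/
noncomputable def grH {ι : Type} [Finite ι] (W : Submodule F (ι → F)) : ℝ :=
  Height.mulHeight (pl (Matrix.of fun i j => (Module.finBasis F W j : ι → F) i))

theorem exists_basis_change {ι : Type} [Finite ι] {k : ℕ} (W : Submodule F (ι → F))
    (b : Matrix ι (Fin k) F) (hb : LinearMap.range b.mulVecLin = W) (b0 : Matrix ι (Fin k) F)
    (hb0 : LinearMap.range b0.mulVecLin = W) (hk : Module.finrank F W = k) :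
    ∃ g : Matrix (Fin k) (Fin k) F, b = b0 * g ∧ g.det ≠ 0 := by
  classical
  have hcol : ∀ j, ∃ y : Fin k → F, b0.mulVec y = fun i => b i j := by
    intro j
    have h1 : (fun i => b i j) ∈ LinearMap.range b0.mulVecLin := by
      rw [hb0, ← hb]
      refine ⟨Pi.single j 1, ?_⟩
      rw [Matrix.mulVecLin_apply, Matrix.mulVec_single_one]
      rfl
    obtain ⟨y, hy⟩ := h1
    exact ⟨y, hy⟩
  choose y hy using hcol
  set g : Matrix (Fin k) (Fin k) F := fun i j => y j i with hg
  have hbg : b = b0 * g := by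
    ext i j
    have := congrFun (hy j) i
    rw [← this, Matrix.mul_apply]
    rfl
  refine ⟨g, hbg, fun h0 => ?_⟩
  obtain ⟨w, hw, hgw⟩ := Matrix.exists_mulVec_eq_zero_iff.2 h0
  have h1 : b.mulVecLin w = 0 := by
    rw [Matrix.mulVecLin_apply, hbg, ← Matrix.mulVec_mulVec, hgw, Matrix.mulVec_zero]
  have h2 := LinearMap.finrank_range_add_finrank_ker b.mulVecLin
  rw [hb, hk, Module.finrank_fintype_fun_eq_card, Fintype.card_fin] at h2
  have h3 : Module.finrank F (LinearMap.ker b.mulVecLin) = 0 := by omega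
  have h4 : LinearMap.ker b.mulVecLin = ⊥ := Submodule.finrank_eq_zero.1 h3
  have h5 : w ∈ LinearMap.ker b.mulVecLin := h1
  rw [h4, Submodule.mem_bot] at h5
  exact hw h5

theorem grH_eq {ι : Type} [Finite ι] {k : ℕ} (W : Submodule F (ι → F)) (b : Matrix ι (Fin k) F)
    (hb : LinearMap.range b.mulVecLin = W) (hk : Module.finrank F W = k) :
    grH W = Height.mulHeight (pl b) := by
  classical
  subst hk
  have h1 : LinearMap.range (Matrix.of fun i j => (Module.finBasis F W j : ι → F) i :
      Matrix ι (Fin (Module.finrank F W)) F).mulVecLin = W := by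
    ext w
    rw [LinearMap.mem_range]
    constructor
    · rintro ⟨y, rfl⟩
      have : (Matrix.of fun i j => (Module.finBasis F W j : ι → F) i :
          Matrix ι (Fin (Module.finrank F W)) F).mulVecLin y =
          ((∑ j, y j • Module.finBasis F W j : W) : ι → F) := by
        funext i
        rw [Matrix.mulVecLin_apply, Matrix.mulVec, dotProduct, Submodule.coe_sum, Finset.sum_apply]
        refine Finset.sum_congr rfl fun j _ => ?_
        rw [Submodule.coe_smul, Pi.smul_apply, smul_eq_mul, mul_comm]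
        rfl
      rw [this]
      exact (∑ j, y j • Module.finBasis F W j : W).2
    · intro hw
      refine ⟨fun j => (Module.finBasis F W).repr ⟨w, hw⟩ j, ?_⟩
      funext i
      rw [Matrix.mulVecLin_apply, Matrix.mulVec, dotProduct]
      have h2 := (Module.finBasis F W).sum_repr ⟨w, hw⟩
      have h3 := congrFun (congrArg (fun x : W => (x : ι → F)) h2) i
      simp only [Submodule.coe_sum, Submodule.coe_smul, Finset.sum_apply, Pi.smul_apply,
        smul_eq_mul] at h3
      rw [← h3]
      exact Finset.sum_congr rfl fun x _ => mul_comm _ _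
  obtain ⟨g, hg, hdet⟩ := exists_basis_change W b hb _ h1 rfl
  rw [hg, pl_mul, Height.mulHeight_smul_eq_mulHeight _ hdet]
  rfl

/-- The height of `W` is, up to constants, `2` to the sum of the sizes. -/
theorem grH_bounds {C : ℝ} (hC : 1 ≤ C) {D : ℕ} (hD : 0 < D) {ι : Type} [Finite ι] {k : ℕ}
    {W : Submodule F (ι → F)} {b : Matrix ι (Fin k) F} {l : Fin k → ℤ} (h : RedM C D b l)
    (hb : LinearMap.range b.mulVecLin = W) (hk : Module.finrank F W = k) :
    grH W ≤ ((Nat.factorial k : ℝ) * C ^ k) ^ deg F * ((2 : ℝ) ^ (∑ j, l j)) ^ deg F ∧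
    ((2 : ℝ) ^ (∑ j, l j)) ^ deg F ≤ (C ^ k * D ^ k) ^ deg F * grH W := by
  classical
  rw [grH_eq W b hb hk]
  have hint : ∀ S, IsIntegral ℤ (pl b S) := fun S => IsIntegral.det fun i j => h.int _ _
  set x : (Fin k → ι) → 𝓞 F := fun S => ⟨pl b S, hint S⟩ with hx
  have hxe : (fun S => (x S : F)) = pl b := rfl
  have h2 : (0 : ℝ) < 2 ^ (∑ j, l j) := by positivity
  have hprod2 : ∏ s, (2 : ℝ) ^ l s = 2 ^ (∑ j, l j) := by
    rw [← Real.rpow_intCast, Int.cast_sum, Real.rpow_sum_of_pos (by norm_num)]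
    exact Finset.prod_congr rfl fun s _ => (Real.rpow_intCast _ _).symm
  -- some minor is large
  have hlow : ∀ (v : InfinitePlace F) (M : ℝ), (∀ S, v (pl b S) ≤ M) → (2 : ℝ) ^ (∑ j, l j) ≤ C ^ k * M := by
    intro v M hM
    have h1 := slots_low h v k (alt F k) M (fun y => by
      obtain ⟨S, u⟩ := y
      rw [act_alt]
      exact hM S) (id, ())
    rw [alt_id, map_one, one_mul] at h1
    simp only [id] at h1
    rwa [hprod2] at h1
  have hne : x ≠ 0 := by
    intro h0
    obtain ⟨v⟩ : Nonempty (InfinitePlace F) := inferInstance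
    have h1 := hlow v 0 (fun S => by
      have := congrFun h0 S
      have h3 : pl b S = 0 := by
        have h4 := congrArg (fun t : 𝓞 F => (t : F)) this
        exact h4.trans (map_zero (algebraMap (𝓞 F) F))
      rw [h3, map_zero])
    rw [mul_zero] at h1
    linarith
  obtain ⟨S0, -⟩ := Function.ne_iff.1 hne
  have hmem : ((D ^ k : ℕ) : 𝓞 F) ∈ Ideal.span (Set.range x) := by
    apply mem_span_of x hne
    intro α hα
    have h1 := slots_den h k (α • alt F k) (fun y => by
      obtain ⟨S, u⟩ := y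
      rw [act_smul, Pi.smul_apply, smul_eq_mul, act_alt]
      exact hα S) (id, ())
    rw [Pi.smul_apply, smul_eq_mul, alt_id, mul_one] at h1
    push_cast
    exact h1
  obtain ⟨hup, hlo⟩ := mulHeight_bounds x hne (D ^ k) (by positivity) hmem
  rw [hxe] at hup hlo
  constructor
  · rw [← mul_pow]
    apply hup
    intro v S
    change v (pl b S) ≤ _
    rw [pl, Matrix.det_apply']
    refine (v_sum v _ _).trans ?_
    have h3 : ∀ σ : Equiv.Perm (Fin k), v (((Equiv.Perm.sign σ : ℤ) : F) *
        ∏ i, (b.submatrix S id) (σ i) i) ≤ C ^ k * 2 ^ (∑ j, l j) := by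
      intro σ
      rw [map_mul, InfinitePlace.map_intCast, map_prod]
      have h4 : ‖((Equiv.Perm.sign σ : ℤˣ) : ℤ)‖ = 1 := by
        rcases Int.units_eq_one_or (Equiv.Perm.sign σ) with h5 | h5 <;> simp [h5]
      rw [h4, one_mul]
      calc ∏ i, v ((b.submatrix S id) (σ i) i) ≤ ∏ i, (C * 2 ^ l i) :=
            Finset.prod_le_prod (fun i _ => v_nonneg _ _) fun i _ => h.up _ _ _
        _ = C ^ k * 2 ^ (∑ j, l j) := by
            rw [Finset.prod_mul_distrib, Finset.prod_const, Finset.card_univ, Fintype.card_fin,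
              hprod2]
    refine (Finset.sum_le_sum fun σ _ => h3 σ).trans ?_
    rw [Finset.sum_const, Finset.card_univ, Fintype.card_perm, Fintype.card_fin, nsmul_eq_mul]
    exact le_of_eq (by ring)
  · have h3 := hlo (2 ^ (∑ j, l j) / C ^ k) (by positivity) (fun v => by
      by_contra hcon
      push Not at hcon
      have h4 : ∃ M : ℝ, M < 2 ^ (∑ j, l j) / C ^ k ∧ ∀ S, v (pl b S) ≤ M := by
        have : Nonempty (Fin k → ι) := ⟨S0⟩
        obtain ⟨S1, hS1⟩ := Finite.exists_max (fun S => v (pl b S))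
        exact ⟨v (pl b S1), hcon S1, hS1⟩
      obtain ⟨M, hM1, hM2⟩ := h4
      have h5 := hlow v M hM2
      rw [lt_div_iff₀ (by positivity)] at hM1
      linarith)
    push_cast at h3
    rw [div_pow, div_le_iff₀ (by positivity)] at h3
    calc ((2 : ℝ) ^ (∑ j, l j)) ^ deg F ≤ ((D : ℝ) ^ k) ^ deg F * Height.mulHeight (pl b) *
          (C ^ k) ^ deg F := h3
      _ = _ := by
        rw [mul_pow]
        ring

end Pool.Agent.H71.TW
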