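import Mathlib
import Pool.Agent.H71.TW.Crd
import Pool.Agent.H71.TW.Ht

set_option autoImplicit false
set_option linter.all false

/-! The number of points of a given shape. -/

namespace Pool.Agent.H71.TW

open Pool.Agent.H71.MB NumberField

theorem two_zpow_sum {ι : Type*} (s : Finset ι) (f : ι → ℤ) :
    (2 : ℝ) ^ (∑ i ∈ s, f i) = ∏ i ∈ s, (2 : ℝ) ^ f i := by
  classical
  induction s using Finset.induction_on with
  | empty => simp
  | insert a s ha ih =>
    rw [Finset.sum_insert ha, Finset.prod_insert ha, zpow_add₀ (by norm_num), ih]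

variable {r : ℕ} {k d m : Fin r → ℕ} {F : Type} [Field F] [NumberField F]

/-- Integral points of the torsor with coordinates of given sizes. -/
structure InBox (M : ℕ) (C : ℝ) (l : Lt k → ℤ) (q : Ix k d m → F) : Prop where
  int : ∀ i, IsIntegral ℤ ((M : F) * q i)
  le : ∀ (v : InfinitePlace F) i, v (q i) ≤ C * 2 ^ bw l i

theorem InBox.eq_zero {M : ℕ} {C : ℝ} {l : Lt k → ℤ} {q : Ix k d m → F} (h : InBox M C l q)
    (hM : 0 < M) (i : Ix k d m) (hi : M * C * 2 ^ bw l i < 1) : q i = 0 := by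
  by_contra hne
  have hM0 : (M : F) ≠ 0 := by exact_mod_cast hM.ne'
  obtain ⟨v, hv⟩ := exists_one_le _ (mul_ne_zero hM0 hne) (h.int i)
  rw [map_mul, InfinitePlace.map_natCast] at hv
  have h1 := h.le v i
  have h2 : (0 : ℝ) < M := by exact_mod_cast hM
  nlinarith

/-- The sum of the differences of the sizes. -/
def uni (l : Lt k → ℤ) : ℤ := ∑ p : Pq k, max 0 (l ⟨p.1, p.2.1⟩ - l ⟨p.1, p.2.2⟩)

theorem sum_max_le (V : ∀ c, Submodule F (Wd k d m c → F)) (hV : Stab V) {N : ℕ}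
    (ν : Fin N → Ix k d m) (hinj : ∀ q ∈ TV V, (∀ i, q (ν i) = 0) → q = 0)
    (hsurj : ∀ z : Fin N → F, ∃ q ∈ TV V, ∀ i, q (ν i) = z i) (l : Lt k → ℤ) (κ0 : ℕ)
    (hbad : ∀ P, ¬ Bad V {i | -(κ0 : ℤ) ≤ bw l i} P) :
    ∑ i, max 0 (bw l (ν i)) ≤ ∑ i, bw l (ν i) + uni l + N * κ0 := by
  classical
  set J : Set (Ix k d m) := {i | -(κ0 : ℤ) ≤ bw l i} with hJ
  obtain ⟨φ, hφi, hφ⟩ := matching_tower V hV ν hinj hsurj J hbad
  set g : Pq k → ℤ := fun p => max 0 (l ⟨p.1, p.2.1⟩ - l ⟨p.1, p.2.2⟩) with hg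
  set f : Fin N → ℤ := fun i => if h : ν i ∉ J then g (φ ⟨i, h⟩) else 0 with hf
  have h1 : ∀ i, max 0 (bw l (ν i)) ≤ bw l (ν i) + f i + κ0 := by
    intro i
    by_cases h : ν i ∈ J
    · have h2 : f i = 0 := by
        rw [hf]
        simp only
        rw [dif_neg (not_not.2 h)]
      rw [h2]
      have h3 : -(κ0 : ℤ) ≤ bw l (ν i) := h
      rcases le_total 0 (bw l (ν i)) with h4 | h4
      · rw [max_eq_right h4]
        omega
      · rw [max_eq_left h4]
        omega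
    · have h2 : f i = g (φ ⟨i, h⟩) := by
        rw [hf]
        simp only
        rw [dif_pos h]
      obtain ⟨i', hi', hw⟩ := hφ ⟨i, h⟩
      have h3 := hw l
      simp only at h3
      have h4 : -(κ0 : ℤ) ≤ bw l i' := hi'
      have h5 : l ⟨(φ ⟨i, h⟩).1, (φ ⟨i, h⟩).2.1⟩ - l ⟨(φ ⟨i, h⟩).1, (φ ⟨i, h⟩).2.2⟩ ≤
        g (φ ⟨i, h⟩) := le_max_right _ _
      have h6 : ¬ (-(κ0 : ℤ) ≤ bw l (ν i)) := h
      rw [h2]
      have h7 : (0 : ℤ) ≤ κ0 := by positivity
      rcases le_total 0 (bw l (ν i)) with h8 | h8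
      · omega
      · rw [max_eq_left h8]
        omega
  have h2 : ∑ i, f i ≤ uni l := by
    have h3 : ∑ i, f i = ∑ i : {i : Fin N // ν i ∉ J}, g (φ i) := by
      have h4 : ∑ i, f i = ∑ i ∈ Finset.univ.filter (fun i => ν i ∉ J), f i := by
        symm
        apply Finset.sum_subset (Finset.subset_univ _)
        intro i _ hi
        have h5 : ν i ∈ J := by
          by_contra hcon
          exact hi (Finset.mem_filter.2 ⟨Finset.mem_univ _, hcon⟩)
        rw [hf]
        simp only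
        rw [dif_neg (not_not.2 h5)]
      rw [h4, Finset.sum_subtype (p := fun i => ν i ∉ J) _ (fun i => by simp)]
      refine Finset.sum_congr rfl fun i _ => ?_
      rw [hf]
      simp only
      rw [dif_pos i.2]
    rw [h3]
    calc ∑ i : {i : Fin N // ν i ∉ J}, g (φ i) = ∑ p ∈ Finset.univ.map ⟨φ, hφi⟩, g p := by
          rw [Finset.sum_map]
          rfl
      _ ≤ ∑ p, g p := Finset.sum_le_sum_of_subset_of_nonneg (Finset.subset_univ _)
          fun p _ _ => le_max_left _ _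
  calc ∑ i, max 0 (bw l (ν i)) ≤ ∑ i, (bw l (ν i) + f i + κ0) := Finset.sum_le_sum fun i _ => h1 i
    _ = ∑ i, bw l (ν i) + ∑ i, f i + N * κ0 := by
        rw [Finset.sum_add_distrib, Finset.sum_add_distrib]
        simp
    _ ≤ _ := by linarith

/-- Upper bound for the number of points in a box. -/
theorem box_upper (F : Type) [Field F] [NumberField F] (k d m : Fin r → ℕ)
    (V : ∀ c, Submodule F (Wd k d m c → F)) {N : ℕ}
    (ν : Fin N → Ix k d m) (hinj : ∀ q ∈ TV V, (∀ i, q (ν i) = 0) → q = 0) (M : ℕ) (hM : 0 < M)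
    (C : ℝ) (hC : 1 ≤ C) : ∃ K : ℝ, 1 ≤ K ∧ ∀ (l : Lt k → ℤ) (G : Finset (Ix k d m → F)),
      (∀ q ∈ G, q ∈ TV V ∧ InBox M C l q) →
      (G.card : ℝ) ≤ K * ((2 : ℝ) ^ (∑ i, max 0 (bw l (ν i)))) ^ deg F := by
  classical
  obtain ⟨Cu, hCu, hbox⟩ := exists_box_upper F
  have hM1 : (1 : ℝ) ≤ M := by exact_mod_cast hM
  have hMC : 1 ≤ (M : ℝ) * C := one_le_mul_of_one_le_of_one_le hM1 hC
  refine ⟨(Cu * (M * C) ^ deg F) ^ N, one_le_pow₀ (one_le_mul_of_one_le_of_one_le hCu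
    (one_le_pow₀ hMC)), fun l G hG => ?_⟩
  have hMF : (M : F) ≠ 0 := by exact_mod_cast hM.ne'
  set S : Fin N → Finset F := fun i => (hbox (M * (C * 2 ^ bw l (ν i)))).1.toFinset with hS
  have h1 : G.card ≤ (Fintype.piFinset S).card := by
    refine Finset.card_le_card_of_injOn (fun q i => (M : F) * q (ν i)) ?_ ?_
    · intro q hq
      refine Fintype.mem_piFinset.2 fun i => ?_
      rw [hS]
      simp only [Set.Finite.mem_toFinset, Set.mem_setOf_eq]
      refine ⟨(hG q hq).2.int _, fun v => ?_⟩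
      rw [map_mul, InfinitePlace.map_natCast]
      exact mul_le_mul_of_nonneg_left ((hG q hq).2.le v _) (by positivity)
    · intro q hq q' hq' heq
      have h2 : q - q' = 0 := by
        refine hinj _ ((TV V).sub_mem (hG q hq).1 (hG q' hq').1) fun i => ?_
        have h3 := congrFun heq i
        simp only at h3
        rw [Pi.sub_apply, sub_eq_zero]
        exact mul_left_cancel₀ hMF h3
      exact sub_eq_zero.1 h2
  rw [Fintype.card_piFinset] at h1
  have h2 : (G.card : ℝ) ≤ ∏ i, ((S i).card : ℝ) := by exact_mod_cast h1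
  refine h2.trans ?_
  have h3 : ∀ i, ((S i).card : ℝ) ≤ (Cu * (M * C) ^ deg F) * ((2 : ℝ) ^ (max 0 (bw l (ν i)))) ^ deg F := by
    intro i
    have h4 := (hbox (M * (C * 2 ^ bw l (ν i)))).2
    rw [Set.ncard_eq_toFinset_card _ (hbox (M * (C * 2 ^ bw l (ν i)))).1] at h4
    refine h4.trans ?_
    rw [mul_assoc, ← mul_pow]
    gcongr
    have h5 : (2 : ℝ) ^ bw l (ν i) ≤ 2 ^ (max 0 (bw l (ν i))) :=
      zpow_le_zpow_right₀ (by norm_num) (le_max_right _ _)
    have h6 : (1 : ℝ) ≤ 2 ^ (max 0 (bw l (ν i))) := by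
      rw [← zpow_zero (2 : ℝ)]
      exact zpow_le_zpow_right₀ (by norm_num) (le_max_left _ _)
    apply max_le
    · exact one_le_mul_of_one_le_of_one_le hMC h6
    · rw [← mul_assoc]
      gcongr
  refine (Finset.prod_le_prod (fun i _ => Nat.cast_nonneg _) fun i _ => h3 i).trans ?_
  rw [Finset.prod_mul_distrib, Finset.prod_const, Finset.card_univ, Fintype.card_fin,
    Finset.prod_pow, two_zpow_sum]

/-! ### Unipotent matrices -/

section Uni

/-- The entries are bounded by the differences of the sizes. -/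
structure WB (C : ℝ) {n : ℕ} (l : Fin n → ℤ) (w : Matrix (Fin n) (Fin n) F) : Prop where
  int : ∀ i j, IsIntegral ℤ (w i j)
  le : ∀ (v : InfinitePlace F) i j, v (w i j) ≤ C * 2 ^ (l j - l i)

theorem WB.mul {C C' : ℝ} (hC : 0 ≤ C) (hC' : 0 ≤ C') {n : ℕ} {l : Fin n → ℤ}
    {w w' : Matrix (Fin n) (Fin n) F}
    (h : WB C l w) (h' : WB C' l w') : WB (n * (C * C')) l (w * w') := by
  refine ⟨fun i j => ?_, fun v i j => ?_⟩
  · rw [Matrix.mul_apply]
    exact IsIntegral.sum _ fun e _ => (h.int _ _).mul (h'.int _ _)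
  · rw [Matrix.mul_apply]
    have h1 : v (∑ e, w i e * w' e j) ≤ ∑ _e : Fin n, C * C' * 2 ^ (l j - l i) := by
      refine (v_sum v _ _).trans (Finset.sum_le_sum fun e _ => ?_)
      rw [map_mul]
      calc v (w i e) * v (w' e j) ≤ (C * 2 ^ (l e - l i)) * (C' * 2 ^ (l j - l e)) :=
            mul_le_mul (h.le v i e) (h'.le v e j) (v_nonneg _ _) (by positivity)
        _ = C * C' * (2 ^ (l e - l i) * 2 ^ (l j - l e)) := by ring
        _ = C * C' * 2 ^ (l j - l i) := by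
            rw [← zpow_add₀ (by norm_num)]
            congr 2
            ring
    refine h1.trans (le_of_eq ?_)
    rw [Finset.sum_const, Finset.card_univ, Fintype.card_fin, nsmul_eq_mul]
    ring

theorem WB.one {n : ℕ} {l : Fin n → ℤ} : WB 1 l (1 : Matrix (Fin n) (Fin n) F) := by
  refine ⟨fun i j => ?_, fun v i j => ?_⟩
  · rw [Matrix.one_apply]
    split_ifs
    · exact isIntegral_one
    · exact isIntegral_zero
  · rw [Matrix.one_apply]
    split_ifs with h
    · subst h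
      simp
    · rw [map_zero]
      positivity

theorem WB.pow {n : ℕ} {l : Fin n → ℤ} {w : Matrix (Fin n) (Fin n) F} (h : WB 1 l w) (e : ℕ) :
    WB ((n : ℝ) ^ e) l (w ^ e) := by
  induction e with
  | zero => simpa using WB.one
  | succ e ih =>
    rw [pow_succ, pow_succ]
    have := ih.mul (by positivity) zero_le_one h
    rw [mul_one] at this
    rwa [mul_comm ((n : ℝ) ^ e) (n : ℝ)]

theorem WB.sum {n : ℕ} {l : Fin n → ℤ} (s : Finset ℕ) (C : ℕ → ℝ) (w : ℕ → Matrix (Fin n) (Fin n) F)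
    (h : ∀ e ∈ s, WB (C e) l (w e)) : WB (∑ e ∈ s, C e) l (∑ e ∈ s, w e) := by
  refine ⟨fun i j => ?_, fun v i j => ?_⟩
  · rw [Matrix.sum_apply]
    exact IsIntegral.sum _ fun e he => (h e he).int _ _
  · rw [Matrix.sum_apply, Finset.sum_mul]
    exact (v_sum v _ _).trans (Finset.sum_le_sum fun e he => (h e he).le v i j)

theorem strict_pow {n : ℕ} (T : Matrix (Fin n) (Fin n) F) (hT : ∀ i j, j ≤ i → T i j = 0) (e : ℕ) :
    ∀ i j : Fin n, (j : ℕ) < i + e → (T ^ e) i j = 0 := by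
  induction e with
  | zero =>
    intro i j hij
    rw [pow_zero, Matrix.one_apply_ne]
    intro h
    subst h
    omega
  | succ e ih =>
    intro i j hij
    rw [pow_succ, Matrix.mul_apply]
    refine Finset.sum_eq_zero fun x _ => ?_
    by_cases h : (x : ℕ) < i + e
    · rw [ih i x h, zero_mul]
    · rw [hT x j (by rw [Fin.le_def]; omega), mul_zero]

/-- The number of unipotent matrices. -/
theorem exists_unipotent (F : Type) [Field F] [NumberField F] (k : Fin r → ℕ) :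
    ∃ C : ℝ, 1 ≤ C ∧ ∀ l : Lt k → ℤ, (∀ c, Monotone fun j => l ⟨c, j⟩) →
      ∃ S : Finset (Blk k F), (∀ w ∈ S, ∃ w' : Blk k F, (∀ c, w c * w' c = 1) ∧
        ∀ c, WB C (fun j => l ⟨c, j⟩) (w c) ∧ WB C (fun j => l ⟨c, j⟩) (w' c)) ∧
        ((2 : ℝ) ^ uni l) ^ deg F ≤ C * S.card := by
  classical
  obtain ⟨Cl, hCl, hlow⟩ := exists_box_lower F
  set C1 : ℝ := 2 + ∑ c, ∑ e ∈ Finset.range (k c), ((k c : ℝ)) ^ e with hC1
  have hC10 : 0 ≤ ∑ c, ∑ e ∈ Finset.range (k c), ((k c : ℝ)) ^ e :=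
    Finset.sum_nonneg fun c _ => Finset.sum_nonneg fun e _ => by positivity
  set C2 : ℝ := Cl ^ Fintype.card (Pq k) with hC2
  have hC21 : 1 ≤ C2 := one_le_pow₀ hCl
  refine ⟨C1 * C2, one_le_mul_of_one_le_of_one_le (by linarith) hC21, fun l hl => ?_⟩
  choose Sp hSp1 hSp2 using fun p : Pq k => hlow ((2 : ℝ) ^ (l ⟨p.1, p.2.2⟩ - l ⟨p.1, p.2.1⟩))
    (by positivity)
  set A : Finset (Pq k → F) := Fintype.piFinset fun p => if p.2.1 < p.2.2 then Sp p else {0} with hA
  set f : (Pq k → F) → Blk k F := fun t c => 1 + Matrix.of fun i j => t ⟨c, (i, j)⟩ with hf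
  have hfi : Function.Injective f := by
    intro t t' htt
    funext p
    have h1 := congrFun (congrFun (congrFun htt p.1) p.2.1) p.2.2
    simp only [hf, Matrix.add_apply, Matrix.of_apply, add_right_inj] at h1
    exact h1
  refine ⟨A.image f, ?_, ?_⟩
  · intro w hw
    obtain ⟨t, ht, rfl⟩ := Finset.mem_image.1 hw
    have ht' := Fintype.mem_piFinset.1 ht
    set T : Blk k F := fun c => Matrix.of fun i j => t ⟨c, (i, j)⟩ with hT
    have hTs : ∀ c, ∀ i j, j ≤ i → T c i j = 0 := by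
      intro c i j hij
      have h1 := ht' ⟨c, (i, j)⟩
      simp only at h1
      rw [if_neg (not_lt.2 hij), Finset.mem_singleton] at h1
      exact h1
    have hTW : ∀ c, WB 1 (fun j => l ⟨c, j⟩) (T c) := by
      intro c
      refine ⟨fun i j => ?_, fun v i j => ?_⟩
      · by_cases hij : i < j
        · have h1 := ht' ⟨c, (i, j)⟩
          simp only at h1
          rw [if_pos hij] at h1
          exact (hSp1 _ _ h1).1
        · rw [hTs c i j (not_lt.1 hij)]
          exact isIntegral_zero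
      · by_cases hij : i < j
        · have h1 := ht' ⟨c, (i, j)⟩
          simp only at h1
          rw [if_pos hij] at h1
          rw [one_mul]
          exact (hSp1 _ _ h1).2 v
        · rw [hTs c i j (not_lt.1 hij), map_zero]
          positivity
    have hnT : ∀ c, WB 1 (fun j => l ⟨c, j⟩) (-(T c)) := by
      intro c
      refine ⟨fun i j => ?_, fun v i j => ?_⟩
      · rw [Matrix.neg_apply]
        exact ((hTW c).int i j).neg
      · rw [Matrix.neg_apply, v_neg]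
        exact (hTW c).le v i j
    have hmono : ∀ (C C' : ℝ) (c : Fin r) (w : Matrix (Fin (k c)) (Fin (k c)) F), C ≤ C' →
        WB C (fun j => l ⟨c, j⟩) w → WB C' (fun j => l ⟨c, j⟩) w := by
      intro C C' c w hCC h
      refine ⟨h.int, fun v i j => (h.le v i j).trans ?_⟩
      have h0 : (0 : ℝ) < 2 ^ (l ⟨c, j⟩ - l ⟨c, i⟩) := by positivity
      exact mul_le_mul_of_nonneg_right hCC h0.le
    refine ⟨fun c => ∑ e ∈ Finset.range (k c), (-(T c)) ^ e, fun c => ?_, fun c => ⟨?_, ?_⟩⟩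
    · have h1 : (-(T c)) ^ (k c) = 0 := by
        ext i j
        exact strict_pow (-(T c)) (fun i j hij => by rw [Matrix.neg_apply, hTs c i j hij, neg_zero])
          (k c) i j (by omega)
      have h2 := mul_neg_geom_sum (-(T c)) (k c)
      rw [h1, sub_zero, sub_neg_eq_add] at h2
      exact h2
    · have h1 : WB (1 + 1) (fun j => l ⟨c, j⟩) (1 + T c) := by
        refine ⟨fun i j => ?_, fun v i j => ?_⟩
        · rw [Matrix.add_apply]
          exact (WB.one (l := fun j => l ⟨c, j⟩).int i j).add ((hTW c).int i j)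
        · rw [Matrix.add_apply, add_mul]
          exact (v_add v _ _).trans (add_le_add ((WB.one (l := fun j => l ⟨c, j⟩)).le v i j) ((hTW c).le v i j))
      refine hmono _ _ c _ ?_ h1
      have : C1 * 1 ≤ C1 * C2 := by gcongr
      linarith
    · have h1 := WB.sum (l := fun j => l ⟨c, j⟩) (Finset.range (k c)) (fun e => (k c : ℝ) ^ e)
        (fun e => (-(T c)) ^ e) (fun e _ => (hnT c).pow e)
      refine hmono _ _ c _ ?_ h1
      have h2 : ∑ e ∈ Finset.range (k c), (k c : ℝ) ^ e ≤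
          ∑ c, ∑ e ∈ Finset.range (k c), ((k c : ℝ)) ^ e :=
        Finset.single_le_sum (f := fun c => ∑ e ∈ Finset.range (k c), ((k c : ℝ)) ^ e)
          (fun c _ => Finset.sum_nonneg fun e _ => by positivity) (Finset.mem_univ c)
      have : C1 * 1 ≤ C1 * C2 := by gcongr
      linarith
  · rw [Finset.card_image_of_injective _ hfi, hA, Fintype.card_piFinset]
    push_cast
    have h1 : ∀ p : Pq k, ((2 : ℝ) ^ (max 0 (l ⟨p.1, p.2.2⟩ - l ⟨p.1, p.2.1⟩))) ^ deg F ≤
        Cl * ((if p.2.1 < p.2.2 then Sp p else {0} : Finset F).card : ℝ) := by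
      intro p
      by_cases hp : p.2.1 < p.2.2
      · rw [if_pos hp]
        have h2 : 0 ≤ l ⟨p.1, p.2.2⟩ - l ⟨p.1, p.2.1⟩ := sub_nonneg.2 (hl p.1 hp.le)
        rw [max_eq_right h2]
        exact hSp2 p
      · rw [if_neg hp]
        have h2 : l ⟨p.1, p.2.2⟩ - l ⟨p.1, p.2.1⟩ ≤ 0 := sub_nonpos.2 (hl p.1 (not_lt.1 hp))
        rw [max_eq_left h2]
        simpa using hCl
    have h2 : uni l = ∑ p : Pq k, max 0 (l ⟨p.1, p.2.2⟩ - l ⟨p.1, p.2.1⟩) := by
      rw [uni]
      refine Fintype.sum_equiv (Equiv.sigmaCongrRight fun c => Equiv.prodComm _ _) _ _ fun p => ?_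
      rfl
    rw [h2, two_zpow_sum, ← Finset.prod_pow]
    calc ∏ p : Pq k, ((2 : ℝ) ^ (max 0 (l ⟨p.1, p.2.2⟩ - l ⟨p.1, p.2.1⟩))) ^ deg F
        ≤ ∏ p : Pq k, Cl * ((if p.2.1 < p.2.2 then Sp p else {0} : Finset F).card : ℝ) :=
          Finset.prod_le_prod (fun p _ => by positivity) fun p _ => h1 p
      _ = C2 * ∏ p : Pq k, ((if p.2.1 < p.2.2 then Sp p else {0} : Finset F).card : ℝ) := by
          rw [Finset.prod_mul_distrib, Finset.prod_const, Finset.card_univ]
      _ ≤ C1 * C2 * ∏ p : Pq k, ((if p.2.1 < p.2.2 then Sp p else {0} : Finset F).card : ℝ) := by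
          have h3 : 0 ≤ ∏ p : Pq k, ((if p.2.1 < p.2.2 then Sp p else {0} : Finset F).card : ℝ) :=
            Finset.prod_nonneg fun p _ => Nat.cast_nonneg _
          refine mul_le_mul_of_nonneg_right ?_ h3
          nlinarith

end Uni

/-- The translates of a point of a box are in a box. -/
theorem chg_inBox (F : Type) [Field F] [NumberField F] (k d m : Fin r → ℕ) (M : ℕ) (C C' : ℝ)
    (hC : 1 ≤ C) (hC' : 1 ≤ C') : ∃ C'' : ℝ, 1 ≤ C'' ∧ ∀ (l : Lt k → ℤ) (q : Ix k d m → F)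
      (w w' : Blk k F), InBox M C l q → (∀ c, WB C' (fun j => l ⟨c, j⟩) (w c)) →
      (∀ c, WB C' (fun j => l ⟨c, j⟩) (w' c)) → InBox M C'' l (chg w w' q) := by
  classical
  set A : ℝ := 1 + ∑ c : Fin r, (Fintype.card (Fin (d c) → Lt k) : ℝ) * (C' ^ d c * (k c * (C' * C)))
    with hA
  have hA0 : ∀ c : Fin r, 0 ≤ (Fintype.card (Fin (d c) → Lt k) : ℝ) * (C' ^ d c * (k c * (C' * C))) :=
    fun c => by positivity
  refine ⟨A, by
    have := Finset.sum_nonneg fun (c : Fin r) (_ : c ∈ Finset.univ) => hA0 c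
    linarith, ?_⟩
  intro l q w w' hq hw hw'
  have hbd : ∀ (v : InfinitePlace F) (x y : Lt k), v (bd w' x y) ≤ C' * 2 ^ (l y - l x) := by
    rintro v ⟨c, i⟩ ⟨c', j⟩
    by_cases h : c = c'
    · subst h
      rw [bd, Matrix.blockDiagonal'_apply_eq]
      exact (hw' c).le v i j
    · rw [bd, Matrix.blockDiagonal'_apply_ne _ _ _ h, map_zero]
      positivity
  have hbi : ∀ (x y : Lt k), IsIntegral ℤ (bd w' x y) := by
    rintro ⟨c, i⟩ ⟨c', j⟩
    by_cases h : c = c'
    · subst h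
      rw [bd, Matrix.blockDiagonal'_apply_eq]
      exact (hw' c).int i j
    · rw [bd, Matrix.blockDiagonal'_apply_ne _ _ _ h]
      exact isIntegral_zero
  constructor
  · rintro ⟨c, j, z⟩
    simp only [chg]
    rw [act_apply, Finset.mul_sum]
    refine IsIntegral.sum _ fun y _ => ?_
    rw [Finset.mul_sum, Finset.mul_sum]
    refine IsIntegral.sum _ fun j' _ => ?_
    have h1 : (M : F) * ((∏ s, bd w' (z.1 s) (y s)) * (w c j' j * q ⟨c, (j', (y, z.2))⟩)) =
        (∏ s, bd w' (z.1 s) (y s)) * (w c j' j * ((M : F) * q ⟨c, (j', (y, z.2))⟩)) := by ring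
    rw [h1]
    exact (IsIntegral.prod _ fun s _ => hbi _ _).mul (((hw c).int _ _).mul (hq.int _))
  · rintro v ⟨c, j, z⟩
    simp only [chg]
    rw [act_apply]
    have h2 : ∀ y : Fin (d c) → Lt k, v ((∏ s, bd w' (z.1 s) (y s)) *
        ∑ j', w c j' j * q ⟨c, (j', (y, z.2))⟩) ≤
        (C' ^ d c * (k c * (C' * C))) * 2 ^ bw l (⟨c, (j, z)⟩ : Ix k d m) := by
      intro y
      rw [map_mul, map_prod]
      have h3 : ∏ s, v (bd w' (z.1 s) (y s)) ≤ C' ^ d c * 2 ^ (∑ s, (l (y s) - l (z.1 s))) := by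
        rw [two_zpow_sum]
        calc ∏ s, v (bd w' (z.1 s) (y s)) ≤ ∏ s, (C' * 2 ^ (l (y s) - l (z.1 s))) :=
              Finset.prod_le_prod (fun s _ => v_nonneg _ _) fun s _ => hbd v _ _
          _ = _ := by
              rw [Finset.prod_mul_distrib, Finset.prod_const, Finset.card_univ, Fintype.card_fin]
      have h4 : v (∑ j', w c j' j * q ⟨c, (j', (y, z.2))⟩) ≤
          (k c * (C' * C)) * 2 ^ (l ⟨c, j⟩ - ∑ s, l (y s)) := by
        refine (v_sum v _ _).trans ?_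
        have h5 : ∀ j', v (w c j' j * q ⟨c, (j', (y, z.2))⟩) ≤
            (C' * C) * 2 ^ (l ⟨c, j⟩ - ∑ s, l (y s)) := by
          intro j'
          rw [map_mul]
          calc v (w c j' j) * v (q ⟨c, (j', (y, z.2))⟩) ≤
                (C' * 2 ^ (l ⟨c, j⟩ - l ⟨c, j'⟩)) * (C * 2 ^ bw l (⟨c, (j', (y, z.2))⟩ : Ix k d m)) :=
                mul_le_mul ((hw c).le v _ _) (hq.le v _) (v_nonneg _ _) (by positivity)
            _ = (C' * C) * (2 ^ (l ⟨c, j⟩ - l ⟨c, j'⟩) * 2 ^ bw l (⟨c, (j', (y, z.2))⟩ : Ix k d m)) := by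
                ring
            _ = (C' * C) * 2 ^ (l ⟨c, j⟩ - ∑ s, l (y s)) := by
                rw [← zpow_add₀ (by norm_num)]
                congr 2
                simp only [bw]
                ring
        refine (Finset.sum_le_sum fun j' _ => h5 j').trans (le_of_eq ?_)
        rw [Finset.sum_const, Finset.card_univ, Fintype.card_fin, nsmul_eq_mul]
        ring
      calc (∏ s, v (bd w' (z.1 s) (y s))) * v (∑ j', w c j' j * q ⟨c, (j', (y, z.2))⟩)
          ≤ (C' ^ d c * 2 ^ (∑ s, (l (y s) - l (z.1 s)))) *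
            ((k c * (C' * C)) * 2 ^ (l ⟨c, j⟩ - ∑ s, l (y s))) :=
            mul_le_mul h3 h4 (v_nonneg _ _) (by positivity)
        _ = (C' ^ d c * (k c * (C' * C))) *
            (2 ^ (∑ s, (l (y s) - l (z.1 s))) * 2 ^ (l ⟨c, j⟩ - ∑ s, l (y s))) := by ring
        _ = _ := by
            rw [← zpow_add₀ (by norm_num)]
            congr 2
            simp only [bw, Finset.sum_sub_distrib]
            ring
    refine (v_sum v _ _).trans ((Finset.sum_le_sum fun y _ => h2 y).trans ?_)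
    rw [Finset.sum_const, Finset.card_univ, nsmul_eq_mul, ← mul_assoc]
    have h0 : (0 : ℝ) < 2 ^ bw l (⟨c, (j, z)⟩ : Ix k d m) := by positivity
    refine mul_le_mul_of_nonneg_right ?_ h0.le
    have h6 := Finset.single_le_sum (f := fun c : Fin r =>
      (Fintype.card (Fin (d c) → Lt k) : ℝ) * (C' ^ d c * (k c * (C' * C)))) (fun c _ => hA0 c)
      (Finset.mem_univ c)
    linarith

/-- The number of points of a given shape. -/
theorem count_class (V : ∀ c, Submodule F (Wd k d m c → F)) (hV : Stab V) {N : ℕ}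
    (ν : Fin N → Ix k d m) (hinj : ∀ q ∈ TV V, (∀ i, q (ν i) = 0) → q = 0)
    (hsurj : ∀ z : Fin N → F, ∃ q ∈ TV V, ∀ i, q (ν i) = z i) (M : ℕ) (hM : 0 < M) (C : ℝ)
    (hC : 1 ≤ C) (κ0 : ℕ) :
    ∃ K : ℝ, 1 ≤ K ∧ ∀ (l : Lt k → ℤ), (∀ c, Monotone fun j => l ⟨c, j⟩) →
      (∀ P, ¬ Bad V {i | -(κ0 : ℤ) ≤ bw l i} P) → ∀ (X : Type) (S : Finset X)
      (qf : X → Ix k d m → F), (∀ x ∈ S, qf x ∈ TV V ∧ InBox M C l (qf x)) →
      (∀ x ∈ S, ∀ x' ∈ S, ∀ w w' u u' : Blk k F, (∀ c, w c * w' c = 1) → (∀ c, u c * u' c = 1) →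
        chg w w' (qf x) = chg u u' (qf x') → x = x' ∧ w = u) →
      (S.card : ℝ) ≤ K * ((2 : ℝ) ^ (∑ i, bw l (ν i))) ^ deg F := by
  classical
  obtain ⟨Cw, hCw, huni⟩ := exists_unipotent F k
  obtain ⟨C2, hC2, hchg⟩ := chg_inBox F k d m M C Cw hC hCw
  obtain ⟨K1, hK1, hup⟩ := box_upper F k d m V ν hinj M hM C2 hC2
  refine ⟨K1 * Cw * ((2 : ℝ) ^ (N * κ0)) ^ deg F, ?_, ?_⟩
  · refine one_le_mul_of_one_le_of_one_le (one_le_mul_of_one_le_of_one_le hK1 hCw) ?_
    exact one_le_pow₀ (one_le_pow₀ (by norm_num))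
  intro l hl hbad X S qf hqf hdist
  obtain ⟨U, hU1, hU2⟩ := huni l hl
  choose! w' hw1 hw2 using hU1
  set G : Finset (Ix k d m → F) := (S ×ˢ U).image fun p => chg p.2 (w' p.2) (qf p.1) with hG
  have hGc : G.card = S.card * U.card := by
    rw [hG, Finset.card_image_of_injOn, Finset.card_product]
    intro p hp p' hp' heq
    rw [Finset.mem_coe, Finset.mem_product] at hp hp'
    obtain ⟨h1, h2⟩ := hdist p.1 hp.1 p'.1 hp'.1 p.2 (w' p.2) p'.2 (w' p'.2) (hw1 _ hp.2)
      (hw1 _ hp'.2) heq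
    exact Prod.ext h1 h2
  have hGb := hup l G (by
    intro q hq
    obtain ⟨p, hp, rfl⟩ := Finset.mem_image.1 hq
    rw [Finset.mem_product] at hp
    refine ⟨chg_mem hV _ _ (fun c h0 => ?_) _ (hqf _ hp.1).1, hchg l _ _ _ (hqf _ hp.1).2
      (fun c => (hw2 _ hp.2 c).1) (fun c => (hw2 _ hp.2 c).2)⟩
    have h1 := congrArg Matrix.det (hw1 _ hp.2 c)
    rw [Matrix.det_mul, h0, mul_zero, Matrix.det_one] at h1
    exact zero_ne_one h1)
  rw [hGc] at hGb
  push_cast at hGb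
  have hsum := sum_max_le V hV ν hinj hsurj l κ0 hbad
  have h1 : (2 : ℝ) ^ (∑ i, max 0 (bw l (ν i))) ≤
      2 ^ (∑ i, bw l (ν i)) * 2 ^ uni l * (2 : ℝ) ^ (N * κ0) := by
    rw [← zpow_natCast (2 : ℝ) (N * κ0), ← zpow_add₀ (by norm_num), ← zpow_add₀ (by norm_num)]
    apply zpow_le_zpow_right₀ (by norm_num)
    push_cast
    exact hsum
  set a : ℝ := ((2 : ℝ) ^ (∑ i, bw l (ν i))) ^ deg F with ha
  set b : ℝ := ((2 : ℝ) ^ uni l) ^ deg F with hb
  set e : ℝ := ((2 : ℝ) ^ (N * κ0)) ^ deg F with he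
  have hb0 : 0 < b := by positivity
  have h2 : ((2 : ℝ) ^ (∑ i, max 0 (bw l (ν i)))) ^ deg F ≤ a * b * e := by
    rw [ha, hb, he, ← mul_pow, ← mul_pow]
    exact pow_le_pow_left₀ (by positivity) h1 _
  have h3 : (S.card : ℝ) * b ≤ (K1 * Cw * e * a) * b := by
    calc (S.card : ℝ) * b ≤ S.card * (Cw * U.card) := by gcongr
      _ = Cw * (S.card * U.card) := by ring
      _ ≤ Cw * (K1 * ((2 : ℝ) ^ (∑ i, max 0 (bw l (ν i)))) ^ deg F) := by gcongr
      _ ≤ Cw * (K1 * (a * b * e)) := by gcongr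
      _ = (K1 * Cw * e * a) * b := by ring
  exact le_of_mul_le_mul_right h3 hb0

end Pool.Agent.H71.TW
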