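import Mathlib

set_option autoImplicit false
set_option linter.all false

/-! Finitely generated cones are closed. -/

namespace Pool.Agent.H71.TW

theorem exists_caratheodory {ι E : Type} [Fintype ι] [DecidableEq ι] [AddCommGroup E] [Module ℝ E]
    (w : ι → E) : ∀ (n : ℕ) (a : ι → ℝ), (∀ i, 0 ≤ a i) →
      (Finset.univ.filter fun i => a i ≠ 0).card = n →
      ∃ (s : Finset ι) (b : ι → ℝ), LinearIndependent ℝ (fun i : s => w i) ∧ (∀ i, 0 ≤ b i) ∧
        (∀ i, i ∉ s → b i = 0) ∧ ∑ i, b i • w i = ∑ i, a i • w i := by
  intro n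
  induction n using Nat.strong_induction_on with
  | _ n ih =>
    intro a ha hn
    set s : Finset ι := Finset.univ.filter fun i => a i ≠ 0 with hs
    by_cases hli : LinearIndependent ℝ (fun i : s => w i)
    · exact ⟨s, a, hli, ha, fun i hi => by simpa [hs] using hi, rfl⟩
    · obtain ⟨g, hg, i1, hi1⟩ := Fintype.not_linearIndependent_iff.1 hli
      obtain ⟨c, hc0, hcs, i2, hi2⟩ : ∃ c : ι → ℝ, ∑ i, c i • w i = 0 ∧ (∀ i, i ∉ s → c i = 0) ∧
          ∃ i, 0 < c i := by
        set c0 : ι → ℝ := fun i => if h : i ∈ s then g ⟨i, h⟩ else 0 with hc0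
        have h1 : ∑ i, c0 i • w i = 0 := by
          rw [← hg, ← Finset.sum_subset (Finset.subset_univ s) (fun i _ hi => by
            rw [hc0]
            simp only
            rw [dif_neg hi, zero_smul]), ← Finset.sum_coe_sort s]
          refine Finset.sum_congr rfl fun i _ => ?_
          rw [hc0]
          simp only
          rw [dif_pos i.2]
        have h2 : ∀ i, i ∉ s → c0 i = 0 := fun i hi => dif_neg hi
        have h3 : c0 i1 ≠ 0 := by
          rw [hc0]
          simp only
          rw [dif_pos i1.2]
          exact hi1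
        rcases lt_or_gt_of_ne h3 with h4 | h4
        · refine ⟨fun i => - c0 i, ?_, fun i hi => by
            change - c0 i = 0
            rw [h2 i hi, neg_zero], i1, by
            change 0 < - c0 i1
            linarith⟩
          simp only [neg_smul, Finset.sum_neg_distrib, h1, neg_zero]
        · exact ⟨c0, h1, h2, i1, h4⟩
      obtain ⟨i0, hi0, hmin⟩ := Finset.exists_min_image (Finset.univ.filter fun i => 0 < c i)
        (fun i => a i / c i) ⟨i2, by simpa using hi2⟩
      have hci0 : 0 < c i0 := (Finset.mem_filter.1 hi0).2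
      set t : ℝ := a i0 / c i0 with ht
      have ht0 : 0 ≤ t := div_nonneg (ha i0) hci0.le
      set a' : ι → ℝ := fun i => a i - t * c i with ha'
      have h1 : ∀ i, 0 ≤ a' i := by
        intro i
        rw [ha']
        simp only
        by_cases hci : 0 < c i
        · have h2 := hmin i (by simpa using hci)
          have h3 : t * c i ≤ a i := by
            rw [ht]
            rwa [le_div_iff₀ hci] at h2
          linarith
        · have h2 : t * c i ≤ 0 := mul_nonpos_of_nonneg_of_nonpos ht0 (not_lt.1 hci)
          have := ha i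
          linarith
      have h2 : (Finset.univ.filter fun i => a' i ≠ 0).card < n := by
        rw [← hn]
        apply Finset.card_lt_card
        rw [Finset.ssubset_iff_of_subset]
        · refine ⟨i0, ?_, ?_⟩
          · by_contra hcon
            have := hcs i0 hcon
            linarith
          · rw [Finset.mem_filter]
            rintro ⟨-, h⟩
            apply h
            rw [ha', ht]
            simp only
            rw [div_mul_cancel₀ _ hci0.ne', sub_self]
        · intro i hi
          by_contra hcon
          have h3 := hcs i hcon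
          have h4 : a i = 0 := by simpa [hs] using hcon
          apply (Finset.mem_filter.1 hi).2
          rw [ha']
          simp only
          rw [h3, h4]
          ring
      obtain ⟨s', b, hb1, hb2, hb3, hb4⟩ := ih _ h2 a' h1 rfl
      refine ⟨s', b, hb1, hb2, hb3, hb4.trans ?_⟩
      rw [ha']
      simp only [sub_smul, Finset.sum_sub_distrib, mul_smul, ← Finset.smul_sum]
      rw [hc0, smul_zero, sub_zero]

/-- A finitely generated cone is closed. -/
theorem isClosed_cone {ι X : Type} [Fintype ι] [Fintype X] (w : ι → X → ℝ) :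
    IsClosed {v : X → ℝ | ∃ a : ι → ℝ, (∀ i, 0 ≤ a i) ∧ v = ∑ i, a i • w i} := by
  classical
  have h1 : {v : X → ℝ | ∃ a : ι → ℝ, (∀ i, 0 ≤ a i) ∧ v = ∑ i, a i • w i} =
      ⋃ s : Finset ι, {v : X → ℝ | LinearIndependent ℝ (fun i : s => w i) ∧
        ∃ a : s → ℝ, (∀ i, 0 ≤ a i) ∧ v = ∑ i : s, a i • w i} := by
    ext v
    simp only [Set.mem_setOf_eq, Set.mem_iUnion]
    constructor
    · rintro ⟨a, ha, rfl⟩
      obtain ⟨s, b, hb1, hb2, hb3, hb4⟩ := exists_caratheodory w _ a ha rfl
      refine ⟨s, hb1, fun i => b i, fun i => hb2 i, ?_⟩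
      rw [← hb4, ← Finset.sum_subset (Finset.subset_univ s) (fun i _ hi => by
        rw [hb3 i hi, zero_smul]), ← Finset.sum_coe_sort s]
    · rintro ⟨s, -, a, ha, rfl⟩
      refine ⟨fun i => if h : i ∈ s then a ⟨i, h⟩ else 0, fun i => ?_, ?_⟩
      · change 0 ≤ if h : i ∈ s then a ⟨i, h⟩ else 0
        by_cases h : i ∈ s
        · rw [dif_pos h]
          exact ha _
        · rw [dif_neg h]
      · change _ = ∑ i, (if h : i ∈ s then a ⟨i, h⟩ else 0) • w i
        rw [← Finset.sum_subset (Finset.subset_univ s) (fun i _ hi => by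
          rw [dif_neg hi, zero_smul]), ← Finset.sum_coe_sort s]
        refine Finset.sum_congr rfl fun i _ => ?_
        rw [dif_pos i.2]
  rw [h1]
  refine isClosed_iUnion_of_finite fun s => ?_
  by_cases hli : LinearIndependent ℝ (fun i : s => w i)
  · set L : (s → ℝ) →ₗ[ℝ] (X → ℝ) := Fintype.linearCombination ℝ (fun i : s => w i) with hL
    have hker : LinearMap.ker L = ⊥ := by
      rw [LinearMap.ker_eq_bot']
      intro a ha
      funext i
      have h2 := Fintype.linearIndependent_iff.1 hli a (by
        rw [hL, Fintype.linearCombination_apply] at ha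
        exact ha) i
      exact h2
    have h3 := (LinearMap.isClosedEmbedding_of_injective hker).isClosedMap {a : s → ℝ | ∀ i, 0 ≤ a i}
      (by
        have : {a : s → ℝ | ∀ i, 0 ≤ a i} = ⋂ i, {a : s → ℝ | 0 ≤ a i} := by
          ext a
          simp
        rw [this]
        exact isClosed_iInter fun i => isClosed_le continuous_const (continuous_apply i))
    have h4 : {v : X → ℝ | LinearIndependent ℝ (fun i : s => w i) ∧
        ∃ a : s → ℝ, (∀ i, 0 ≤ a i) ∧ v = ∑ i : s, a i • w i} = L '' {a : s → ℝ | ∀ i, 0 ≤ a i} := by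
      ext v
      constructor
      · rintro ⟨-, a, ha, rfl⟩
        exact ⟨a, ha, by rw [hL, Fintype.linearCombination_apply]⟩
      · rintro ⟨a, ha, rfl⟩
        exact ⟨hli, a, ha, by rw [hL, Fintype.linearCombination_apply]⟩
    rw [h4]
    exact h3
  · have h4 : {v : X → ℝ | LinearIndependent ℝ (fun i : s => w i) ∧
        ∃ a : s → ℝ, (∀ i, 0 ≤ a i) ∧ v = ∑ i : s, a i • w i} = ∅ := by
      ext v
      simp only [Set.mem_setOf_eq, Set.mem_empty_iff_false, iff_false]
      exact fun h => hli h.1
    rw [h4]
    exact isClosed_empty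

end Pool.Agent.H71.TW
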