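import Mathlib
import Pool.Agent.H71.TW.Cnt
import Pool.Agent.H71.TW.Cone

set_option autoImplicit false
set_option linter.all false

/-! Sections, and the effective cone. -/

namespace Pool.Agent.H71.TW

open Pool.Agent.H71.MB NumberField MvPolynomial

section Defs

variable {r : ℕ} {k d m : Fin r → ℕ} {F : Type} [Field F]

/-- `f` is a section of weight `θ`. -/
def IsSec (Z : Fin r → Prop) (V : ∀ c, Submodule F (Wd k d m c → F)) (θ : Fin r → ℤ)
    (f : MvPolynomial (Ix k d m) F) : Prop :=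
  (∃ q ∈ TV V, eval q f ≠ 0) ∧ ∀ g h : Blk k F, (∀ c, g c * h c = 1) → (∀ c, Z c → g c = 1) →
    ∀ q ∈ TV V, eval (chg g h q) f = (∏ c, (g c).det ^ θ c) * eval q f

/-- The cone of the weights of the sections. -/
def Eff (Z : Fin r → Prop) (V : ∀ c, Submodule F (Wd k d m c → F)) : Set (Fin r → ℝ) :=
  {D | ∃ (n : ℕ) (t : Fin n → ℝ) (θ : Fin n → Fin r → ℤ) (f : Fin n → MvPolynomial (Ix k d m) F),
    (∀ i, 0 ≤ t i) ∧ (∀ i, IsSec Z V (θ i) (f i)) ∧ ∀ c, D c = ∑ i, t i * θ i c}

/-- Diagonal matrices. -/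
def dgm {R : Type} [CommRing R] (t : Lt k → R) : Blk k R := fun c =>
  Matrix.diagonal fun j : Fin (k c) => t ⟨c, j⟩

theorem bd_diag {R : Type} [CommRing R] (t : Lt k → R) : bd (dgm t) = Matrix.diagonal t := by
  classical
  have h : dgm t = fun c => Matrix.diagonal fun j : Fin (k c) => t ⟨c, j⟩ := rfl
  rw [h, bd, Matrix.blockDiagonal'_diagonal (fun c => fun j : Fin (k c) => t ⟨c, j⟩)]

theorem chg_diag (t u : Lt k → F) (q : Ix k d m → F) (i : Ix k d m) :
    chg (dgm t) (dgm u) q i = (∏ s, u (i.2.2.1 s)) * (t ⟨i.1, i.2.1⟩ * q i) := by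
  classical
  obtain ⟨c, j, w⟩ := i
  simp only [chg]
  rw [bd_diag, act_diagonal]
  congr 1
  simp only [dgm]
  rw [Finset.sum_eq_single j]
  · rw [Matrix.diagonal_apply_eq]
  · intro j' _ hj'
    rw [Matrix.diagonal_apply_ne _ hj', zero_mul]
  · simp

theorem zpow_sum' {G ι : Type} [CommGroup G] (u : G) (s : Finset ι) (f : ι → ℤ) :
    u ^ (∑ i ∈ s, f i) = ∏ i ∈ s, u ^ f i := by
  classical
  induction s using Finset.induction_on with
  | empty => simp
  | insert a s ha ih => rw [Finset.sum_insert ha, Finset.prod_insert ha, zpow_add, ih]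

theorem bw_add (l l' : Lt k → ℤ) (i : Ix k d m) : bw (l + l') i = bw l i + bw l' i := by
  simp only [bw, Pi.add_apply, Finset.sum_add_distrib]
  ring

end Defs

section NF

variable {r : ℕ} {k d m : Fin r → ℕ} {F : Type} [Field F] [NumberField F]

theorem two_zpow_inj (a b : ℤ) (h : (2 : F) ^ a = 2 ^ b) : a = b := by
  obtain ⟨v⟩ : Nonempty (InfinitePlace F) := inferInstance
  have h1 := congrArg v h
  rw [v_two_zpow, v_two_zpow] at h1
  exact zpow_right_injective₀ (by norm_num : (0 : ℝ) < 2) (by norm_num) h1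

/-- The weight of a section is a combination of the weights of the coordinates in `J`. -/
theorem sec_weight {Z : Fin r → Prop} (hZ : ∀ c, Z c → k c = 1)
    {V : ∀ c, Submodule F (Wd k d m c → F)} (hV : Stab V) {θ : Fin r → ℤ}
    {f : MvPolynomial (Ix k d m) F} (hf : IsSec Z V θ f) (J : Set (Ix k d m))
    (hJ : ∀ P, ¬ Bad V J P) : ∃ s : Ix k d m → ℕ, (∀ i, i ∉ J → s i = 0) ∧
      ∀ l : Lt k → ℤ, (∀ c j, Z c → l ⟨c, j⟩ = 0) →
        ∑ c, θ c * ∑ j, l ⟨c, j⟩ = ∑ i, s i * bw l i := by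
  classical
  obtain ⟨g, h, hgh, q, hq, hqJ, hne⟩ : ∃ g h : Blk k F, (∀ c, g c * h c = 1) ∧ ∃ q ∈ TV V,
      (∀ x, x ∉ J → q x = 0) ∧ eval (chg g h q) f ≠ 0 := by
    by_contra hcon
    push Not at hcon
    exact hJ f ⟨fun g h hgh q hq hqJ => hcon g h hgh q hq hqJ, hf.1⟩
  have hdet : ∀ c, (h c).det ≠ 0 := by
    intro c h0
    have h1 := congrArg Matrix.det (hgh c)
    rw [Matrix.det_mul, h0, mul_zero, Matrix.det_one] at h1
    exact zero_ne_one h1
  -- decomposition
  set gz : Blk k F := fun c => if Z c then g c else 1 with hgz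
  set hz : Blk k F := fun c => if Z c then h c else 1 with hhz
  set g' : Blk k F := fun c => if Z c then 1 else g c with hg'
  set h' : Blk k F := fun c => if Z c then 1 else h c with hh'
  have hgg : (fun c => gz c * g' c) = g := by
    funext c
    rw [hgz, hg']
    by_cases hc : Z c
    · simp [hc]
    · simp [hc]
  have hhh : (fun c => h' c * hz c) = h := by
    funext c
    rw [hhz, hh']
    by_cases hc : Z c
    · simp [hc]
    · simp [hc]
  set q1 := chg gz hz q with hq1
  have hq1V : q1 ∈ TV V := by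
    refine chg_mem hV _ _ (fun c => ?_) _ hq
    rw [hhz]
    by_cases hc : Z c
    · simp only [hc, if_true]
      exact hdet c
    · simp [hc]
  have hdiagz : ∀ (M : Blk k F), (fun c => if Z c then M c else 1) =
      dgm (fun x : Lt k => if Z x.1 then M x.1 x.2 x.2 else 1) := by
    intro M
    funext c
    simp only [dgm]
    by_cases hc : Z c
    · simp only [hc, if_true]
      ext i j
      have h1 := hZ c hc
      have h2 : i = j := by
        apply Fin.ext
        have := i.2
        have := j.2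
        omega
      subst h2
      rw [Matrix.diagonal_apply_eq]
    · simp [hc]
  have hq1J : ∀ x, x ∉ J → q1 x = 0 := by
    intro x hx
    rw [hq1, hgz, hhz, hdiagz g, hdiagz h, chg_diag, hqJ x hx, mul_zero, mul_zero]
  have hne1 : eval q1 f ≠ 0 := by
    have h1 := hf.2 g' h' (fun c => by
      rw [hg', hh']
      by_cases hc : Z c
      · simp [hc]
      · simp only [hc, if_false]
        exact hgh c) (fun c hc => by
      rw [hg']
      simp only [hc, if_true]) q1 hq1V
    rw [hq1, chg_chg, hgg, hhh] at h1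
    intro h0
    apply hne
    rw [h1, ← hq1, h0, mul_zero]
  -- characters of the torus
  set ev : Lt k → (Lt k → Fˣ) →* Fˣ := fun x => if Z x.1 then 1 else Pi.evalMonoidHom _ x with hev
  set A : Ix k d m → (Lt k → Fˣ) →* Fˣ := fun i => ev ⟨i.1, i.2.1⟩ * ∏ s, (ev (i.2.2.1 s))⁻¹ with hA
  set χ : (Ix k d m →₀ ℕ) → (Lt k → Fˣ) →* F := fun s => (Units.coeHom F).comp (∏ i, A i ^ s i)
    with hχ
  set χθ : (Lt k → Fˣ) →* F := (Units.coeHom F).comp (∏ c, (∏ j, ev ⟨c, j⟩) ^ θ c) with hχθ
  have hLI := linearIndependent_monoidHom (Lt k → Fˣ) F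
  have hmain : ∀ τ : Lt k → Fˣ, ∑ s ∈ f.support, (coeff s f * ∏ i, q1 i ^ s i) * χ s τ =
      eval q1 f * χθ τ := by
    intro τ
    have h1 := hf.2 (dgm fun x => (ev x τ : F)) (dgm fun x => (((ev x τ)⁻¹ : Fˣ) : F)) (fun c => by
        rw [dgm, dgm, Matrix.diagonal_mul_diagonal, ← Matrix.diagonal_one]
        congr 1
        funext j
        simp) (fun c hc => by
        rw [dgm, ← Matrix.diagonal_one]
        congr 1
        funext j
        simp [hev, hc]) q1 hq1V
    have hAi : ∀ i, chg (dgm fun x => (ev x τ : F)) (dgm fun x => (((ev x τ)⁻¹ : Fˣ) : F)) q1 i =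
        (A i τ : F) * q1 i := by
      intro i
      rw [chg_diag, ← mul_assoc, hA]
      congr 1
      simp only [MonoidHom.mul_apply, MonoidHom.finsetProd_apply, MonoidHom.inv_apply, Units.val_mul,
        Units.coe_prod]
      rw [mul_comm]
    have hd : (∏ c, (dgm (fun x : Lt k => (ev x τ : F)) c).det ^ θ c) = χθ τ := by
      rw [hχθ]
      simp only [dgm, MonoidHom.comp_apply, Units.coeHom_apply, MonoidHom.finsetProd_apply,
        MonoidHom.zpow_apply, Units.coe_prod, Units.val_zpow_eq_zpow_val, Matrix.det_diagonal]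
    rw [hd, eval_eq'] at h1
    rw [mul_comm (eval q1 f), ← h1]
    refine Finset.sum_congr rfl fun s _ => ?_
    simp only [hAi, mul_pow, Finset.prod_mul_distrib]
    rw [hχ]
    simp only [MonoidHom.comp_apply, Units.coeHom_apply, MonoidHom.finsetProd_apply,
      MonoidHom.pow_apply, Units.coe_prod, Units.val_pow_eq_pow_val]
    ring
  have hcomb : ∑ s ∈ f.support, Finsupp.single (χ s) (coeff s f * ∏ i, q1 i ^ s i) =
      Finsupp.single χθ (eval q1 f) := by
    apply hLI
    rw [map_sum]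
    simp only [Finsupp.linearCombination_single]
    funext τ
    rw [Finset.sum_apply]
    simp only [Pi.smul_apply, smul_eq_mul]
    exact hmain τ
  obtain ⟨s, hs, hsne⟩ : ∃ s ∈ f.support, (Finsupp.single (χ s) (coeff s f * ∏ i, q1 i ^ s i)) χθ ≠ 0 := by
    by_contra hcon
    push Not at hcon
    have h1 := congrArg (fun z => z χθ) hcomb
    simp only [Finsupp.finsetSum_apply, Finsupp.single_eq_same] at h1
    rw [Finset.sum_eq_zero hcon] at h1
    exact hne1 h1.symm
  have hχs : χ s = χθ := by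
    by_contra hne2
    exact hsne (Finsupp.single_eq_of_ne (Ne.symm hne2))
  have hsJ : ∀ i, i ∉ J → s i = 0 := by
    intro i hi
    by_contra hsi
    apply hsne
    rw [hχs, Finsupp.single_eq_same, Finset.prod_eq_zero (Finset.mem_univ i), mul_zero]
    rw [hq1J i hi, zero_pow hsi]
  refine ⟨s, hsJ, fun l hl => ?_⟩
  set u : Fˣ := Units.mk0 2 two_ne_zero with hu
  have hevl : ∀ x, ev x (fun x => u ^ l x) = u ^ l x := by
    intro x
    rw [hev]
    simp only
    by_cases hx : Z x.1
    · rw [if_pos hx, hl x.1 x.2 hx, zpow_zero, MonoidHom.one_apply]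
    · rw [if_neg hx]
      rfl
  have h1 := congrArg (fun z : (Lt k → Fˣ) →* F => z (fun x => u ^ l x)) hχs
  simp only [hχ, hχθ, hA, MonoidHom.comp_apply, Units.coeHom_apply, MonoidHom.finsetProd_apply,
    MonoidHom.pow_apply, MonoidHom.zpow_apply, MonoidHom.mul_apply, MonoidHom.inv_apply, hevl] at h1
  have h2 := Units.ext h1
  have h3 : (∏ i, (u ^ l ⟨i.1, i.2.1⟩ * ∏ s', (u ^ l (i.2.2.1 s'))⁻¹) ^ s i) =
      u ^ (∑ i, (s i : ℤ) * bw l i) := by
    rw [zpow_sum']
    refine Finset.prod_congr rfl fun i _ => ?_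
    rw [mul_comm (s i : ℤ), zpow_mul, zpow_natCast]
    congr 1
    rw [bw, zpow_sub, zpow_sum', Finset.prod_inv_distrib]
  have h4 : (∏ c, (∏ j, u ^ l ⟨c, j⟩) ^ θ c) = u ^ (∑ c, θ c * ∑ j, l ⟨c, j⟩) := by
    rw [zpow_sum']
    refine Finset.prod_congr rfl fun c _ => ?_
    rw [mul_comm (θ c), zpow_mul, zpow_sum']
  rw [h3, h4] at h2
  have h5 := congrArg (Units.val) h2
  rw [Units.val_zpow_eq_zpow_val, Units.val_zpow_eq_zpow_val] at h5
  exact (two_zpow_inj _ _ h5).symm

end NF

section Closed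

variable {r : ℕ} {k d m : Fin r → ℕ}

/-- The classes which are combinations of the weights of the coordinates in `J`. -/
def CJ (Z : Fin r → Prop) (J : Set (Ix k d m)) : Set (Fin r → ℝ) :=
  {D | ∃ a : Ix k d m → ℝ, (∀ i, 0 ≤ a i) ∧ (∀ i, i ∉ J → a i = 0) ∧
    ∀ l : Lt k → ℤ, (∀ c j, Z c → l ⟨c, j⟩ = 0) →
      ∑ c, D c * ∑ j, (l ⟨c, j⟩ : ℝ) = ∑ i, a i * (bw l i : ℝ)}

theorem bw_sum (l : Lt k → ℤ) (i : Ix k d m) : bw l i = ∑ x, l x * bw (Pi.single x 1) i := by
  classical
  simp only [bw, mul_sub, Finset.sum_sub_distrib, Finset.mul_sum]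
  congr 1
  · rw [Finset.sum_eq_single (⟨i.1, i.2.1⟩ : Lt k)]
    · simp
    · intro x _ hx
      rw [Pi.single_eq_of_ne (Ne.symm hx), mul_zero]
    · simp
  · rw [Finset.sum_comm]
    refine Finset.sum_congr rfl fun s _ => ?_
    rw [Finset.sum_eq_single (i.2.2.1 s)]
    · simp
    · intro x _ hx
      rw [Pi.single_eq_of_ne (Ne.symm hx), mul_zero]
    · simp

theorem isClosed_CJ (Z : Fin r → Prop) (J : Set (Ix k d m)) : IsClosed (CJ Z J) := by
  classical
  set u : (Fin r → ℝ) → (Lt k → ℝ) := fun D x => if Z x.1 then 0 else D x.1 with hu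
  set w : Ix k d m → Lt k → ℝ := fun i x => if i ∈ J ∧ ¬ Z x.1 then ((bw (Pi.single x 1) i : ℤ) : ℝ)
    else 0 with hw
  have hcont : Continuous u := by
    rw [hu]
    refine continuous_pi fun x => ?_
    by_cases hx : Z x.1
    · simp only [hx, if_true]
      exact continuous_const
    · simp only [hx, if_false]
      exact continuous_apply _
  have h1 : CJ Z J = u ⁻¹' {v : Lt k → ℝ | ∃ a : Ix k d m → ℝ, (∀ i, 0 ≤ a i) ∧
      v = ∑ i, a i • w i} := by
    ext D
    simp only [Set.mem_preimage, Set.mem_setOf_eq, CJ]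
    constructor
    · rintro ⟨a, ha, haJ, hl⟩
      refine ⟨a, ha, ?_⟩
      funext x
      rw [Finset.sum_apply]
      simp only [Pi.smul_apply, smul_eq_mul, hu, hw]
      by_cases hx : Z x.1
      · simp [hx]
      · rw [if_neg hx]
        have h2 := hl (Pi.single x 1) (fun c j hc => by
          rw [Pi.single_eq_of_ne]
          intro h
          apply hx
          rw [← h]
          exact hc)
        have h3 : ∑ c, D c * ∑ j, ((Pi.single x (1 : ℤ) : Lt k → ℤ) ⟨c, j⟩ : ℝ) = D x.1 := by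
          obtain ⟨c0, j0⟩ := x
          rw [Finset.sum_eq_single c0]
          · rw [Finset.sum_eq_single j0]
            · simp
            · intro j _ hj
              rw [Pi.single_eq_of_ne (by
                intro h
                simp at h
                exact hj h), Int.cast_zero]
            · simp
          · intro c _ hc
            rw [Finset.sum_eq_zero, mul_zero]
            intro j _
            rw [Pi.single_eq_of_ne (by
              intro h
              exact hc (congrArg Sigma.fst h)), Int.cast_zero]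
          · simp
        rw [h3] at h2
        rw [h2]
        refine Finset.sum_congr rfl fun i _ => ?_
        by_cases hi : i ∈ J
        · rw [if_pos ⟨hi, hx⟩]
        · rw [if_neg (fun h => hi h.1), haJ i hi, zero_mul, mul_zero]
    · rintro ⟨a, ha, hua⟩
      refine ⟨fun i => if i ∈ J then a i else 0, fun i => ?_, fun i hi => if_neg hi, fun l hl => ?_⟩
      · change 0 ≤ if i ∈ J then a i else 0
        split_ifs
        · exact ha i
        · exact le_rfl
      · have h2 : ∀ x : Lt k, D x.1 * (l x : ℝ) = ∑ i, (if i ∈ J then a i else 0) *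
            ((l x : ℝ) * ((bw (Pi.single x 1) i : ℤ) : ℝ)) := by
          intro x
          by_cases hx : Z x.1
          · have h3 : l x = 0 := hl x.1 x.2 hx
            rw [h3]
            simp
          · have h3 := congrFun hua x
            rw [Finset.sum_apply] at h3
            simp only [Pi.smul_apply, smul_eq_mul, hu, hw] at h3
            rw [if_neg hx] at h3
            rw [h3, Finset.sum_mul]
            refine Finset.sum_congr rfl fun i _ => ?_
            by_cases hi : i ∈ J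
            · rw [if_pos ⟨hi, hx⟩, if_pos hi]
              ring
            · rw [if_neg (fun h => hi h.1), if_neg hi]
              ring
        have h4 : ∑ c, D c * ∑ j, (l ⟨c, j⟩ : ℝ) = ∑ x : Lt k, D x.1 * (l x : ℝ) := by
          rw [Fintype.sum_sigma]
          exact Finset.sum_congr rfl fun c _ => Finset.mul_sum _ _ _
        rw [h4]
        simp only [h2]
        rw [Finset.sum_comm]
        refine Finset.sum_congr rfl fun i _ => ?_
        rw [← Finset.mul_sum]
        congr 1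
        rw [bw_sum l i]
        push_cast
        rfl
  rw [h1]
  exact (isClosed_cone w).preimage hcont

end Closed

section Bound

variable {r : ℕ} {k d m : Fin r → ℕ} {F : Type} [Field F] [NumberField F]

theorem eff_sub {Z : Fin r → Prop} (hZ : ∀ c, Z c → k c = 1)
    {V : ∀ c, Submodule F (Wd k d m c → F)} (hV : Stab V) (J : Set (Ix k d m))
    (hJ : ∀ P, ¬ Bad V J P) : Eff Z V ⊆ CJ Z J := by
  rintro D ⟨n, t, θ, f, ht, hf, hD⟩
  choose s hsJ hs using fun i => sec_weight hZ hV (hf i) J hJ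
  refine ⟨fun x => ∑ i, t i * s i x, fun x => Finset.sum_nonneg fun i _ => mul_nonneg (ht i)
    (Nat.cast_nonneg _), fun x hx => Finset.sum_eq_zero fun i _ => by
      rw [hsJ i x hx, Nat.cast_zero, mul_zero], fun l hl => ?_⟩
  have h1 : ∀ i, ∑ c, (θ i c : ℝ) * ∑ j, (l ⟨c, j⟩ : ℝ) = ∑ x, (s i x : ℝ) * (bw l x : ℝ) := by
    intro i
    exact_mod_cast hs i l hl
  simp only [hD, Finset.sum_mul]
  rw [Finset.sum_comm, Finset.sum_comm (γ := Ix k d m)]
  refine Finset.sum_congr rfl fun i _ => ?_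
  simp only [mul_assoc]
  rw [← Finset.mul_sum, h1, Finset.mul_sum]

/-- Lower bounds for the classes in the closure of the effective cone. -/
theorem eff_bound {Z : Fin r → Prop} (hZ : ∀ c, Z c → k c = 1)
    {V : ∀ c, Submodule F (Wd k d m c → F)} (hV : Stab V) (κ0 : ℕ) (D : Fin r → ℝ)
    (hD : D ∈ closure (Eff Z V)) : ∃ κ : ℝ, 0 ≤ κ ∧ ∀ l : Lt k → ℤ,
      (∀ c j, Z c → l ⟨c, j⟩ = 0) → (∀ P, ¬ Bad V {i | -(κ0 : ℤ) ≤ bw l i} P) →
      -κ ≤ ∑ c, D c * ∑ j, (l ⟨c, j⟩ : ℝ) := by
  classical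
  have h1 : ∀ J : Set (Ix k d m), ∃ a : Ix k d m → ℝ, (∀ i, 0 ≤ a i) ∧ ((∀ P, ¬ Bad V J P) →
      (∀ i, i ∉ J → a i = 0) ∧ ∀ l : Lt k → ℤ, (∀ c j, Z c → l ⟨c, j⟩ = 0) →
      ∑ c, D c * ∑ j, (l ⟨c, j⟩ : ℝ) = ∑ i, a i * (bw l i : ℝ)) := by
    intro J
    by_cases hJ : ∀ P, ¬ Bad V J P
    · have h2 : D ∈ CJ Z J := closure_minimal (eff_sub hZ hV J hJ) (isClosed_CJ Z J) hD
      obtain ⟨a, ha, h3, h4⟩ := h2
      exact ⟨a, ha, fun _ => ⟨h3, h4⟩⟩
    · exact ⟨0, fun _ => le_rfl, fun h => absurd h hJ⟩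
  choose a ha h2 using h1
  have h0 : ∀ J, 0 ≤ (κ0 : ℝ) * ∑ i, a J i := fun J =>
    mul_nonneg (Nat.cast_nonneg _) (Finset.sum_nonneg fun i _ => ha J i)
  refine ⟨∑ J : Set (Ix k d m), (κ0 : ℝ) * ∑ i, a J i, Finset.sum_nonneg fun J _ => h0 J,
    fun l hl hbad => ?_⟩
  set J : Set (Ix k d m) := {i | -(κ0 : ℤ) ≤ bw l i} with hJ
  obtain ⟨h3, h4⟩ := h2 J hbad
  rw [h4 l hl]
  have h5 : (κ0 : ℝ) * ∑ i, a J i ≤ ∑ J : Set (Ix k d m), (κ0 : ℝ) * ∑ i, a J i :=
    Finset.single_le_sum (f := fun J => (κ0 : ℝ) * ∑ i, a J i) (fun J _ => h0 J) (Finset.mem_univ J)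
  have h6 : -((κ0 : ℝ) * ∑ i, a J i) ≤ ∑ i, a J i * (bw l i : ℝ) := by
    rw [Finset.mul_sum, ← Finset.sum_neg_distrib]
    refine Finset.sum_le_sum fun i _ => ?_
    by_cases hi : i ∈ J
    · have h7 : -(κ0 : ℝ) ≤ (bw l i : ℝ) := by
        have h8 : -(κ0 : ℤ) ≤ bw l i := hi
        exact_mod_cast h8
      have := mul_le_mul_of_nonneg_left h7 (ha J i)
      linarith
    · rw [h3 i hi]
      simp
  linarith

end Bound

end Pool.Agent.H71.TW
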