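import Mathlib
import Pool.Agent.H71.TW.Cnt

set_option autoImplicit false
set_option linter.all false

/-! Towers of Grassmannian bundles. -/

namespace Pool.Agent.H71.TW

open Pool.Agent.H71.MB NumberField

/-- The words in the letters of lower level. -/
structure Amb {r : ℕ} (ι : Fin r → Type) (d m : Fin r → ℕ) where
  e : ∀ c, ι c → (Fin (d c) → (j : Fin r) × ι j) × Fin (m c)
  lower : ∀ c x s, ((e c x).1 s).1 < c
  surj : ∀ c w, (∀ s, (w.1 s).1 < c) → ∃ x, e c x = w

section Gen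

variable {r : ℕ} {k d m : Fin r → ℕ} {F : Type} [Field F] {ι : Fin r → Type}

theorem bd_ne {R : Type} [CommRing R] {n k : Fin r → Type} (B : ∀ c, Matrix (n c) (k c) R)
    (x : Σ c, n c) (z : Σ c, k c) (h : x.1 ≠ z.1) : bd B x z = 0 := by
  obtain ⟨c, i⟩ := x
  obtain ⟨c', j⟩ := z
  exact Matrix.blockDiagonal'_apply_ne _ _ _ h

theorem bd_eq {R : Type} [CommRing R] {n k : Fin r → Type} (B : ∀ c, Matrix (n c) (k c) R)
    (c : Fin r) (i : n c) (j : k c) : bd B ⟨c, i⟩ ⟨c, j⟩ = B c i j :=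
  Matrix.blockDiagonal'_apply_eq _ _ _ _

theorem bd_congr {R : Type} [CommRing R] {n k : Fin r → Type} {B B' : ∀ c, Matrix (n c) (k c) R}
    (x : Σ c, n c) (z : Σ c, k c) (h : B x.1 = B' x.1) : bd B x z = bd B' x z := by
  obtain ⟨c, i⟩ := x
  obtain ⟨c', j⟩ := z
  by_cases hc : c = c'
  · subst hc
    rw [bd_eq, bd_eq]
    simp only at h
    rw [h]
  · rw [bd_ne B _ _ hc, bd_ne B' _ _ hc]

/-- `V` is supported on the words in the letters of lower level. -/
def Low (V : ∀ c, Submodule F (Wd k d m c → F)) : Prop :=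
  ∀ c, ∀ q ∈ V c, ∀ x, q x ≠ 0 → ∀ s, (x.1 s).1 < c

/-- `q` are the coordinates of the matrices `B`. -/
def Rel (E : Amb ι d m) (B : ∀ c, Matrix (ι c) (Fin (k c)) F) (q : Ix k d m → F) : Prop :=
  ∀ c x j, B c x j = act (bd B) (fun w : Wd k d m c => q ⟨c, (j, w)⟩) (E.e c x)

theorem act_low {c : Fin r} (B : ∀ c, Matrix (ι c) (Fin (k c)) F) (q : Wd k d m c → F)
    (hq : ∀ x, q x ≠ 0 → ∀ s, (x.1 s).1 < c) (w : (Fin (d c) → (j : Fin r) × ι j) × Fin (m c))
    (hw : ¬ ∀ s, (w.1 s).1 < c) : act (bd B) q w = 0 := by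
  push Not at hw
  obtain ⟨s, hs⟩ := hw
  rw [act_apply]
  refine Finset.sum_eq_zero fun z _ => ?_
  by_cases h : (w.1 s).1 = (z s).1
  · have h1 : q (z, w.2) = 0 := by
      by_contra hne
      have h2 := hq _ hne s
      simp only at h2
      rw [← h] at h2
      exact absurd h2 (not_lt.2 hs)
    rw [h1, mul_zero]
  · rw [Finset.prod_eq_zero (Finset.mem_univ s) (bd_ne B _ _ h), zero_mul]

theorem act_congr_low {R : Type} [CommRing R] (E : Amb ι d m) (c : Fin r)
    (B B' : ∀ c, Matrix (ι c) (Fin (k c)) R)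
    (h : ∀ c', c' < c → B c' = B' c') (q : Wd k d m c → R) (x : ι c) :
    act (bd B) q (E.e c x) = act (bd B') q (E.e c x) := by
  rw [act_apply, act_apply]
  refine Finset.sum_congr rfl fun z _ => ?_
  congr 1
  exact Finset.prod_congr rfl fun s _ => bd_congr _ _ (h _ (E.lower c x s))

theorem Rel.unique {E : Amb ι d m} {B B' : ∀ c, Matrix (ι c) (Fin (k c)) F} {q : Ix k d m → F}
    (h : Rel E B q) (h' : Rel E B' q) : B = B' := by
  have key : ∀ (n : ℕ) (c : Fin r), (c : ℕ) = n → B c = B' c := by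
    intro n
    induction n using Nat.strong_induction_on with
    | _ n ih =>
      intro c hc
      ext x j
      rw [h c x j, h' c x j]
      exact act_congr_low E c B B' (fun c' hc' => ih c' (by rw [← hc]; exact hc') c' rfl) _ x
  exact funext fun c => key _ c rfl

theorem exists_rel (E : Amb ι d m) (q : Ix k d m → F) :
    ∃ B : ∀ c, Matrix (ι c) (Fin (k c)) F, Rel E B q := by
  set Bn : ℕ → ∀ c, Matrix (ι c) (Fin (k c)) F := fun n => Nat.rec (fun c => 0)
    (fun _ B c => Matrix.of fun x j => act (bd B) (fun w : Wd k d m c => q ⟨c, (j, w)⟩) (E.e c x)) n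
    with hBn
  have hs : ∀ n c x j, Bn (n + 1) c x j =
      act (bd (Bn n)) (fun w : Wd k d m c => q ⟨c, (j, w)⟩) (E.e c x) := fun n c x j => rfl
  have key : ∀ (n : ℕ) (c : Fin r), (c : ℕ) < n → Bn (n + 1) c = Bn n c := by
    intro n
    induction n with
    | zero => intro c hc; exact absurd hc (Nat.not_lt_zero _)
    | succ n ih =>
      intro c hc
      ext x j
      refine (hs (n + 1) c x j).trans (Eq.trans ?_ (hs n c x j).symm)
      exact act_congr_low E c _ _ (fun c' hc' => ih c' (by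
        have : (c' : ℕ) < c := hc'
        omega)) _ x
  refine ⟨Bn r, fun c x j => ?_⟩
  rw [← hs, key r c c.2]

theorem Rel.change {E : Amb ι d m} {B : ∀ c, Matrix (ι c) (Fin (k c)) F} {q : Ix k d m → F}
    (h : Rel E B q) (g g' : Blk k F) (hg : ∀ c, g c * g' c = 1) :
    Rel E (fun c => B c * g c) (chg g g' q) := by
  intro c x j
  have h1 : (fun w : Wd k d m c => chg g g' q ⟨c, (j, w)⟩) =
      act (bd g') (fun w : Wd k d m c => ∑ j', g c j' j * q ⟨c, (j', w)⟩) := rfl
  rw [h1, act_act, bd_mul]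
  have h2 : (fun c => B c * g c * g' c) = B := by
    funext c
    rw [Matrix.mul_assoc, hg, Matrix.mul_one]
  rw [h2, act_sum]
  refine (Matrix.mul_apply (M := B c) (N := g c)).trans ?_
  refine Finset.sum_congr rfl fun j' _ => ?_
  rw [mul_comm, h c x j']

/-- Points of the tower. -/
structure IsPt (E : Amb ι d m) (V : ∀ c, Submodule F (Wd k d m c → F))
    (x : ∀ c, Submodule F (ι c → F)) : Prop where
  finrank_eq : ∀ c, Module.finrank F (x c) = k c
  mem : ∃ (B : ∀ c, Matrix (ι c) (Fin (k c)) F) (q : Ix k d m → F), q ∈ TV V ∧ Rel E B q ∧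
    ∀ c, LinearMap.range (B c).mulVecLin = x c

theorem inj_of_finrank {ι : Type} {k : ℕ} (B : Matrix ι (Fin k) F)
    (W : Submodule F (ι → F)) (hB : LinearMap.range B.mulVecLin = W)
    (hk : Module.finrank F W = k) : Function.Injective B.mulVecLin := by
  rw [← LinearMap.ker_eq_bot]
  have h1 := LinearMap.finrank_range_add_finrank_ker B.mulVecLin
  rw [hB, hk, Module.finrank_fintype_fun_eq_card, Fintype.card_fin] at h1
  exact Submodule.finrank_eq_zero.1 (by omega)

theorem exists_left_inv {ι : Type} [Fintype ι] {k : ℕ} (B : Matrix ι (Fin k) F)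
    (h : Function.Injective B.mulVecLin) : ∃ A : Matrix (Fin k) ι F, A * B = 1 := by
  classical
  obtain ⟨f, hf⟩ := LinearMap.exists_leftInverse_of_injective B.mulVecLin (LinearMap.ker_eq_bot.2 h)
  refine ⟨LinearMap.toMatrix' f, ?_⟩
  have h1 := congrArg LinearMap.toMatrix' hf
  rw [LinearMap.toMatrix'_comp, LinearMap.toMatrix'_id] at h1
  rw [← h1]
  congr 1
  exact (LinearMap.toMatrix'_toLin' B).symm

/-- A different basis gives different translates. -/
theorem chg_distinct {E : Amb ι d m} {B B' : ∀ c, Matrix (ι c) (Fin (k c)) F}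
    {q q' : Ix k d m → F} (h : Rel E B q) (h' : Rel E B' q') (w w' u u' : Blk k F)
    (hw : ∀ c, w c * w' c = 1) (hu : ∀ c, u c * u' c = 1) (heq : chg w w' q = chg u u' q') :
    ∀ c, B c * w c = B' c * u c := by
  have h1 := h.change w w' hw
  have h2 := h'.change u u' hu
  rw [heq] at h1
  exact fun c => congrFun (h1.unique h2) c

theorem range_mul {ι : Type} {k : ℕ} (B : Matrix ι (Fin k) F) (w w' : Matrix (Fin k) (Fin k) F)
    (hw : w * w' = 1) : LinearMap.range (B * w).mulVecLin = LinearMap.range B.mulVecLin := by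
  apply le_antisymm
  · rintro _ ⟨y, rfl⟩
    exact ⟨w.mulVec y, by rw [Matrix.mulVecLin_apply, Matrix.mulVecLin_apply, Matrix.mulVec_mulVec]⟩
  · rintro _ ⟨y, rfl⟩
    refine ⟨w'.mulVec y, ?_⟩
    rw [Matrix.mulVecLin_apply, Matrix.mulVecLin_apply, Matrix.mulVec_mulVec, Matrix.mul_assoc, hw,
      Matrix.mul_one]

end Gen

section NF

variable {r : ℕ} {k d m : Fin r → ℕ} {F : Type} [Field F] [NumberField F] {ι : Fin r → Type}

theorem exists_rep [∀ c, Finite (ι c)] {E : Amb ι d m} {V : ∀ c, Submodule F (Wd k d m c → F)}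
    (hV : Stab V) {x : ∀ c, Submodule F (ι c → F)} (hx : IsPt E V x)
    (B : ∀ c, Matrix (ι c) (Fin (k c)) F) (hB : ∀ c, LinearMap.range (B c).mulVecLin = x c) :
    ∃ q ∈ TV V, Rel E B q := by
  obtain ⟨B0, q0, hq0, hr, hB0⟩ := hx.mem
  choose g hg1 hg2 using fun c => exists_basis_change (x c) (B c) (hB c) (B0 c) (hB0 c)
    (hx.finrank_eq c)
  refine ⟨chg g (fun c => (g c)⁻¹) q0, chg_mem hV _ _ (fun c => ?_) _ hq0, ?_⟩
  · rw [Matrix.det_nonsing_inv, Ring.inverse_eq_inv']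
    exact inv_ne_zero (hg2 c)
  · have h1 := hr.change g (fun c => (g c)⁻¹) fun c =>
      Matrix.mul_nonsing_inv _ (isUnit_iff_ne_zero.2 (hg2 c))
    have h2 : (fun c => B0 c * g c) = B := funext fun c => (hg1 c).symm
    rw [h2] at h1
    exact h1

theorem inBox_of_red {E : Amb ι d m} {V : ∀ c, Submodule F (Wd k d m c → F)} (hlow : Low V)
    {B : ∀ c, Matrix (ι c) (Fin (k c)) F} {l : Lt k → ℤ} {q : Ix k d m → F} (hq : q ∈ TV V)
    (hrel : Rel E B q) {C : ℝ} (hC : 1 ≤ C) {D : ℕ} (hred : RedM C D (bd B) l) :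
    InBox (D ^ (∑ c, d c)) (C ^ (∑ c, d c + 1)) l q := by
  classical
  have hd : ∀ c, d c ≤ ∑ c, d c := fun c =>
    Finset.single_le_sum (f := d) (fun c _ => Nat.zero_le _) (Finset.mem_univ c)
  have hval : ∀ c (j : Fin (k c)) (w : (Fin (d c) → (j : Fin r) × ι j) × Fin (m c)),
      act (bd B) (fun w : Wd k d m c => q ⟨c, (j, w)⟩) w = 0 ∨
      ∃ x, act (bd B) (fun w : Wd k d m c => q ⟨c, (j, w)⟩) w = B c x j := by
    intro c j w
    by_cases hw : ∀ s, (w.1 s).1 < c
    · obtain ⟨x, hx⟩ := E.surj c w hw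
      right
      refine ⟨x, ?_⟩
      rw [hrel c x j, hx]
    · left
      exact act_low B _ (hlow c _ (hq c j)) w hw
  constructor
  · rintro ⟨c, j, z⟩
    have h1 := slots_den hred (d c) (fun w : Wd k d m c => q ⟨c, (j, w)⟩) (fun w => by
      rcases hval c j w with h | ⟨x, h⟩
      · rw [h]
        exact isIntegral_zero
      · rw [h, ← bd_eq B]
        exact hred.int _ _) z
    have h2 : ((D ^ (∑ c, d c) : ℕ) : F) * q ⟨c, (j, z)⟩ =
        ((D ^ (∑ c, d c - d c) : ℕ) : F) * ((D : F) ^ d c * q ⟨c, (j, z)⟩) := by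
      rw [← mul_assoc]
      congr 1
      push_cast
      rw [← pow_add]
      congr 1
      have := hd c
      omega
    rw [h2]
    exact (isIntegral_natCast _).mul h1
  · rintro v ⟨c, j, z⟩
    have h1 := slots_low hred v (d c) (fun w : Wd k d m c => q ⟨c, (j, w)⟩) (C * 2 ^ l ⟨c, j⟩)
      (fun w => by
        rcases hval c j w with h | ⟨x, h⟩
        · rw [h, map_zero]
          positivity
        · rw [h, ← bd_eq B]
          exact hred.up v _ _) z
    have h2 : (0 : ℝ) < 2 ^ (∑ s, l (z.1 s)) := by positivity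
    rw [← two_zpow_sum] at h1
    have h3 : v (q ⟨c, (j, z)⟩) ≤ C ^ d c * (C * 2 ^ l ⟨c, j⟩) / 2 ^ (∑ s, l (z.1 s)) := by
      rw [le_div_iff₀ h2]
      exact h1
    refine h3.trans ?_
    have h4 : (2 : ℝ) ^ bw l (⟨c, (j, z)⟩ : Ix k d m) = 2 ^ l ⟨c, j⟩ / 2 ^ (∑ s, l (z.1 s)) := by
      rw [← zpow_sub₀ (by norm_num)]
      rfl
    rw [h4]
    have h5 : C ^ d c * (C * 2 ^ l ⟨c, j⟩) / 2 ^ (∑ s, l (z.1 s)) =
        C ^ (d c + 1) * (2 ^ l ⟨c, j⟩ / 2 ^ (∑ s, l (z.1 s))) := by
      rw [pow_succ]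
      ring
    rw [h5]
    have h6 : C ^ (d c + 1) ≤ C ^ (∑ c, d c + 1) := pow_le_pow_right₀ hC (by
      have := hd c
      omega)
    exact mul_le_mul_of_nonneg_right h6 (by positivity)

end NF

end Pool.Agent.H71.TW
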