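import Mathlib
import Pool.Agent.H71.TW.Tow

set_option autoImplicit false
set_option linter.all false

/-! The open subset. -/

namespace Pool.Agent.H71.TW

open Pool.Agent.H71.MB NumberField MvPolynomial

section Nonvanish

variable {X F : Type} [Field F] [CharZero F]

theorem exists_ne_zero_mul (V : Submodule F (X → F)) (P Q : MvPolynomial X F)
    (hP : ∃ q ∈ V, eval q P ≠ 0) (hQ : ∃ q ∈ V, eval q Q ≠ 0) : ∃ q ∈ V, eval q (P * Q) ≠ 0 := by
  obtain ⟨q1, hq1, h1⟩ := hP
  obtain ⟨q2, hq2, h2⟩ := hQ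
  -- restrict to the line through `q1` and `q2`
  set L : MvPolynomial X F →ₐ[F] Polynomial F :=
    aeval fun x => Polynomial.C (q1 x) + Polynomial.X * Polynomial.C (q2 x - q1 x) with hL
  have hLe : ∀ (t : F) (G : MvPolynomial X F), Polynomial.eval t (L G) =
      eval (fun x => q1 x + t * (q2 x - q1 x)) G := by
    intro t G
    induction G using MvPolynomial.induction_on with
    | C c => simp [hL]
    | add p q hp hq => rw [map_add, Polynomial.eval_add, hp, hq, map_add]
    | mul_X p i hp =>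
      rw [map_mul, Polynomial.eval_mul, hp, map_mul, eval_X]
      congr 1
      simp [hL]
  have hLP : L P ≠ 0 := by
    intro h0
    have := hLe 0 P
    rw [h0, Polynomial.eval_zero] at this
    apply h1
    rw [this]
    congr 2
    funext x
    ring
  have hLQ : L Q ≠ 0 := by
    intro h0
    have := hLe 1 Q
    rw [h0, Polynomial.eval_zero] at this
    apply h2
    rw [this]
    congr 2
    funext x
    ring
  have hne : L (P * Q) ≠ 0 := by
    rw [map_mul]
    exact mul_ne_zero hLP hLQ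
  obtain ⟨t, ht⟩ : ∃ t : F, Polynomial.eval t (L (P * Q)) ≠ 0 := by
    by_contra hcon
    push Not at hcon
    exact hne (Polynomial.funext fun t => by rw [hcon, Polynomial.eval_zero])
  rw [hLe] at ht
  refine ⟨_, ?_, ht⟩
  have : (fun x => q1 x + t * (q2 x - q1 x)) = q1 + t • (q2 - q1) := by
    funext x
    simp
  rw [this]
  exact V.add_mem hq1 (V.smul_mem _ (V.sub_mem hq2 hq1))

theorem exists_ne_zero_prod {ι : Type} (V : Submodule F (X → F)) (s : Finset ι)
    (P : ι → MvPolynomial X F) (hP : ∀ i ∈ s, ∃ q ∈ V, eval q (P i) ≠ 0) :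
    ∃ q ∈ V, eval q (∏ i ∈ s, P i) ≠ 0 := by
  classical
  induction s using Finset.induction_on with
  | empty => exact ⟨0, V.zero_mem, by simp⟩
  | insert i s hi ih =>
    rw [Finset.prod_insert hi]
    exact exists_ne_zero_mul V _ _ (hP i (Finset.mem_insert_self _ _))
      (ih fun j hj => hP j (Finset.mem_insert_of_mem hj))

end Nonvanish

section Rank

variable {r : ℕ} {k d m : Fin r → ℕ} {F : Type} [Field F] {ι : Fin r → Type}

theorem act_lowone {c : Fin r} (P : Blk k F) (hP : ∀ c', c' < c → P c' = 1) (T : Wd k d m c → F)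
    (z : Wd k d m c) (hz : ∀ s, (z.1 s).1 < c) : act (bd P) T z = T z := by
  classical
  have h1 : act (bd (fun c => (1 : Matrix (Fin (k c)) (Fin (k c)) F))) T z = T z := by
    have h : bd (fun c => (1 : Matrix (Fin (k c)) (Fin (k c)) F)) = 1 := Matrix.blockDiagonal'_one
    rw [h, act_one]
  rw [← h1, act_apply, act_apply]
  refine Finset.sum_congr rfl fun z' _ => ?_
  congr 1
  exact Finset.prod_congr rfl fun s _ => bd_congr _ _ (hP _ (hz s))

/-- A tensor in the letters of lower level is determined by its image. -/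
theorem eq_zero_of_act {c : Fin r} [∀ c, Fintype (ι c)] (B : ∀ c, Matrix (ι c) (Fin (k c)) F)
    (hB : ∀ c', c' < c → Function.Injective (B c').mulVecLin) (T : Wd k d m c → F)
    (hT : ∀ x, T x ≠ 0 → ∀ s, (x.1 s).1 < c) (h : act (bd B) T = 0) : T = 0 := by
  classical
  have hA : ∀ c', ∃ A : Matrix (Fin (k c')) (ι c') F, c' < c → A * B c' = 1 := by
    intro c'
    by_cases hc : c' < c
    · obtain ⟨A, hA⟩ := exists_left_inv (B c') (hB c' hc)
      exact ⟨A, fun _ => hA⟩
    · exact ⟨0, fun h => absurd h hc⟩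
  choose A hA using hA
  funext z
  by_contra hne
  have h1 := act_lowone (fun c => A c * B c) hA T z (hT z hne)
  rw [← bd_mul, ← act_act, h] at h1
  apply hne
  rw [← h1, act_apply]
  simp

theorem inj_of_det {E : Amb ι d m} [∀ c, Fintype (ι c)] {V : ∀ c, Submodule F (Wd k d m c → F)}
    (hlow : Low V) {B : ∀ c, Matrix (ι c) (Fin (k c)) F} {q : Ix k d m → F} (hq : q ∈ TV V)
    (h : Rel E B q) (hdet : ∀ c, ∀ a : Fin (k c) → F, (∀ w, ∑ j, a j * q ⟨c, (j, w)⟩ = 0) → a = 0) :
    ∀ c, Function.Injective (B c).mulVecLin := by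
  have key : ∀ (n : ℕ) (c : Fin r), (c : ℕ) = n → Function.Injective (B c).mulVecLin := by
    intro n
    induction n using Nat.strong_induction_on with
    | _ n ih =>
      intro c hc
      rw [← LinearMap.ker_eq_bot, LinearMap.ker_eq_bot']
      intro a ha
      rw [Matrix.mulVecLin_apply] at ha
      set T : Wd k d m c → F := fun w => ∑ j, a j * q ⟨c, (j, w)⟩ with hT
      have hTV : T ∈ V c := by
        have h1 : T = ∑ j, a j • (fun w : Wd k d m c => q ⟨c, (j, w)⟩) := by
          funext w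
          simp [hT]
        rw [h1]
        exact (V c).sum_mem fun j _ => (V c).smul_mem _ (hq c j)
      have h1 : act (bd B) T = 0 := by
        funext w
        by_cases hw : ∀ s, (w.1 s).1 < c
        · obtain ⟨x, hx⟩ := E.surj c w hw
          rw [← hx, hT, act_sum]
          have h2 := congrFun ha x
          rw [Matrix.mulVec, dotProduct] at h2
          refine Eq.trans (Finset.sum_congr rfl fun j _ => ?_) h2
          rw [← h c x j, mul_comm]
        · exact act_low B T (hlow c T hTV) w hw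
      have h2 := eq_zero_of_act B (fun c' hc' => ih c' (by rw [← hc]; exact hc') c' rfl) T
        (hlow c T hTV) h1
      exact hdet c a fun w => congrFun h2 w
  exact fun c => key _ c rfl

theorem exists_rows {ι : Type} [Fintype ι] {k : ℕ} (B : Matrix ι (Fin k) F)
    (h : Function.Injective B.mulVecLin) : ∃ I : Fin k → ι, (B.submatrix I id).det ≠ 0 := by
  classical
  have hk : Module.finrank F (LinearMap.range B.mulVecLin) = k := by
    rw [LinearMap.finrank_range_of_inj h, Module.finrank_fintype_fun_eq_card, Fintype.card_fin]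
  obtain ⟨ν, hinj, -⟩ := exists_coords (LinearMap.range B.mulVecLin)
  refine ⟨fun i => ν (Fin.cast hk.symm i), fun h0 => ?_⟩
  obtain ⟨v, hv, hBv⟩ := Matrix.exists_mulVec_eq_zero_iff.2 h0
  apply hv
  have h1 : B.mulVecLin v = 0 := by
    refine hinj _ ⟨v, rfl⟩ fun i => ?_
    have h2 := congrFun hBv (Fin.cast hk i)
    rw [Matrix.mulVec, dotProduct] at h2
    rw [Matrix.mulVecLin_apply, Matrix.mulVec, dotProduct]
    simpa using h2
  exact h (by rw [h1, map_zero])

end Rank

section Chart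

variable {r : ℕ} {k d m : Fin r → ℕ} {F : Type} [Field F] {ι : Fin r → Type}

/-- The coordinates in a chart. -/
noncomputable def Yc (E : Amb ι d m) (I : ∀ c, Fin (k c) → ι c) (F : Type) [Field F] :
    Ix k d m → MvPolynomial ((c : Fin r) × (ι c × Fin (k c))) F := by
  classical
  exact fun i => if h : ∀ s, (i.2.2.1 s).1 < i.1 then
    X ⟨i.1, (Classical.choose (E.surj i.1 (fun s => ⟨(i.2.2.1 s).1, I _ (i.2.2.1 s).2⟩, i.2.2.2) h),
      i.2.1)⟩ else 0

theorem eval_Yc {E : Amb ι d m} {I : ∀ c, Fin (k c) → ι c} {V : ∀ c, Submodule F (Wd k d m c → F)}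
    (hlow : Low V) {B : ∀ c, Matrix (ι c) (Fin (k c)) F} {q : Ix k d m → F} (hq : q ∈ TV V)
    (h : Rel E B q) (hI : ∀ c, (B c).submatrix (I c) id = 1) (i : Ix k d m) :
    eval (fun x : (c : Fin r) × (ι c × Fin (k c)) => B x.1 x.2.1 x.2.2) (Yc E I F i) = q i := by
  classical
  obtain ⟨c, j, y, t⟩ := i
  rw [Yc]
  by_cases hy : ∀ s, (y s).1 < c
  · rw [dif_pos hy, eval_X]
    simp only
    rw [h c _ j, Classical.choose_spec (E.surj c (fun s => ⟨(y s).1, I _ (y s).2⟩, t) hy)]
    have h1 : act (bd fun c => (B c).submatrix (I c) id) (fun w : Wd k d m c => q ⟨c, (j, w)⟩) (y, t) =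
        q ⟨c, (j, (y, t))⟩ := by
      have h2 : (fun c => (B c).submatrix (I c) id) = fun c => 1 := funext hI
      have h3 : bd (fun c => (1 : Matrix (Fin (k c)) (Fin (k c)) F)) = 1 := Matrix.blockDiagonal'_one
      rw [h2, h3, act_one]
    rw [← h1, act_apply, act_apply]
    refine Finset.sum_congr rfl fun z _ => ?_
    congr 1
  · rw [dif_neg hy, map_zero]
    by_contra hne
    exact hy (hlow c _ (hq c j) (y, t) (Ne.symm hne))

/-- A basic open subset of the tower. -/
def InU (E : Amb ι d m) (V : ∀ c, Submodule F (Wd k d m c → F)) (I : ∀ c, Fin (k c) → ι c)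
    (P : MvPolynomial ((c : Fin r) × (ι c × Fin (k c))) F) (x : ∀ c, Submodule F (ι c → F)) : Prop :=
  IsPt E V x ∧ ∃ B : ∀ c, Matrix (ι c) (Fin (k c)) F, (∀ c, LinearMap.range (B c).mulVecLin = x c) ∧
    (∀ c, (B c).submatrix (I c) id = 1) ∧
    eval (fun i : (c : Fin r) × (ι c × Fin (k c)) => B i.1 i.2.1 i.2.2) P ≠ 0

end Chart

section Main

variable {r : ℕ} {k d m : Fin r → ℕ} {F : Type} [Field F] [NumberField F] {ι : Fin r → Type}

theorem exists_open (E : Amb ι d m) [∀ c, Fintype (ι c)] (V : ∀ c, Submodule F (Wd k d m c → F))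
    (hV : Stab V) (hlow : Low V) (hk : ∀ c, k c ≤ Module.finrank F (V c)) :
    ∃ (I : ∀ c, Fin (k c) → ι c) (P : MvPolynomial ((c : Fin r) × (ι c × Fin (k c))) F),
      (∃ x, InU E V I P x) ∧ ∀ x, InU E V I P x → ∀ (B : ∀ c, Matrix (ι c) (Fin (k c)) F)
        (q : Ix k d m → F), q ∈ TV V → Rel E B q → (∀ c, LinearMap.range (B c).mulVecLin = x c) →
        ∀ J : Set (Ix k d m), (∀ i, i ∉ J → q i = 0) → ∀ P', ¬ Bad V J P' := by
  classical
  -- the polynomials
  have hch : ∀ J : Set (Ix k d m), ∃ P : MvPolynomial (Ix k d m) F, (∃ q ∈ TV V, eval q P ≠ 0) ∧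
      ((∃ P', Bad V J P') → Bad V J P) := by
    intro J
    by_cases h : ∃ P', Bad V J P'
    · obtain ⟨P', hP'⟩ := h
      exact ⟨P', hP'.2, fun _ => hP'⟩
    · exact ⟨1, ⟨0, (TV V).zero_mem, by simp⟩, fun h' => absurd h' h⟩
  choose PJ hPJ1 hPJ2 using hch
  choose ν hinj hsurj using fun c => exists_coords (V c)
  set Dt : Fin r → MvPolynomial (Ix k d m) F := fun c =>
    (Matrix.of fun j i : Fin (k c) => (X ⟨c, (j, ν c (Fin.castLE (hk c) i))⟩ :
      MvPolynomial (Ix k d m) F)).det with hDt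
  have hDte : ∀ c q, eval q (Dt c) =
      (Matrix.of fun j i : Fin (k c) => q ⟨c, (j, ν c (Fin.castLE (hk c) i))⟩).det := by
    intro c q
    rw [hDt]
    simp only
    rw [RingHom.map_det]
    congr 1
    ext i j
    simp
  have hDtne : ∀ c, ∃ q ∈ TV V, eval q (Dt c) ≠ 0 := by
    intro c
    choose qj hqj hqjz using fun j : Fin (k c) => hsurj c fun i =>
      if i = Fin.castLE (hk c) j then (1 : F) else 0
    refine ⟨fun i => if h : i.1 = c then qj (Fin.cast (by rw [h]) i.2.1) (h ▸ i.2.2) else 0, ?_, ?_⟩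
    · intro c' j
      by_cases hc : c' = c
      · subst hc
        simpa using hqj j
      · simp only [hc, dif_neg, not_false_eq_true]
        exact (V c').zero_mem
    · rw [hDte]
      have h1 : (Matrix.of fun j i : Fin (k c) => (if h : c = c then
          qj (Fin.cast (by rw [h]) j) (h ▸ ν c (Fin.castLE (hk c) i)) else 0)) =
          (1 : Matrix (Fin (k c)) (Fin (k c)) F) := by
        ext j i
        simp only [Matrix.of_apply, dif_pos, Fin.cast_eq_self, hqjz, Matrix.one_apply]
        by_cases hij : j = i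
        · subst hij
          simp
        · rw [if_neg hij, if_neg]
          intro h
          exact hij ((Fin.castLE_injective (hk c)) h).symm
      rw [h1, Matrix.det_one]
      exact one_ne_zero
  set Q : MvPolynomial (Ix k d m) F := (∏ J : Set (Ix k d m), PJ J) * ∏ c, Dt c with hQ
  obtain ⟨q1, hq1, hq1Q⟩ := exists_ne_zero_mul (TV V) (∏ J : Set (Ix k d m), PJ J) (∏ c, Dt c)
    (exists_ne_zero_prod _ _ _ fun J _ => hPJ1 J) (exists_ne_zero_prod _ _ _ fun c _ => hDtne c)
  have hQJ : ∀ q, eval q Q ≠ 0 → ∀ J, eval q (PJ J) ≠ 0 := by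
    intro q hq J
    rw [hQ, map_mul, map_prod] at hq
    exact Finset.prod_ne_zero_iff.1 (left_ne_zero_of_mul hq) J (Finset.mem_univ _)
  obtain ⟨B1, hB1⟩ := exists_rel E q1
  have hB1inj : ∀ c, Function.Injective (B1 c).mulVecLin := by
    refine inj_of_det hlow hq1 hB1 fun c a ha => ?_
    have h1 : eval q1 (Dt c) ≠ 0 := by
      rw [map_mul, map_prod, map_prod] at hq1Q
      exact Finset.prod_ne_zero_iff.1 (right_ne_zero_of_mul hq1Q) c (Finset.mem_univ _)
    rw [hDte] at h1
    refine Matrix.eq_zero_of_vecMul_eq_zero h1 ?_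
    funext i
    rw [Matrix.vecMul, dotProduct]
    exact ha _
  choose I hI using fun c => exists_rows (B1 c) (hB1inj c)
  set g1 : Blk k F := fun c => (B1 c).submatrix (I c) id with hg1
  have hgu : ∀ c, IsUnit (g1 c).det := fun c => isUnit_iff_ne_zero.2 (hI c)
  have hgg : ∀ c, g1 c * (g1 c)⁻¹ = 1 := fun c => Matrix.mul_nonsing_inv _ (hgu c)
  have hgg' : ∀ c, (g1 c)⁻¹ * g1 c = 1 := fun c => Matrix.nonsing_inv_mul _ (hgu c)
  set P : MvPolynomial ((c : Fin r) × (ι c × Fin (k c))) F :=
    aeval (chg (fun c => (g1 c).map C) (fun c => ((g1 c)⁻¹).map C) (Yc E I F)) Q with hP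
  have hPe : ∀ (B : ∀ c, Matrix (ι c) (Fin (k c)) F) (q : Ix k d m → F), q ∈ TV V → Rel E B q →
      (∀ c, (B c).submatrix (I c) id = 1) →
      eval (fun x : (c : Fin r) × (ι c × Fin (k c)) => B x.1 x.2.1 x.2.2) P =
        eval (chg g1 (fun c => (g1 c)⁻¹) q) Q := by
    intro B q hq hr hBI
    rw [hP, eval_aeval']
    congr 2
    funext i
    rw [chg_map]
    have e1 : ∀ (M : Blk k F), (fun c => ((M c).map (C : F → MvPolynomial ((c : Fin r) ×
        (ι c × Fin (k c))) F)).map (eval fun x : (c : Fin r) × (ι c × Fin (k c)) =>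
          B x.1 x.2.1 x.2.2)) = M := by
      intro M
      funext c
      ext i j
      simp
    rw [e1 g1, e1 fun c => (g1 c)⁻¹]
    congr 1
    funext i
    exact eval_Yc hlow hq hr hBI i
  refine ⟨I, P, ?_, ?_⟩
  · refine ⟨fun c => LinearMap.range (B1 c).mulVecLin, ⟨fun c => ?_, B1, q1, hq1, hB1, fun c => rfl⟩,
      fun c => B1 c * (g1 c)⁻¹, fun c => range_mul _ _ _ (hgg' c), fun c => ?_, ?_⟩
    · rw [LinearMap.finrank_range_of_inj (hB1inj c), Module.finrank_fintype_fun_eq_card,
        Fintype.card_fin]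
    · have h1 : (B1 c * (g1 c)⁻¹).submatrix (I c) id = g1 c * (g1 c)⁻¹ := by
        ext i j
        simp [Matrix.mul_apply, hg1]
      rw [h1, hgg]
    · have h1 := hB1.change (fun c => (g1 c)⁻¹) g1 hgg'
      have h2 : chg (fun c => (g1 c)⁻¹) g1 q1 ∈ TV V := chg_mem hV _ _ (fun c => hI c) _ hq1
      rw [hPe _ _ h2 h1 (fun c => by
        have h1 : (B1 c * (g1 c)⁻¹).submatrix (I c) id = g1 c * (g1 c)⁻¹ := by
          ext i j
          simp [Matrix.mul_apply, hg1]
        rw [h1, hgg]), chg_chg]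
      have h3 : (fun c => (g1 c)⁻¹ * g1 c) = fun c => (1 : Matrix (Fin (k c)) (Fin (k c)) F) :=
        funext hgg'
      rw [h3, chg_one]
      exact hq1Q
  · rintro x ⟨hx, B0, hB0, hB0I, hB0P⟩ B q hq hr hB J hqJ P' hP'
    choose g hg1' hg2 using fun c => exists_basis_change (x c) (B0 c) (hB0 c) (B c) (hB c)
      (hx.finrank_eq c)
    have hgu' : ∀ c, IsUnit (g c).det := fun c => isUnit_iff_ne_zero.2 (hg2 c)
    have h1 := hr.change g (fun c => (g c)⁻¹) fun c => Matrix.mul_nonsing_inv _ (hgu' c)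
    have h2 : (fun c => B c * g c) = B0 := funext fun c => (hg1' c).symm
    rw [h2] at h1
    have h3 : chg g (fun c => (g c)⁻¹) q ∈ TV V := chg_mem hV _ _ (fun c => by
      rw [Matrix.det_nonsing_inv, Ring.inverse_eq_inv']
      exact inv_ne_zero (hg2 c)) _ hq
    rw [hPe _ _ h3 h1 hB0I, chg_chg] at hB0P
    refine hQJ _ hB0P J ?_
    refine (hPJ2 J ⟨P', hP'⟩).1 _ _ (fun c => ?_) q hq hqJ
    rw [Matrix.mul_assoc, ← Matrix.mul_assoc (g1 c), hgg, Matrix.one_mul,
      Matrix.mul_nonsing_inv _ (hgu' c)]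

end Main

end Pool.Agent.H71.TW
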