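import Mathlib
import Pool.Agent.H71.TW.Opn
import Pool.Agent.H71.TW.Eff
import Pool.Agent.H71.MB.Numeric

set_option autoImplicit false
set_option linter.all false

/-! The main theorem. -/

namespace Pool.Agent.H71.TW

open Pool.Agent.H71.MB NumberField MvPolynomial

variable {r : ℕ} {k d m : Fin r → ℕ} {F : Type} [Field F] [NumberField F] {ι : Fin r → Type}

theorem one_le_prod' {α : Type} (s : Finset α) (f : α → ℝ) (h : ∀ i ∈ s, 1 ≤ f i) :
    1 ≤ ∏ i ∈ s, f i := by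
  classical
  induction s using Finset.induction_on with
  | empty => simp
  | insert i s hi ih =>
    rw [Finset.prod_insert hi]
    exact one_le_mul_of_one_le_of_one_le (h i (Finset.mem_insert_self _ _))
      (ih fun j hj => h j (Finset.mem_insert_of_mem hj))

theorem RedM.low_size {C : ℝ} {D : ℕ} {ι : Type} {k : ℕ} {B : Matrix ι (Fin k) F} {l : Fin k → ℤ}
    (h : RedM C D B l) (hinj : Function.Injective B.mulVecLin) (j : Fin k) : 1 ≤ C * 2 ^ l j := by
  classical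
  obtain ⟨x, hx⟩ : ∃ x, B x j ≠ 0 := by
    by_contra hcon
    push Not at hcon
    have h1 : B.mulVecLin (Pi.single j 1) = 0 := by
      funext x
      rw [Matrix.mulVecLin_apply, Matrix.mulVec_single_one]
      exact hcon x
    have h2 := hinj (h1.trans (map_zero _).symm)
    have h3 := congrFun h2 j
    simp at h3
  obtain ⟨v, hv⟩ := exists_one_le _ hx (h.int x j)
  exact hv.trans (h.up v x j)

/-- Reduced bases for all levels. -/
theorem exists_reduced [∀ c, Fintype (ι c)] (E : Amb ι d m)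
    (V : ∀ c, Submodule F (Wd k d m c → F)) (hk1 : ∀ c, 1 ≤ k c) (Z : Fin r → Prop)
    (hZ : ∀ c, Z c → k c = 1 ∧ d c = 0 ∧ m c = 1) :
    ∃ (C : ℝ) (D : ℕ), 1 ≤ C ∧ 0 < D ∧ ∀ x, IsPt E V x →
      ∃ (B : ∀ c, Matrix (ι c) (Fin (k c)) F) (l : Lt k → ℤ),
        (∀ c, LinearMap.range (B c).mulVecLin = x c) ∧ (∀ c, Monotone fun j => l ⟨c, j⟩) ∧
        (∀ c, RedM C D (B c) fun j => l ⟨c, j⟩) ∧ ∀ c j, Z c → l ⟨c, j⟩ = 0 := by
  classical
  choose Cc Dc hCc hDc hred using fun c => exists_redMat F (ι c) (k c)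
  set C : ℝ := ∏ c, Cc c with hC
  set D : ℕ := ∏ c, Dc c with hD
  have hC1 : ∀ s : Finset (Fin r), 1 ≤ ∏ c ∈ s, Cc c := fun s => one_le_prod' s _ fun c _ => hCc c
  have hCle : ∀ c, Cc c ≤ C := by
    intro c
    rw [hC, ← Finset.mul_prod_erase _ _ (Finset.mem_univ c)]
    have h1 := hC1 (Finset.univ.erase c)
    have h2 := hCc c
    nlinarith
  have hDdvd : ∀ c, Dc c ∣ D := fun c => Finset.dvd_prod_of_mem _ (Finset.mem_univ c)
  refine ⟨C, D, hC1 _, Finset.prod_pos fun c _ => hDc c, fun x hx => ?_⟩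
  have hne : ∀ c, Nonempty (ι c) := by
    intro c
    by_contra hcon
    rw [not_nonempty_iff] at hcon
    have h1 : Subsingleton (x c) := ⟨fun a b => Subtype.ext (funext fun i => hcon.elim i)⟩
    have h2 : Module.finrank F (x c) = 0 := Module.finrank_zero_of_subsingleton
    have h3 := hx.finrank_eq c
    have h4 := hk1 c
    omega
  have hlev : ∀ c, ∃ (B : Matrix (ι c) (Fin (k c)) F) (l : Fin (k c) → ℤ),
      LinearMap.range B.mulVecLin = x c ∧ Monotone l ∧ RedM C D B l ∧ (Z c → ∀ j, l j = 0) := by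
    intro c
    by_cases hc : Z c
    · obtain ⟨h1, h2, h3⟩ := hZ c hc
      obtain ⟨B0, q0, hq0, hr, hB0⟩ := hx.mem
      have hsub : Subsingleton (Fin (k c)) := by
        rw [h1]
        infer_instance
      have hconst : ∀ y y' j, B0 c y j = B0 c y' j := by
        intro y y' j
        rw [hr c y j, hr c y' j]
        congr 1
        refine Prod.ext ?_ ?_
        · funext s
          exact absurd s.2 (by omega)
        · apply Fin.ext
          have := (E.e c y).2.2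
          have := (E.e c y').2.2
          omega
      have hinj0 := inj_of_finrank (B0 c) (x c) (hB0 c) (hx.finrank_eq c)
      obtain ⟨y0⟩ := hne c
      have hj0 : 0 < k c := by omega
      set j0 : Fin (k c) := ⟨0, hj0⟩ with hj0d
      have hne0 : B0 c y0 j0 ≠ 0 := by
        intro h0
        have h4 : (B0 c).mulVecLin (Pi.single j0 1) = 0 := by
          funext y
          rw [Matrix.mulVecLin_apply, Matrix.mulVec_single_one]
          change B0 c y j0 = 0
          rw [hconst y y0, h0]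
        have h5 := hinj0 (h4.trans (map_zero _).symm)
        have h6 := congrFun h5 j0
        simp at h6
      set B : Matrix (ι c) (Fin (k c)) F := fun _ _ => 1 with hB
      have hBv : ∀ (w : Fin (k c) → F) y, B.mulVec w y = w j0 := by
        intro w y
        rw [Matrix.mulVec, dotProduct, Finset.sum_eq_single j0]
        · simp [hB]
        · intro j _ hj
          exact absurd (Subsingleton.elim _ _) hj
        · simp
      have hB0v : ∀ (w : Fin (k c) → F) y, (B0 c).mulVec w y = B0 c y0 j0 * w j0 := by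
        intro w y
        rw [Matrix.mulVec, dotProduct, Finset.sum_eq_single j0]
        · rw [hconst y y0]
        · intro j _ hj
          exact absurd (Subsingleton.elim _ _) hj
        · simp
      refine ⟨B, fun _ => 0, ?_, monotone_const, ⟨?_, ?_, ?_, ?_⟩, fun _ _ => rfl⟩
      · rw [← hB0 c]
        apply le_antisymm
        · rintro _ ⟨w, rfl⟩
          refine ⟨(B0 c y0 j0)⁻¹ • w, ?_⟩
          funext y
          rw [Matrix.mulVecLin_apply, Matrix.mulVecLin_apply, hB0v, hBv, Pi.smul_apply, smul_eq_mul,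
            ← mul_assoc, mul_inv_cancel₀ hne0, one_mul]
        · rintro _ ⟨w, rfl⟩
          refine ⟨B0 c y0 j0 • w, ?_⟩
          funext y
          rw [Matrix.mulVecLin_apply, Matrix.mulVecLin_apply, hB0v, hBv, Pi.smul_apply, smul_eq_mul]
      · intro y j
        exact isIntegral_one
      · intro v y j
        rw [hB]
        simp only [map_one, zpow_zero, mul_one]
        exact hC1 _
      · intro v w M hM j
        have h4 := hM y0
        rw [hBv] at h4
        have h5 : j = j0 := Subsingleton.elim _ _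
        rw [h5]
        simp only [zpow_zero, mul_one]
        have h6 := v_nonneg v (w j0)
        have h7 := hC1 Finset.univ
        rw [← hC] at h7
        nlinarith
      · intro w hw j
        have h4 := hw y0
        rw [hBv] at h4
        have h5 : j = j0 := Subsingleton.elim _ _
        rw [h5]
        exact (isIntegral_natCast _).mul h4
    · obtain ⟨B, l, hB, hl, hr⟩ := hred c (x c) (hx.finrank_eq c)
      exact ⟨B, l, hB, hl, hr.mono (by linarith [hCc c]) (hCle c) (hDdvd c) (Or.inl (hne c)),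
        fun h => absurd h hc⟩
  choose B l hB hl hr hl0 using hlev
  exact ⟨B, fun a => l a.1 a.2, hB, hl, hr, fun c j hc => hl0 c hc j⟩

theorem main [∀ c, Fintype (ι c)] (E : Amb ι d m) (V : ∀ c, Submodule F (Wd k d m c → F))
    (hV : Stab V) (hlow : Low V) (hk1 : ∀ c, 1 ≤ k c) (hk : ∀ c, k c ≤ Module.finrank F (V c))
    (Z : Fin r → Prop) (hZ : ∀ c, Z c → k c = 1 ∧ d c = 0 ∧ m c = 1) :
    ∃ (I : ∀ c, Fin (k c) → ι c) (P : MvPolynomial ((c : Fin r) × (ι c × Fin (k c))) F),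
      (∃ x, InU E V I P x) ∧ ∀ (β : Fin r → ℝ) (a : ℝ), 0 ≤ a → β ∈ interior (Eff Z V) →
        (fun c => a * β c - kap V c) ∈ closure (Eff Z V) → ∃ K : ℝ, ∀ B : ℝ, 2 ≤ B →
          {x : ∀ c, Submodule F (ι c → F) | InU E V I P x ∧ ∏ c, grH (x c) ^ β c ≤ B}.Finite ∧
          ({x : ∀ c, Submodule F (ι c → F) | InU E V I P x ∧
            ∏ c, grH (x c) ^ β c ≤ B}.ncard : ℝ) ≤ K * B ^ a * (Real.log B) ^ (∑ c, k c) := by
  classical
  obtain ⟨I, P, hne, hopen⟩ := exists_open E V hV hlow hk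
  refine ⟨I, P, hne, ?_⟩
  obtain ⟨C, D, hC, hD, hred⟩ := exists_reduced E V hk1 Z hZ
  choose! Bf lf hBr hmono hR hlZ using hred
  have hqex : ∀ x, IsPt E V x → ∃ q, q ∈ TV V ∧ Rel E (Bf x) q := by
    intro x hx
    obtain ⟨q, hq, hr⟩ := exists_rep hV hx (Bf x) (hBr x hx)
    exact ⟨q, hq, hr⟩
  choose! qf hqV hqR using hqex
  set M : ℕ := D ^ (∑ c, d c) with hM
  have hM0 : 0 < M := pow_pos hD _
  set C1 : ℝ := C ^ (∑ c, d c + 1) with hC1
  have hC11 : 1 ≤ C1 := one_le_pow₀ hC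
  have hbox : ∀ x, IsPt E V x → InBox M C1 (lf x) (qf x) := fun x hx =>
    inBox_of_red hlow (hqV x hx) (hqR x hx) hC (RedM.block (by linarith) (hR x hx))
  have hinj : ∀ x, IsPt E V x → ∀ c, Function.Injective (Bf x c).mulVecLin := fun x hx c =>
    inj_of_finrank _ _ (hBr x hx c) (hx.finrank_eq c)
  obtain ⟨κ0, hκ0⟩ : ∃ κ0 : ℕ, (M : ℝ) * C1 ≤ 2 ^ κ0 := by
    obtain ⟨κ0, h⟩ := pow_unbounded_of_one_lt ((M : ℝ) * C1) (one_lt_two : (1 : ℝ) < 2)
    exact ⟨κ0, h.le⟩
  obtain ⟨κ1, hκ1⟩ : ∃ κ1 : ℕ, C ≤ 2 ^ κ1 := by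
    obtain ⟨κ1, h⟩ := pow_unbounded_of_one_lt C (one_lt_two : (1 : ℝ) < 2)
    exact ⟨κ1, h.le⟩
  have hlow1 : ∀ x, IsPt E V x → ∀ a, -(κ1 : ℤ) ≤ lf x a := by
    rintro x hx ⟨c, j⟩
    have h1 := (hR x hx c).low_size (hinj x hx c) j
    have h2 : (2 : ℝ) ^ (0 : ℤ) ≤ 2 ^ ((κ1 : ℤ) + lf x ⟨c, j⟩) := by
      rw [zpow_zero, zpow_add₀ (by norm_num), zpow_natCast]
      have h3 : (0 : ℝ) < 2 ^ lf x ⟨c, j⟩ := by positivity
      nlinarith
    have h3 := (zpow_le_zpow_iff_right₀ (one_lt_two : (1 : ℝ) < 2)).1 h2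
    omega
  have hnb : ∀ x, InU E V I P x → ∀ P', ¬ Bad V {i | -(κ0 : ℤ) ≤ bw (lf x) i} P' := by
    intro x hx
    refine hopen x hx (Bf x) (qf x) (hqV x hx.1) (hqR x hx.1) (hBr x hx.1) _ fun i hi => ?_
    have h1 : ¬ (-(κ0 : ℤ) ≤ bw (lf x) i) := hi
    refine (hbox x hx.1).eq_zero hM0 i ?_
    have h2 : (2 : ℝ) ^ bw (lf x) i ≤ 2 ^ (-(κ0 : ℤ) - 1) :=
      zpow_le_zpow_right₀ (by norm_num) (by omega)
    have h3 : (2 : ℝ) ^ (-(κ0 : ℤ) - 1) = (2 ^ κ0)⁻¹ * 2⁻¹ := by
      rw [zpow_sub₀ (by norm_num), zpow_neg, zpow_natCast, zpow_one, div_eq_mul_inv]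
    have h4 : (0 : ℝ) < 2 ^ κ0 := by positivity
    have h5 : (M : ℝ) * C1 * 2 ^ bw (lf x) i ≤ 2 ^ κ0 * ((2 ^ κ0)⁻¹ * 2⁻¹) := by
      rw [← h3]
      exact mul_le_mul hκ0 h2 (by positivity) h4.le
    rw [← mul_assoc, mul_inv_cancel₀ h4.ne', one_mul] at h5
    linarith
  -- coordinates
  obtain ⟨N, ν, hνi, hνs, hsum⟩ := exists_tower_coords V hV hk1
  obtain ⟨Kc, hKc, hcount⟩ := count_class V hV ν hνi hνs M hM0 C1 hC11 κ0
  -- heights
  have hdeg : 0 < deg F := Module.finrank_pos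
  have hdegR : (0 : ℝ) < deg F := by exact_mod_cast hdeg
  obtain ⟨K1, hK1, hgr⟩ : ∃ K1 : ℝ, 1 ≤ K1 ∧ ∀ x, IsPt E V x → ∀ c,
      grH (x c) ≤ K1 * ((2 : ℝ) ^ (∑ j, lf x ⟨c, j⟩)) ^ deg F ∧
      ((2 : ℝ) ^ (∑ j, lf x ⟨c, j⟩)) ^ deg F ≤ K1 * grH (x c) := by
    have hC0 : 0 ≤ C := by linarith
    set kk : Fin r → ℝ := fun c => ((Nat.factorial (k c) : ℝ) * C ^ k c) ^ deg F +
      (C ^ k c * D ^ k c) ^ deg F with hkk
    have hkk0 : ∀ c, 0 ≤ kk c := fun c => by positivity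
    refine ⟨1 + ∑ c, kk c, ?_, ?_⟩
    · have : 0 ≤ ∑ c, kk c := Finset.sum_nonneg fun c _ => hkk0 c
      linarith
    · intro x hx c
      obtain ⟨h1, h2⟩ := grH_bounds hC hD (hR x hx c) (hBr x hx c) (hx.finrank_eq c)
      have h3 : kk c ≤ ∑ c, kk c :=
        Finset.single_le_sum (f := kk) (fun c _ => hkk0 c) (Finset.mem_univ c)
      have h4 : (0 : ℝ) ≤ ((Nat.factorial (k c) : ℝ) * C ^ k c) ^ deg F := by positivity
      have h5 : (0 : ℝ) ≤ (C ^ k c * D ^ k c) ^ deg F := by positivity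
      have h6 : 0 < grH (x c) := Height.mulHeight_pos _
      have h7 : kk c = ((Nat.factorial (k c) : ℝ) * C ^ k c) ^ deg F +
        (C ^ k c * D ^ k c) ^ deg F := rfl
      constructor
      · refine h1.trans ?_
        gcongr
        linarith
      · refine h2.trans ?_
        gcongr
        linarith
  intro β a ha0 hβ hK
  -- constants
  obtain ⟨κ2, hκ2, hkap⟩ := eff_bound (fun c hc => (hZ c hc).1) hV κ0 _ hK
  obtain ⟨ε, hε, hball⟩ := Metric.isOpen_iff.1 isOpen_interior β hβ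
  have hβc : ∀ c, β - Pi.single c (ε / 2) ∈ closure (Eff Z V) := by
    intro c
    apply subset_closure
    apply interior_subset
    apply hball
    rw [Metric.mem_ball, dist_eq_norm, sub_sub_cancel_left, norm_neg, Pi.norm_single,
      Real.norm_of_nonneg (by linarith)]
    linarith
  choose κ3 hκ3 hβb using fun c => eff_bound (fun c hc => (hZ c hc).1) hV κ0 _ (hβc c)
  set K2 : ℝ := ∏ c, K1 ^ |β c| with hK2
  have hK21 : 1 ≤ K2 := one_le_prod' _ _ fun c _ => Real.one_le_rpow hK1 (abs_nonneg _)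
  -- the height condition
  have hheight : ∀ (B : ℝ), 2 ≤ B → ∀ x, IsPt E V x → ∏ c, grH (x c) ^ β c ≤ B →
      (deg F : ℝ) * ∑ c, β c * ∑ j, (lf x ⟨c, j⟩ : ℝ) ≤ Real.logb 2 (K2 * B) := by
    intro B hB x hx hxB
    rw [Real.le_logb_iff_rpow_le (by norm_num) (by positivity)]
    have h2 : ∀ c, (2 : ℝ) ^ ((deg F : ℝ) * (β c * ∑ j, (lf x ⟨c, j⟩ : ℝ))) ≤
        K1 ^ |β c| * grH (x c) ^ β c := by
      intro c
      obtain ⟨h3, h4⟩ := hgr x hx c
      have h5 : 0 < grH (x c) := Height.mulHeight_pos _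
      have h6 : (2 : ℝ) ^ ((deg F : ℝ) * (β c * ∑ j, (lf x ⟨c, j⟩ : ℝ))) =
          (((2 : ℝ) ^ (∑ j, lf x ⟨c, j⟩)) ^ deg F) ^ β c := by
        rw [← Real.rpow_natCast, ← Real.rpow_intCast, ← Real.rpow_mul (by positivity),
          ← Real.rpow_mul (by positivity)]
        congr 1
        push_cast
        ring
      rw [h6]
      rcases le_or_gt 0 (β c) with hb | hb
      · rw [abs_of_nonneg hb, ← Real.mul_rpow (by linarith) h5.le]
        exact Real.rpow_le_rpow (by positivity) h4 hb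
      · rw [abs_of_neg hb]
        have h7 : grH (x c) / K1 ≤ ((2 : ℝ) ^ (∑ j, lf x ⟨c, j⟩)) ^ deg F := by
          rw [div_le_iff₀ (by linarith)]
          linarith
        have h8 : (((2 : ℝ) ^ (∑ j, lf x ⟨c, j⟩)) ^ deg F) ^ β c ≤ (grH (x c) / K1) ^ β c :=
          Real.rpow_le_rpow_of_nonpos (by positivity) h7 hb.le
        refine h8.trans (le_of_eq ?_)
        rw [Real.div_rpow h5.le (by linarith), Real.rpow_neg (by linarith), div_eq_mul_inv,
          mul_comm]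
    rw [Finset.mul_sum, Real.rpow_sum_of_pos (by norm_num)]
    calc ∏ c, (2 : ℝ) ^ ((deg F : ℝ) * (β c * ∑ j, (lf x ⟨c, j⟩ : ℝ)))
        ≤ ∏ c, (K1 ^ |β c| * grH (x c) ^ β c) :=
          Finset.prod_le_prod (fun c _ => by positivity) fun c _ => h2 c
      _ = K2 * ∏ c, grH (x c) ^ β c := by
          rw [Finset.prod_mul_distrib, hK2]
      _ ≤ K2 * B := by gcongr
  -- the number of points in one class
  set KA : ℝ := Kc * (2 : ℝ) ^ ((deg F : ℝ) * κ2) * K2 ^ a with hKA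
  have hKA0 : 0 ≤ KA := by positivity
  have hfiber : ∀ (B : ℝ), 2 ≤ B → ∀ (l : Lt k → ℤ) (S : Finset (∀ c, Submodule F (ι c → F))),
      (∀ x ∈ S, InU E V I P x ∧ ∏ c, grH (x c) ^ β c ≤ B ∧ lf x = l) →
      (S.card : ℝ) ≤ KA * B ^ a := by
    intro B hB l S hS
    have hB0 : 0 < B := by linarith
    by_cases hSne : S.Nonempty
    swap
    · rw [Finset.not_nonempty_iff_eq_empty] at hSne
      rw [hSne, Finset.card_empty, Nat.cast_zero]
      positivity
    obtain ⟨x0, hx0⟩ := hSne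
    obtain ⟨hx1, hx2, hx3⟩ := hS x0 hx0
    have h1 := hcount l (fun c => by rw [← hx3]; exact hmono x0 hx1.1 c)
      (by rw [← hx3]; exact hnb x0 hx1) _ S qf (fun x hx => by
        obtain ⟨h1, -, h3⟩ := hS x hx
        refine ⟨hqV x h1.1, ?_⟩
        rw [← h3]
        exact hbox x h1.1) (by
        intro x hx x' hx' w w' u u' hw hu heq
        obtain ⟨h1, -, h3⟩ := hS x hx
        obtain ⟨h1', -, h3'⟩ := hS x' hx'
        have h4 := chg_distinct (hqR x h1.1) (hqR x' h1'.1) w w' u u' hw hu heq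
        have h5 : x = x' := by
          funext c
          rw [← hBr x h1.1 c, ← hBr x' h1'.1 c, ← range_mul _ _ _ (hw c),
            ← range_mul (Bf x' c) _ _ (hu c), h4]
        subst h5
        refine ⟨rfl, funext fun c => ?_⟩
        obtain ⟨A, hA⟩ := exists_left_inv _ (hinj x h1.1 c)
        have h6 := congrArg (fun Y => A * Y) (h4 c)
        simp only [← Matrix.mul_assoc, hA, Matrix.one_mul] at h6
        exact h6)
    have h2 := hheight B hB x0 hx1.1 hx2
    have h3 := hkap (lf x0) (hlZ x0 hx1.1) (hnb x0 hx1)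
    rw [hx3] at h2 h3
    refine h1.trans ?_
    have h4 : ((2 : ℝ) ^ (∑ i, bw l (ν i))) ^ deg F =
        (2 : ℝ) ^ ((deg F : ℝ) * ∑ c, kap V c * ∑ j, (l ⟨c, j⟩ : ℝ)) := by
      rw [← hsum l, ← Real.rpow_natCast, ← Real.rpow_intCast, ← Real.rpow_mul (by norm_num),
        mul_comm]
    rw [h4]
    have h5 : (deg F : ℝ) * ∑ c, kap V c * ∑ j, (l ⟨c, j⟩ : ℝ) ≤
        a * Real.logb 2 (K2 * B) + (deg F : ℝ) * κ2 := by
      have h6 : ∑ c, (a * β c - kap V c) * ∑ j, (l ⟨c, j⟩ : ℝ) =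
          a * ∑ c, β c * ∑ j, (l ⟨c, j⟩ : ℝ) - ∑ c, kap V c * ∑ j, (l ⟨c, j⟩ : ℝ) := by
        rw [Finset.mul_sum, ← Finset.sum_sub_distrib]
        exact Finset.sum_congr rfl fun c _ => by ring
      rw [h6] at h3
      have h7 := mul_le_mul_of_nonneg_left h2 ha0
      have h8 := mul_le_mul_of_nonneg_left h3 hdegR.le
      nlinarith
    calc Kc * (2 : ℝ) ^ ((deg F : ℝ) * ∑ c, kap V c * ∑ j, (l ⟨c, j⟩ : ℝ))
        ≤ Kc * (2 : ℝ) ^ (a * Real.logb 2 (K2 * B) + (deg F : ℝ) * κ2) := by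
          gcongr
          norm_num
      _ = KA * B ^ a := by
          rw [Real.rpow_add (by norm_num), mul_comm a, Real.rpow_mul (by norm_num),
            Real.rpow_logb (by norm_num) (by norm_num) (by positivity),
            Real.mul_rpow (by positivity) hB0.le, hKA]
          ring
  -- the number of classes
  have hlog2 : 0 < Real.log 2 := Real.log_pos (by norm_num)
  set c1 : ℝ := Real.log K2 / Real.log 2 ^ 2 + 1 / Real.log 2 with hc1
  set κ4 : ℝ := ∑ c, κ3 c with hκ4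
  have hκ40 : 0 ≤ κ4 := Finset.sum_nonneg fun c _ => hκ3 c
  set ks : ℕ := ∑ c, k c with hks
  set K7 : ℝ := 2 / ε * (c1 + κ4 / Real.log 2) + (ks * κ1 + κ1 + 2) / Real.log 2 with hK7
  refine ⟨K7 ^ ks * KA, fun B hB => ?_⟩
  have hB0 : 0 < B := by linarith
  have hlogB : Real.log 2 ≤ Real.log B := Real.log_le_log (by norm_num) hB
  have hlogB0 : 0 < Real.log B := by linarith
  set Λ := Real.logb 2 (K2 * B) with hΛ
  have hΛ0 : 0 ≤ Λ := Real.logb_nonneg (by norm_num) (by nlinarith)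
  have hΛ1 : Λ ≤ c1 * Real.log B := by
    rw [hΛ, Real.logb, Real.log_mul (by positivity) hB0.ne', hc1]
    have h1 : 0 ≤ Real.log K2 := Real.log_nonneg hK21
    have h2 : Real.log K2 / Real.log 2 ≤ Real.log K2 / Real.log 2 ^ 2 * Real.log B := by
      rw [div_mul_eq_mul_div, div_le_div_iff₀ hlog2 (by positivity)]
      nlinarith [mul_nonneg h1 hlog2.le]
    rw [add_div, add_mul]
    have h3 : Real.log B / Real.log 2 = 1 / Real.log 2 * Real.log B := by ring
    rw [h3]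
    linarith
  set Hr : ℝ := 2 / ε * (Λ + κ4) + ks * κ1 + κ1 with hHr
  have hHr0 : 0 ≤ Hr := by positivity
  have hHr1 : Hr + 2 ≤ K7 * Real.log B := by
    rw [hHr, hK7, add_mul]
    have h1 : 2 / ε * (Λ + κ4) ≤ 2 / ε * (c1 + κ4 / Real.log 2) * Real.log B := by
      rw [mul_assoc]
      refine mul_le_mul_of_nonneg_left ?_ (by positivity)
      rw [add_mul]
      have h3 : κ4 ≤ κ4 / Real.log 2 * Real.log B := by
        rw [div_mul_eq_mul_div, le_div_iff₀ hlog2]
        nlinarith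
      linarith
    have h2 : ((ks : ℝ) * κ1 + κ1 + 2) ≤ (ks * κ1 + κ1 + 2) / Real.log 2 * Real.log B := by
      rw [div_mul_eq_mul_div, le_div_iff₀ hlog2]
      have : (0 : ℝ) ≤ (ks : ℝ) * κ1 + κ1 + 2 := by positivity
      nlinarith
    linarith
  set H : ℕ := ⌊Hr⌋₊ with hH
  set T : Finset (Lt k → ℤ) := Fintype.piFinset fun _ => Finset.Ico (-(κ1 : ℤ)) (-(κ1 : ℤ) + (H + 1 : ℕ))
    with hT
  have hTcard : T.card = (H + 1) ^ ks := by
    rw [hT, Fintype.card_piFinset, Finset.prod_const, Int.card_Ico, Finset.card_univ,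
      Fintype.card_sigma]
    simp only [Fintype.card_fin]
    congr 1
    omega
  apply finite_of_forall_finset
  intro S hS
  have hS' : ∀ x ∈ S, InU E V I P x ∧ ∏ c, grH (x c) ^ β c ≤ B := fun x hx => hS hx
  have hmaps : ∀ x ∈ S, lf x ∈ T := by
    intro x hx
    obtain ⟨hxU, hxB⟩ := hS' x hx
    rw [hT, Fintype.mem_piFinset]
    rintro ⟨c, j⟩
    rw [Finset.mem_Ico]
    refine ⟨hlow1 x hxU.1 _, ?_⟩
    have h1 := hheight B hB x hxU.1 hxB
    have h2 := hβb c (lf x) (hlZ x hxU.1) (hnb x hxU)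
    have h3 : ∑ c', (β - (Pi.single c (ε / 2) : Fin r → ℝ)) c' * ∑ j, (lf x ⟨c', j⟩ : ℝ) =
        ∑ c', β c' * ∑ j, (lf x ⟨c', j⟩ : ℝ) - ε / 2 * ∑ j, (lf x ⟨c, j⟩ : ℝ) := by
      simp only [Pi.sub_apply, sub_mul, Finset.sum_sub_distrib]
      congr 1
      rw [Finset.sum_eq_single c]
      · rw [Pi.single_eq_same]
      · intro c' _ hc'
        rw [Pi.single_eq_of_ne hc', zero_mul]
      · simp
    rw [h3] at h2
    set bs : ℝ := ∑ c', β c' * ∑ j, (lf x ⟨c', j⟩ : ℝ) with hbs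
    have h4 : bs ≤ Λ := by
      have h5 : (1 : ℝ) ≤ deg F := by exact_mod_cast hdeg
      rcases le_or_gt 0 bs with h6 | h6
      · nlinarith
      · linarith
    have h5 : κ3 c ≤ κ4 := Finset.single_le_sum (f := κ3) (fun c _ => hκ3 c) (Finset.mem_univ c)
    have h6 : ∑ j, (lf x ⟨c, j⟩ : ℝ) ≤ 2 / ε * (Λ + κ4) := by
      have h7 : ε / 2 * ∑ j, (lf x ⟨c, j⟩ : ℝ) ≤ Λ + κ4 := by linarith
      have h8 : ∑ j, (lf x ⟨c, j⟩ : ℝ) = 2 / ε * (ε / 2 * ∑ j, (lf x ⟨c, j⟩ : ℝ)) := by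
        field_simp
      rw [h8]
      gcongr
    have h7 : (lf x ⟨c, j⟩ : ℝ) + ∑ j' ∈ Finset.univ.erase j, (lf x ⟨c, j'⟩ : ℝ) =
        ∑ j, (lf x ⟨c, j⟩ : ℝ) := Finset.add_sum_erase Finset.univ (fun j => (lf x ⟨c, j⟩ : ℝ))
          (Finset.mem_univ j)
    have h8 : -((ks : ℝ) * κ1) ≤ ∑ j' ∈ Finset.univ.erase j, (lf x ⟨c, j'⟩ : ℝ) := by
      have h9 : ∑ _j' ∈ Finset.univ.erase j, (-(κ1 : ℝ)) ≤
          ∑ j' ∈ Finset.univ.erase j, (lf x ⟨c, j'⟩ : ℝ) := by
        refine Finset.sum_le_sum fun j' _ => ?_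
        have := hlow1 x hxU.1 ⟨c, j'⟩
        exact_mod_cast this
      rw [Finset.sum_const, nsmul_eq_mul] at h9
      refine le_trans ?_ h9
      have h10 : ((Finset.univ.erase j : Finset (Fin (k c))).card : ℝ) ≤ ks := by
        have h11 : (Finset.univ.erase j : Finset (Fin (k c))).card ≤ k c := by
          have := Finset.card_erase_le (s := (Finset.univ : Finset (Fin (k c)))) (a := j)
          rw [Finset.card_univ, Fintype.card_fin] at this
          exact this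
        have h12 : k c ≤ ks := Finset.single_le_sum (f := k) (fun c _ => Nat.zero_le _)
          (Finset.mem_univ c)
        exact_mod_cast h11.trans h12
      have h13 : (0 : ℝ) ≤ κ1 := Nat.cast_nonneg _
      nlinarith
    have h9 : (lf x ⟨c, j⟩ : ℝ) + κ1 ≤ Hr := by
      rw [hHr]
      linarith
    have h10 : Hr < H + 1 := Nat.lt_floor_add_one Hr
    have h11 : (lf x ⟨c, j⟩ : ℝ) < -(κ1 : ℝ) + (H + 1) := by linarith
    have h12 : ((lf x ⟨c, j⟩ : ℤ) : ℝ) < ((-(κ1 : ℤ) + (H + 1 : ℕ) : ℤ) : ℝ) := by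
      push_cast
      exact h11
    exact_mod_cast h12
  have hsumF : S.card = ∑ cl ∈ T, (S.filter fun x => lf x = cl).card :=
    Finset.card_eq_sum_card_fiberwise hmaps
  have hfib : ∀ cl ∈ T, ((S.filter fun x => lf x = cl).card : ℝ) ≤ KA * B ^ a := by
    intro l _
    apply hfiber B hB l
    intro x hx
    obtain ⟨hxF, hxe⟩ := Finset.mem_filter.1 hx
    exact ⟨(hS' x hxF).1, (hS' x hxF).2, hxe⟩
  have hH1 : ((H : ℝ) + 1) ≤ K7 * Real.log B := by
    have := Nat.floor_le hHr0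
    rw [← hH] at this
    linarith
  calc (S.card : ℝ) = ∑ cl ∈ T, ((S.filter fun x => lf x = cl).card : ℝ) := by
        rw [hsumF]
        push_cast
        rfl
    _ ≤ ∑ _cl ∈ T, KA * B ^ a := Finset.sum_le_sum hfib
    _ = ((H : ℝ) + 1) ^ ks * (KA * B ^ a) := by
        rw [Finset.sum_const, hTcard, nsmul_eq_mul]
        push_cast
        ring
    _ ≤ (K7 * Real.log B) ^ ks * (KA * B ^ a) := by gcongr
    _ = K7 ^ ks * KA * B ^ a * Real.log B ^ ks := by
        rw [mul_pow]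
        ring

end Pool.Agent.H71.TW
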