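import Mathlib
import Pool.Agent.H71.TW.Main

set_option autoImplicit false
set_option linter.all false

/-! Positivity of the exponent, and the final form of the theorem. -/

namespace Pool.Agent.H71.TW

open Pool.Agent.H71.MB NumberField MvPolynomial

variable {r : ℕ} {k d m : Fin r → ℕ} {F : Type} [Field F] [NumberField F] {ι : Fin r → Type}

theorem pos_exponent (V : ∀ c, Submodule F (Wd k d m c → F))
    (hV : Stab V) (hlow : Low V) (hk1 : ∀ c, 1 ≤ k c) (Z : Fin r → Prop)
    (hZ : ∀ c, Z c → k c = 1 ∧ d c = 0 ∧ m c = 1) (c0 : Fin r) (hc0 : ¬ Z c0)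
    (hV0 : 0 < Module.finrank F (V c0)) (β : Fin r → ℝ) (a : ℝ)
    (hβ : β ∈ closure (Eff Z V)) (ha : (fun c => a * β c - kap V c) ∈ closure (Eff Z V)) :
    0 < a := by
  classical
  set D0 : ℕ := ∑ c, d c + 2 with hD0
  set l : Lt k → ℤ := fun x => if Z x.1 then 0 else (D0 : ℤ) ^ (x.1 : ℕ) with hl
  have hlZ : ∀ c j, Z c → l ⟨c, j⟩ = 0 := fun c j hc => if_pos hc
  set J : Set (Ix k d m) := {i | ∀ s, (i.2.2.1 s).1 < i.1} with hJ
  have hTVJ : ∀ q ∈ TV V, ∀ i, i ∉ J → q i = 0 := by
    rintro q hq ⟨c, j, w⟩ hi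
    by_contra hne
    exact hi (hlow c _ (hq c j) w hne)
  have hbad : ∀ P, ¬ Bad V J P := by
    rintro P ⟨h1, q, hq, h2⟩
    apply h2
    have h3 := h1 (fun c => 1) (fun c => 1) (fun c => Matrix.one_mul 1) q hq (hTVJ q hq)
    rwa [chg_one] at h3
  have hbw : ∀ i ∈ J, 0 ≤ bw l i ∧ (¬ Z i.1 → 0 < bw l i) := by
    rintro ⟨c, j, y, t⟩ hi
    have hi' : ∀ s, (y s).1 < c := hi
    by_cases hc : Z c
    · refine ⟨?_, fun h => absurd hc h⟩
      have hd := (hZ c hc).2.1
      have h1 : bw l (⟨c, (j, (y, t))⟩ : Ix k d m) = l ⟨c, j⟩ - ∑ s, l (y s) := rfl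
      rw [h1, hlZ c j hc, Finset.sum_eq_zero, sub_zero]
      intro s _
      exact absurd s.2 (by omega)
    · have h1 : bw l (⟨c, (j, (y, t))⟩ : Ix k d m) = l ⟨c, j⟩ - ∑ s, l (y s) := rfl
      have h2 : l ⟨c, j⟩ = (D0 : ℤ) ^ (c : ℕ) := if_neg hc
      have hpos : 0 < bw l (⟨c, (j, (y, t))⟩ : Ix k d m) := by
        rw [h1, h2]
        by_cases hd : d c = 0
        · rw [Finset.sum_eq_zero, sub_zero]
          · positivity
          · intro s _
            exact absurd s.2 (by omega)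
        · have s0 : Fin (d c) := ⟨0, Nat.pos_of_ne_zero hd⟩
          have hc1 : 1 ≤ (c : ℕ) := by
            have : ((y s0).1 : ℕ) < c := hi' s0
            omega
          have h3 : ∀ s, l (y s) ≤ (D0 : ℤ) ^ ((c : ℕ) - 1) := by
            intro s
            have h4 : ((y s).1 : ℕ) < c := hi' s
            have h5 : (1 : ℤ) ≤ D0 := by
              rw [hD0]
              push_cast
              have : (0 : ℤ) ≤ ∑ c, (d c : ℤ) := Finset.sum_nonneg fun c _ => by positivity
              linarith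
            rw [hl]
            simp only
            split_ifs
            · positivity
            · exact pow_le_pow_right₀ h5 (by omega)
          have h4 : ∑ s, l (y s) ≤ d c * (D0 : ℤ) ^ ((c : ℕ) - 1) := by
            refine (Finset.sum_le_sum fun s _ => h3 s).trans (le_of_eq ?_)
            rw [Finset.sum_const, Finset.card_univ, Fintype.card_fin, nsmul_eq_mul]
          have h5 : (D0 : ℤ) ^ (c : ℕ) = D0 * (D0 : ℤ) ^ ((c : ℕ) - 1) := by
            rw [← pow_succ']
            congr 1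
            omega
          have h6 : (d c : ℤ) < D0 := by
            have : d c ≤ ∑ c, d c :=
              Finset.single_le_sum (f := d) (fun c _ => Nat.zero_le _) (Finset.mem_univ c)
            rw [hD0]
            omega
          have h7 : (0 : ℤ) < (D0 : ℤ) ^ ((c : ℕ) - 1) := by positivity
          rw [h5]
          nlinarith
      exact ⟨hpos.le, fun _ => hpos⟩
  have hnn : ∀ D ∈ closure (Eff Z V), 0 ≤ ∑ c, D c * ∑ j, (l ⟨c, j⟩ : ℝ) := by
    intro D hD
    obtain ⟨b, hb, hbJ, hbl⟩ := closure_minimal (eff_sub (fun c hc => (hZ c hc).1) hV J hbad)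
      (isClosed_CJ Z J) hD
    rw [hbl l hlZ]
    refine Finset.sum_nonneg fun i _ => ?_
    by_cases hi : i ∈ J
    · exact mul_nonneg (hb i) (by exact_mod_cast (hbw i hi).1)
    · rw [hbJ i hi, zero_mul]
  obtain ⟨N, ν, hνi, hνs, hsum⟩ := exists_tower_coords V hV hk1
  have hνJ : ∀ i, ν i ∈ J := by
    intro i
    obtain ⟨q, hq, hqz⟩ := hνs fun _ => 1
    by_contra hcon
    have h1 := hTVJ q hq _ hcon
    rw [hqz] at h1
    exact one_ne_zero h1
  obtain ⟨i0, hi0⟩ : ∃ i, (ν i).1 = c0 := by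
    by_contra hcon
    push Not at hcon
    obtain ⟨t, ht⟩ : ∃ t : V c0, t ≠ 0 := by
      by_contra hcon2
      push Not at hcon2
      have : Subsingleton (V c0) := ⟨fun a b => by rw [hcon2 a, hcon2 b]⟩
      have h0 : Module.finrank F (V c0) = 0 := Module.finrank_zero_of_subsingleton
      omega
    set q : Ix k d m → F := fun i => if h : i.1 = c0 then (t : Wd k d m c0 → F) (h ▸ i.2.2) else 0
      with hq
    have hqV : q ∈ TV V := by
      intro c j
      by_cases hc : c = c0
      · subst hc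
        simp [hq]
      · simp only [hq, hc, dif_neg, not_false_eq_true]
        exact (V c).zero_mem
    have h1 := hνi q hqV fun i => by
      rw [hq]
      simp only
      rw [dif_neg (hcon i)]
    apply ht
    apply Subtype.ext
    funext w
    have hk0 : 0 < k c0 := hk1 c0
    have h2 := congrFun h1 ⟨c0, (⟨0, hk0⟩, w)⟩
    simpa [hq] using h2
  have hpos : 0 < ∑ c, kap V c * ∑ j, (l ⟨c, j⟩ : ℝ) := by
    rw [← hsum l]
    have h1 : 0 < ∑ i, bw l (ν i) := by
      refine Finset.sum_pos' (fun i _ => (hbw _ (hνJ i)).1) ⟨i0, Finset.mem_univ _, ?_⟩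
      exact (hbw _ (hνJ i0)).2 (by rw [hi0]; exact hc0)
    exact_mod_cast h1
  have h1 := hnn _ ha
  have h2 := hnn _ hβ
  have h3 : ∑ c, (a * β c - kap V c) * ∑ j, (l ⟨c, j⟩ : ℝ) =
      a * ∑ c, β c * ∑ j, (l ⟨c, j⟩ : ℝ) - ∑ c, kap V c * ∑ j, (l ⟨c, j⟩ : ℝ) := by
    rw [Finset.mul_sum, ← Finset.sum_sub_distrib]
    exact Finset.sum_congr rfl fun c _ => by ring
  rw [h3] at h1
  by_contra hneg
  push Not at hneg
  have := mul_nonpos_of_nonpos_of_nonneg hneg h2
  linarith

end Pool.Agent.H71.TW
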